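import Mathlib
import Pool.Agent.RDF.NDefs
import Pool.Agent.RDF.Basic

set_option autoImplicit false

/-!
# From number fields to the algebraic closure of `ℚ`
-/

namespace Pool.Agent.AVR

open Polynomial NumberField

/-- The points of `P¹(ℚ̄)` (as `(x, 1)` and `(1, 0)`) of degree at most `N`, preperiodic for
`F / G`. -/
def Pts (N d : ℕ) (F G : ℤ[X]) : Set (AlgebraicClosure ℚ × AlgebraicClosure ℚ) :=
  {p | (p.2 = 1 ∨ p = (1, 0)) ∧ (minpoly ℚ p.1).natDegree ≤ N ∧ ∃ a b : ℕ, a < b ∧
    RDF.wedge ((RDF.lift d (F.map (algebraMap ℤ _)) (G.map (algebraMap ℤ _)))^[a] p)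
      ((RDF.lift d (F.map (algebraMap ℤ _)) (G.map (algebraMap ℤ _)))^[b] p) = 0}

theorem Conv.map_int (R S : Type*) [CommRing R] [CommRing S] (f : R →+* S) (F : ℤ[X]) :
    (F.map (algebraMap ℤ R)).map f = F.map (algebraMap ℤ S) := by
  rw [Polynomial.map_map]
  congr 1
  exact RingHom.ext_int _ _

/-- The wedge of two iterates over a larger field. -/
theorem Conv.wedge_iter {R S : Type*} [CommRing R] [CommRing S] (f : R →+* S) (d a b : ℕ)
    (F G : ℤ[X]) (q : R × R) :
    f (RDF.wedge ((RDF.lift d (F.map (algebraMap ℤ R)) (G.map (algebraMap ℤ R)))^[a] q)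
      ((RDF.lift d (F.map (algebraMap ℤ R)) (G.map (algebraMap ℤ R)))^[b] q)) =
    RDF.wedge ((RDF.lift d (F.map (algebraMap ℤ S)) (G.map (algebraMap ℤ S)))^[a] (Prod.map f f q))
      ((RDF.lift d (F.map (algebraMap ℤ S)) (G.map (algebraMap ℤ S)))^[b] (Prod.map f f q)) := by
  rw [RDF.wedge_map, RDF.iter_map, RDF.iter_map, Conv.map_int, Conv.map_int]

/-- Bounds over all number fields give bounds over the algebraic closure of `ℚ`. -/
theorem conv (N d : ℕ) (F G : ℤ[X]) (B : ℝ)
    (h : ∀ (L : Type) [Field L] [NumberField L], ∀ X : Finset (L × L),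
      (∀ p ∈ X, Pool.Agent.RDF.DegLe ℚ N p ∧ p ≠ 0 ∧ ∃ a b : ℕ, a < b ∧
        RDF.wedge ((RDF.lift d (F.map (algebraMap ℤ L)) (G.map (algebraMap ℤ L)))^[a] p)
          ((RDF.lift d (F.map (algebraMap ℤ L)) (G.map (algebraMap ℤ L)))^[b] p) = 0) →
      (∀ p ∈ X, ∀ q ∈ X, p ≠ q → RDF.wedge p q ≠ 0) →
      (X.card : ℝ) ≤ B) :
    (Pts N d F G).Finite ∧ ((Pts N d F G).ncard : ℝ) ≤ B := by
  classical
  -- the bound for finite subsets
  have key : ∀ T : Finset (AlgebraicClosure ℚ × AlgebraicClosure ℚ), (T : Set _) ⊆ Pts N d F G →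
      (T.card : ℝ) ≤ B := by
    intro T hT
    set L : IntermediateField ℚ (AlgebraicClosure ℚ) :=
      IntermediateField.adjoin ℚ ((T.image Prod.fst : Finset _) : Set (AlgebraicClosure ℚ)) with hL
    have : FiniteDimensional ℚ L := by
      refine IntermediateField.finiteDimensional_adjoin fun x _ => ?_
      exact ((AlgebraicClosure.isAlgebraic ℚ).isAlgebraic x).isIntegral
    have : NumberField L := ⟨⟩
    have h1 : ∀ p ∈ T, p.1 ∈ L := fun p hp =>
      IntermediateField.subset_adjoin ℚ _ (Finset.mem_coe.2 (Finset.mem_image_of_mem _ hp))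
    have h2 : ∀ p ∈ T, p.2 ∈ L := by
      intro p hp
      rcases (hT hp).1 with h3 | h3
      · rw [h3]
        exact one_mem L
      · rw [h3]
        exact zero_mem L
    set ι : {p // p ∈ T} → L × L := fun p => (⟨p.1.1, h1 p p.2⟩, ⟨p.1.2, h2 p p.2⟩) with hι
    have hmap : ∀ p : {p // p ∈ T},
        Prod.map (algebraMap L (AlgebraicClosure ℚ)) (algebraMap L (AlgebraicClosure ℚ)) (ι p) =
          p.1 := fun p => rfl
    have hinj : Function.Injective ι := by
      intro x y h3
      refine Subtype.ext ?_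
      rw [← hmap x, ← hmap y, h3]
    have hcard := h L (T.attach.image ι)
    rw [Finset.card_image_of_injective _ hinj, Finset.card_attach] at hcard
    refine hcard ?_ ?_
    · intro q hq
      obtain ⟨p, -, rfl⟩ := Finset.mem_image.1 hq
      obtain ⟨hp1, hpN, a, b, hab, hw⟩ := hT p.2
      refine ⟨⟨IntermediateField.adjoin ℚ {(ι p).1}, ?_,
        IntermediateField.mem_adjoin_simple_self ℚ (ι p).1, ?_⟩, ?_, a, b, hab, ?_⟩
      · have hint : IsIntegral ℚ (ι p).1 := Algebra.IsIntegral.isIntegral _
        rw [IntermediateField.adjoin.finrank hint]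
        have h3 : minpoly ℚ (algebraMap L (AlgebraicClosure ℚ) (ι p).1) = minpoly ℚ (ι p).1 :=
          minpoly.algebraMap_eq (algebraMap L (AlgebraicClosure ℚ)).injective (ι p).1
        rw [← h3]
        exact hpN
      · rcases hp1 with h3 | h3
        · have h4 : (ι p).2 = 1 := Subtype.ext h3
          rw [h4]
          exact one_mem _
        · have h4 : (ι p).2 = 0 := Subtype.ext (by rw [hι]; simp only; rw [h3]; rfl)
          rw [h4]
          exact zero_mem _
      · intro h3
        have h4 := hmap p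
        rw [h3] at h4
        have h5 : p.1 = 0 := by
          rw [← h4]
          exact Prod.ext (map_zero _) (map_zero _)
        rcases hp1 with h6 | h6
        · rw [h5] at h6
          exact one_ne_zero h6.symm
        · rw [h5] at h6
          exact one_ne_zero (congrArg Prod.fst h6).symm
      · refine (algebraMap L (AlgebraicClosure ℚ)).injective ?_
        rw [Conv.wedge_iter, map_zero, hmap]
        exact hw
    · intro q hq q' hq' hne
      obtain ⟨p, -, rfl⟩ := Finset.mem_image.1 hq
      obtain ⟨p', -, rfl⟩ := Finset.mem_image.1 hq'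
      intro h3
      apply hne
      have h4 := congrArg (algebraMap L (AlgebraicClosure ℚ)) h3
      rw [RDF.wedge_map, hmap, hmap, map_zero, RDF.wedge] at h4
      have h5 : p = p' := by
        refine Subtype.ext ?_
        rcases (hT p.2).1 with h6 | h6 <;> rcases (hT p'.2).1 with h7 | h7
        · rw [h6, h7, mul_one, mul_one, sub_eq_zero] at h4
          exact Prod.ext h4 (h6.trans h7.symm)
        · rw [h6, h7] at h4
          simp at h4
        · rw [h6, h7] at h4
          simp at h4
        · rw [h6, h7]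
      rw [h5]
  -- finiteness
  have hfin : (Pts N d F G).Finite := by
    by_contra hinf
    obtain ⟨T, hT1, hT2⟩ := (show (Pts N d F G).Infinite from hinf).exists_subset_card_eq
      (⌊B⌋₊ + 1)
    have h3 := key T hT1
    rw [hT2] at h3
    push_cast at h3
    exact absurd (Nat.lt_floor_add_one B) (not_lt.2 h3)
  refine ⟨hfin, ?_⟩
  rw [Set.ncard_eq_toFinset_card _ hfin]
  exact key _ (by rw [Set.Finite.coe_toFinset])

end Pool.Agent.AVR
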