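import Mathlib

set_option autoImplicit false

/-!
# Rational functions over `ℚ` ordered by height: the box of all pairs `(F, G)`
-/

namespace Pool.Agent.AVR

open Polynomial

/-- The polynomial with coefficients `a 0, …, a d`. -/
noncomputable def pol (d : ℕ) (a : Fin (d + 1) → ℤ) : ℤ[X] :=
  ∑ i : Fin (d + 1), C (a i) * X ^ (i : ℕ)

/-- All coefficient vectors with entries in `[-H, H]`. -/
noncomputable def Vec (d H : ℕ) : Finset (Fin (d + 1) → ℤ) :=
  Fintype.piFinset fun _ => Finset.Icc (-(H : ℤ)) H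

/-- All pairs `(F, G)`. -/
noncomputable def Box (d H : ℕ) : Finset ((Fin (d + 1) → ℤ) × (Fin (d + 1) → ℤ)) := Vec d H ×ˢ Vec d H

/-- The resultant `Res_(d,d)(F, G)`. -/
noncomputable def RR (d : ℕ) (q : (Fin (d + 1) → ℤ) × (Fin (d + 1) → ℤ)) : ℤ :=
  resultant (pol d q.1) (pol d q.2) d d

/-- The fixed point polynomial `F - z G`. -/
noncomputable def Fix {R : Type*} [CommRing R] (F G : R[X]) : R[X] := F - X * G

/-- The discriminant of the fixed point polynomial. -/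
noncomputable def DD {R : Type*} [CommRing R] (d : ℕ) (F G : R[X]) : R :=
  resultant (Fix F G) (derivative (Fix F G)) (d + 1) d

/-- The pairs `(p, e)` with `p ≤ y` prime, `e ≥ 1` and `p ^ e ≤ y ^ 2`. -/
def PE (y : ℕ) : Finset (ℕ × ℕ) :=
  ((Finset.range (y + 1)) ×ˢ (Finset.range (y ^ 2 + 1))).filter
    fun q => q.1.Prime ∧ 1 ≤ q.2 ∧ q.1 ^ q.2 ≤ y ^ 2

open Classical in
/-- `∑ log p` over the `(p, e) ∈ PE y` with `T p e t`. -/
noncomputable def Zs (y : ℕ) (T : ℕ → ℕ → ℤ → Prop) (t : ℤ) : ℝ :=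
  ∑ q ∈ PE y, if T q.1 q.2 t then Real.log q.1 else 0

/-- `{t | P t}` is contained in at most `D` classes modulo `m`. -/
def Classes (D m : ℕ) (P : ℤ → Prop) : Prop :=
  ∃ S : Finset ℤ, S.card ≤ D ∧ ∀ t, P t → ∃ s ∈ S, (m : ℤ) ∣ t - s

theorem pol_natDegree_le (d : ℕ) (a : Fin (d + 1) → ℤ) : (pol d a).natDegree ≤ d := by
  unfold pol
  refine natDegree_sum_le_of_forall_le _ _ fun i _ => ?_
  exact (natDegree_C_mul_X_pow_le _ _).trans (by omega)

theorem pol_coeff (d : ℕ) (a : Fin (d + 1) → ℤ) (i : Fin (d + 1)) :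
    (pol d a).coeff i = a i := by
  unfold pol
  simp only [finsetSum_coeff, coeff_C_mul, coeff_X_pow]
  rw [Finset.sum_eq_single i]
  · simp
  · intro j _ hj
    rw [if_neg (fun h => hj (Fin.ext h.symm)), mul_zero]
  · simp

theorem pol_coeff_eq_zero (d : ℕ) (a : Fin (d + 1) → ℤ) (i : ℕ) (hi : d < i) :
    (pol d a).coeff i = 0 :=
  coeff_eq_zero_of_natDegree_lt ((pol_natDegree_le d a).trans_lt hi)

theorem mem_Vec {d H : ℕ} {a : Fin (d + 1) → ℤ} : a ∈ Vec d H ↔ ∀ i, |a i| ≤ H := by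
  unfold Vec
  rw [Fintype.mem_piFinset]
  refine forall_congr' fun i => ?_
  rw [Finset.mem_Icc, abs_le]

theorem card_Vec (d H : ℕ) : (Vec d H).card = (2 * H + 1) ^ (d + 1) := by
  unfold Vec
  rw [Fintype.card_piFinset]
  simp only [Int.card_Icc, Finset.prod_const, Finset.card_univ, Fintype.card_fin]
  congr 1
  omega

theorem card_Box (d H : ℕ) : (Box d H).card = (2 * H + 1) ^ (2 * d + 2) := by
  unfold Box
  rw [Finset.card_product, card_Vec, ← pow_add]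
  congr 1
  ring

theorem mem_PE {y : ℕ} {q : ℕ × ℕ} :
    q ∈ PE y ↔ q.1 ≤ y ∧ q.1.Prime ∧ 1 ≤ q.2 ∧ q.1 ^ q.2 ≤ y ^ 2 := by
  unfold PE
  simp only [Finset.mem_filter, Finset.mem_product, Finset.mem_range]
  constructor
  · rintro ⟨⟨h1, h2⟩, h3⟩
    exact ⟨by omega, h3⟩
  · rintro ⟨h1, h2, h3, h4⟩
    refine ⟨⟨by omega, ?_⟩, h2, h3, h4⟩
    have := (Nat.lt_pow_self h2.one_lt : q.2 < q.1 ^ q.2)
    omega

end Pool.Agent.AVR
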