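import Mathlib

set_option autoImplicit false

/-!
# Zeros of resultants in one variable
-/

namespace Pool.Agent.AVR

open Polynomial

/-- There are at most `deg F` values `t` with `Res(F, G + t) = 0`. -/
theorem card_res_right {k : Type*} [Field k] (F G : k[X]) (n : ℕ) (hF : F ≠ 0)
    (hG : G.natDegree ≤ n) (T : Finset k)
    (hT : ∀ t ∈ T, resultant F (G + C t) F.natDegree n = 0) : T.card ≤ F.natDegree := by
  classical
  let E := AlgebraicClosure k
  let φ : k →+* E := algebraMap k E
  have hφ : Function.Injective φ := φ.injective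
  have hsp : (F.map φ).Splits := IsAlgClosed.splits _
  have hF' : F.map φ ≠ 0 := by
    rw [Ne, Polynomial.map_eq_zero]
    exact hF
  have hsub : T.image φ ⊆ (F.map φ).roots.toFinset.image fun a => -(G.map φ).eval a := by
    intro u hu
    obtain ⟨t, ht, rfl⟩ := Finset.mem_image.1 hu
    have h1 := congrArg φ (hT t ht)
    rw [map_zero, ← resultant_map_map, Polynomial.map_add, map_C] at h1
    have hdeg : (F.map φ).natDegree = F.natDegree := natDegree_map_eq_of_injective hφ F
    have hg : (G.map φ + C (φ t)).natDegree ≤ n := by
      refine (natDegree_add_le _ _).trans (max_le (natDegree_map_le.trans hG) ?_)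
      rw [natDegree_C]
      exact Nat.zero_le _
    rw [← hdeg, resultant_eq_prod_eval _ _ n hg hsp, mul_eq_zero] at h1
    rcases h1 with h1 | h1
    · exact absurd (leadingCoeff_eq_zero.1 (eq_zero_of_pow_eq_zero h1)) hF'
    · rw [Multiset.prod_eq_zero_iff, Multiset.mem_map] at h1
      obtain ⟨a, ha, h2⟩ := h1
      rw [eval_add, eval_C] at h2
      exact Finset.mem_image.2 ⟨a, Multiset.mem_toFinset.2 ha, (eq_neg_of_add_eq_zero_right h2).symm⟩
  calc T.card = (T.image φ).card := (Finset.card_image_of_injective T hφ).symm
    _ ≤ ((F.map φ).roots.toFinset.image fun a => -(G.map φ).eval a).card :=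
        Finset.card_le_card hsub
    _ ≤ (F.map φ).roots.toFinset.card := Finset.card_image_le
    _ ≤ Multiset.card (F.map φ).roots := Multiset.toFinset_card_le _
    _ ≤ (F.map φ).natDegree := card_roots' _
    _ = F.natDegree := natDegree_map_eq_of_injective hφ F

end Pool.Agent.AVR
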