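import Mathlib
import Pool.Agent.AVR.Defs
import Pool.Agent.AVR.EkRoot

set_option autoImplicit false

/-!
# The degenerate pairs, and the large primes dividing the resultant and `G_d`
-/

namespace Pool.Agent.AVR

open Polynomial

/-- The number of large prime factors (also used by EkC). -/
theorem card_large (B : ℕ) : ∃ C : ℝ, 0 ≤ C ∧ ∀ H y k : ℕ, 2 ≤ y → 1 ≤ k → H < (y + 1) ^ k →
    1 ≤ H → ∀ A : ℤ, A ≠ 0 → (|A| : ℝ) ≤ B * (H : ℝ) ^ B → ∀ S : Finset ℕ,
    (∀ p ∈ S, p.Prime ∧ y < p ∧ (p : ℤ) ∣ A) → (S.card : ℝ) ≤ C * k := by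
  refine ⟨2 * B, by positivity, fun H y k hy hk hH h1 A hA hAB S hS => ?_⟩
  have h2 : ∏ p ∈ S, p ∣ A.natAbs := Finset.prod_primes_dvd _ (fun p hp => (hS p hp).1.prime)
    (fun p hp => Int.natCast_dvd.1 (hS p hp).2.2)
  have h3 : (y + 1) ^ S.card ≤ ∏ p ∈ S, p := by
    rw [← Finset.prod_const]
    exact Finset.prod_le_prod' fun p hp => (hS p hp).2.1
  have h4 : A.natAbs ≤ B * H ^ B := by
    have h : ((A.natAbs : ℕ) : ℝ) ≤ ((B * H ^ B : ℕ) : ℝ) := by
      push_cast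
      rw [Nat.cast_natAbs, Int.cast_abs]
      exact hAB
    exact_mod_cast h
  have h5 : B * H ^ B ≤ (y + 1) ^ (B + k * B) := by
    have e1 : B ≤ (y + 1) ^ B :=
      (Nat.lt_pow_self (by norm_num : 1 < 2)).le.trans (Nat.pow_le_pow_left (by omega) B)
    calc B * H ^ B ≤ (y + 1) ^ B * ((y + 1) ^ k) ^ B :=
          Nat.mul_le_mul e1 (Nat.pow_le_pow_left hH.le B)
      _ = (y + 1) ^ (B + k * B) := by rw [← pow_mul, ← pow_add]
  have h6 : (y + 1) ^ S.card ≤ (y + 1) ^ (B + k * B) :=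
    h3.trans ((Nat.le_of_dvd (Int.natAbs_pos.2 hA) h2).trans (h4.trans h5))
  have h7 : S.card ≤ B + k * B := (Nat.pow_le_pow_iff_right (by omega)).1 h6
  have h8 : (S.card : ℝ) ≤ B + k * B := by exact_mod_cast h7
  have h9 : (1 : ℝ) ≤ k := by exact_mod_cast hk
  have h10 : (0 : ℝ) ≤ B := Nat.cast_nonneg _
  nlinarith

namespace EkA

/-- The number of elements of a residue class. -/
theorem card_dvd (H p : ℕ) (hp : 0 < p) (s : ℤ) :
    (((Finset.Icc (-(H : ℤ)) H).filter (fun t => (p : ℤ) ∣ t - s)).card : ℝ) ≤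
      (2 * H + 1) / p + 1 := by
  have h1 : (Finset.Icc (-(H : ℤ)) H).filter (fun t => (p : ℤ) ∣ t - s) =
      (Finset.Ioc (-(H : ℤ) - 1) H).filter (fun t => t ≡ s [ZMOD p]) := by
    ext t
    simp only [Finset.mem_filter, Finset.mem_Icc, Finset.mem_Ioc, Int.modEq_iff_dvd]
    rw [← dvd_neg (b := s - t), neg_sub]
    constructor
    · rintro ⟨⟨h1, h2⟩, h3⟩
      exact ⟨⟨by omega, h2⟩, h3⟩
    · rintro ⟨⟨h1, h2⟩, h3⟩
      exact ⟨⟨by omega, h2⟩, h3⟩
  have h2 := Int.Ioc_filter_modEq_card (-(H : ℤ) - 1) (H : ℤ) (r := (p : ℤ))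
    (by exact_mod_cast hp) s
  rw [h1]
  have hp' : (0 : ℚ) < (p : ℚ) := by exact_mod_cast hp
  have h3 : (((Finset.Ioc (-(H : ℤ) - 1) H).filter (fun t => t ≡ s [ZMOD p])).card : ℤ) =
      max (⌊(((H : ℤ) : ℚ) - (s : ℚ)) / ((p : ℤ) : ℚ)⌋ -
        ⌊(((-(H : ℤ) - 1 : ℤ) : ℚ) - (s : ℚ)) / ((p : ℤ) : ℚ)⌋) 0 := by
    exact_mod_cast h2
  have h4 : ((((Finset.Ioc (-(H : ℤ) - 1) H).filter (fun t => t ≡ s [ZMOD p])).card : ℤ) : ℚ) ≤
      (2 * H + 1) / p + 1 := by
    rw [h3]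
    push_cast
    have e1 := Int.floor_le (((H : ℚ) - (s : ℚ)) / (p : ℚ))
    have e2 := Int.lt_floor_add_one ((-(H : ℚ) - 1 - (s : ℚ)) / (p : ℚ))
    refine max_le ?_ (by positivity)
    have e3 : ((H : ℚ) - s) / p - (-(H : ℚ) - 1 - s) / p = (2 * H + 1) / p := by ring
    linarith
  have h5 : (((((Finset.Ioc (-(H : ℤ) - 1) H).filter (fun t => t ≡ s [ZMOD p])).card : ℤ) : ℚ) :
      ℝ) ≤ (((2 * H + 1) / p + 1 : ℚ) : ℝ) := by exact_mod_cast h4
  push_cast at h5
  exact h5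

end EkA

open Classical in
/-- The number of `t` in few classes modulo one of few large primes. -/
theorem card_classes (D₀ H y : ℕ) (hy : 1 ≤ y) (hyH : y ≤ H) (S : Finset ℕ) (P : ℕ → ℤ → Prop)
    (hS : ∀ p ∈ S, y < p ∧ Classes D₀ p (P p)) :
    (((Finset.Icc (-(H : ℤ)) H).filter (fun t => ∃ p ∈ S, P p t)).card : ℝ) ≤
      3 * D₀ * S.card / y * (2 * H + 1) := by
  have hyp : (0 : ℝ) < y := by exact_mod_cast hy
  have hone : (1 : ℝ) ≤ (2 * H + 1) / y := by
    rw [le_div_iff₀ hyp]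
    have : (y : ℝ) ≤ H := by exact_mod_cast hyH
    linarith
  have h1 : ∀ p ∈ S, (((Finset.Icc (-(H : ℤ)) H).filter (fun t => P p t)).card : ℝ) ≤
      D₀ * (2 * ((2 * H + 1) / y)) := by
    intro p hp
    obtain ⟨hyp', Z, hZ, hP⟩ := hS p hp
    have hp0 : 0 < p := by omega
    have h2 : (Finset.Icc (-(H : ℤ)) H).filter (fun t => P p t) ⊆
        Z.biUnion fun s => (Finset.Icc (-(H : ℤ)) H).filter (fun t => (p : ℤ) ∣ t - s) := by
      intro t ht
      rw [Finset.mem_filter] at ht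
      obtain ⟨s, hs, hd⟩ := hP t ht.2
      exact Finset.mem_biUnion.2 ⟨s, hs, Finset.mem_filter.2 ⟨ht.1, hd⟩⟩
    have h3 : (((Finset.Icc (-(H : ℤ)) H).filter (fun t => P p t)).card : ℝ) ≤
        ∑ s ∈ Z, (((Finset.Icc (-(H : ℤ)) H).filter (fun t => (p : ℤ) ∣ t - s)).card : ℝ) := by
      exact_mod_cast (Finset.card_le_card h2).trans Finset.card_biUnion_le
    refine h3.trans ?_
    have h4 : ∀ s ∈ Z, (((Finset.Icc (-(H : ℤ)) H).filter (fun t => (p : ℤ) ∣ t - s)).card : ℝ) ≤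
        2 * ((2 * H + 1) / y) := by
      intro s _
      refine (EkA.card_dvd H p hp0 s).trans ?_
      have h5 : ((2 * H + 1 : ℝ)) / p ≤ (2 * H + 1) / y := by
        apply div_le_div_of_nonneg_left (by positivity) hyp
        exact_mod_cast hyp'.le
      linarith
    refine (Finset.sum_le_card_nsmul _ _ _ h4).trans ?_
    rw [nsmul_eq_mul]
    exact mul_le_mul_of_nonneg_right (by exact_mod_cast hZ) (by positivity)
  have h6 : (Finset.Icc (-(H : ℤ)) H).filter (fun t => ∃ p ∈ S, P p t) ⊆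
      S.biUnion fun p => (Finset.Icc (-(H : ℤ)) H).filter (fun t => P p t) := by
    intro t ht
    rw [Finset.mem_filter] at ht
    obtain ⟨p, hp, hPt⟩ := ht.2
    exact Finset.mem_biUnion.2 ⟨p, hp, Finset.mem_filter.2 ⟨ht.1, hPt⟩⟩
  have h7 : (((Finset.Icc (-(H : ℤ)) H).filter (fun t => ∃ p ∈ S, P p t)).card : ℝ) ≤
      ∑ p ∈ S, (((Finset.Icc (-(H : ℤ)) H).filter (fun t => P p t)).card : ℝ) := by
    exact_mod_cast (Finset.card_le_card h6).trans Finset.card_biUnion_le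
  refine h7.trans ((Finset.sum_le_card_nsmul _ _ _ h1).trans ?_)
  rw [nsmul_eq_mul]
  have h8 : (3 * D₀ * S.card / y * (2 * H + 1) : ℝ) =
      S.card * (D₀ * (3 * ((2 * H + 1) / y))) := by
    field_simp
  rw [h8]
  have h9 : (0 : ℝ) ≤ (2 * H + 1) / y := by linarith
  have h10 : (D₀ : ℝ) * (2 * ((2 * H + 1) / y)) ≤ D₀ * (3 * ((2 * H + 1) / y)) :=
    mul_le_mul_of_nonneg_left (by linarith) (Nat.cast_nonneg _)
  exact mul_le_mul_of_nonneg_left h10 (Nat.cast_nonneg _)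

namespace EkA

open Classical in
/-- Counting along one coordinate. -/
theorem fib (d H : ℕ) (i : Fin (d + 1)) (P : (Fin (d + 1) → ℤ) → Prop) (B : ℝ)
    (hB : ∀ a ∈ Vec d H, (((Finset.Icc (-(H : ℤ)) H).filter
      (fun t => P (Function.update a i t))).card : ℝ) ≤ B) :
    (((Vec d H).filter P).card : ℝ) ≤ B * (2 * H + 1) ^ d := by
  have hmaps : ((Vec d H).filter P : Set (Fin (d + 1) → ℤ)).MapsTo (fun a => i.removeNth a)
      (Fintype.piFinset fun _ : Fin d => Finset.Icc (-(H : ℤ)) H) := by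
    intro a ha
    rw [Finset.mem_coe, Finset.mem_filter] at ha
    rw [Finset.mem_coe, Fintype.mem_piFinset]
    intro j
    have := mem_Vec.1 ha.1 (i.succAbove j)
    rw [Finset.mem_Icc]
    exact abs_le.1 this
  have h1 := Finset.card_eq_sum_card_fiberwise hmaps
  rw [h1]
  push_cast
  have h2 : ∀ b ∈ (Fintype.piFinset fun _ : Fin d => Finset.Icc (-(H : ℤ)) H),
      ((((Vec d H).filter P).filter (fun a => i.removeNth a = b)).card : ℝ) ≤ B := by
    intro b _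
    rcases (((Vec d H).filter P).filter (fun a => i.removeNth a = b)).eq_empty_or_nonempty with
      h | ⟨a₀, ha₀⟩
    · rw [h, Finset.card_empty, Nat.cast_zero]
      exact le_trans (Nat.cast_nonneg _) (hB 0 (mem_Vec.2 fun i => by simp))
    · rw [Finset.mem_filter, Finset.mem_filter] at ha₀
      refine le_trans ?_ (hB a₀ ha₀.1.1)
      rw [Nat.cast_le]
      refine Finset.card_le_card_of_injOn (fun a => a i) ?_ ?_
      · intro a ha
        rw [Finset.mem_coe, Finset.mem_filter, Finset.mem_filter] at ha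
        rw [Finset.mem_coe, Finset.mem_filter, Finset.mem_Icc]
        refine ⟨abs_le.1 (mem_Vec.1 ha.1.1 i), ?_⟩
        have h3 : Function.update a₀ i (a i) = a := by
          ext j
          by_cases hj : j = i
          · rw [hj, Function.update_self]
          · rw [Function.update_of_ne hj]
            obtain ⟨z, rfl⟩ := Fin.exists_succAbove_eq hj
            exact congrFun (ha₀.2.trans ha.2.symm) z
        rw [h3]
        exact ha.1.2
      · intro a ha a' ha' haa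
        rw [Finset.mem_coe, Finset.mem_filter] at ha ha'
        ext j
        by_cases hj : j = i
        · rw [hj]; exact haa
        · obtain ⟨z, rfl⟩ := Fin.exists_succAbove_eq hj
          exact congrFun (ha.2.trans ha'.2.symm) z
  refine (Finset.sum_le_card_nsmul _ _ _ h2).trans (le_of_eq ?_)
  rw [nsmul_eq_mul, Fintype.card_piFinset]
  simp only [Int.card_Icc, Finset.prod_const, Finset.card_univ, Fintype.card_fin]
  have h4 : ((H : ℤ) + 1 - -(H : ℤ)).toNat = 2 * H + 1 := by omega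
  rw [h4]
  push_cast
  ring

open Classical in
/-- Counting along one coordinate of `F`. -/
theorem fibF (d H : ℕ) (i : Fin (d + 1)) (Q : (Fin (d + 1) → ℤ) × (Fin (d + 1) → ℤ) → Prop)
    (B : ℝ) (hB : ∀ q ∈ Box d H, (((Finset.Icc (-(H : ℤ)) H).filter
      (fun t => Q (Function.update q.1 i t, q.2))).card : ℝ) ≤ B) :
    (((Box d H).filter Q).card : ℝ) ≤ B * (2 * H + 1) ^ (2 * d + 1) := by
  have h1 : (Box d H).filter Q =
      (Vec d H).biUnion fun b => ((Vec d H).filter fun a => Q (a, b)).image fun a => (a, b) := by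
    ext ⟨a, b⟩
    simp only [Box, Finset.mem_filter, Finset.mem_product, Finset.mem_biUnion, Finset.mem_image,
      Prod.mk.injEq]
    constructor
    · rintro ⟨⟨ha, hb⟩, hQ⟩
      exact ⟨b, hb, a, ⟨ha, hQ⟩, rfl, rfl⟩
    · rintro ⟨b', hb, a', ⟨ha, hQ⟩, rfl, rfl⟩
      exact ⟨⟨ha, hb⟩, hQ⟩
  have h2 : (((Box d H).filter Q).card : ℝ) ≤
      ∑ b ∈ Vec d H, (((Vec d H).filter fun a => Q (a, b)).card : ℝ) := by
    rw [h1]
    have h3 := Finset.card_biUnion_le (s := Vec d H)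
      (t := fun b => ((Vec d H).filter fun a => Q (a, b)).image fun a => (a, b))
    have h4 : ∑ b ∈ Vec d H, (((Vec d H).filter fun a => Q (a, b)).image fun a => (a, b)).card ≤
        ∑ b ∈ Vec d H, ((Vec d H).filter fun a => Q (a, b)).card :=
      Finset.sum_le_sum fun b _ => Finset.card_image_le
    exact_mod_cast h3.trans h4
  refine h2.trans ?_
  have h5 : ∀ b ∈ Vec d H, (((Vec d H).filter fun a => Q (a, b)).card : ℝ) ≤
      B * (2 * H + 1) ^ d := by
    intro b hb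
    refine fib d H i _ B fun a ha => ?_
    exact hB (a, b) (Finset.mem_product.2 ⟨ha, hb⟩)
  refine (Finset.sum_le_card_nsmul _ _ _ h5).trans (le_of_eq ?_)
  rw [nsmul_eq_mul, card_Vec]
  push_cast
  ring

open Classical in
/-- Counting along one coordinate of `G`. -/
theorem fibG (d H : ℕ) (i : Fin (d + 1)) (Q : (Fin (d + 1) → ℤ) × (Fin (d + 1) → ℤ) → Prop)
    (B : ℝ) (hB : ∀ q ∈ Box d H, (((Finset.Icc (-(H : ℤ)) H).filter
      (fun t => Q (q.1, Function.update q.2 i t))).card : ℝ) ≤ B) :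
    (((Box d H).filter Q).card : ℝ) ≤ B * (2 * H + 1) ^ (2 * d + 1) := by
  have h1 := fibF d H i (fun q => Q (q.2, q.1)) B fun q hq => by
    have h2 := hB (q.2, q.1) (by
      rw [Box, Finset.mem_product] at hq ⊢
      exact ⟨hq.2, hq.1⟩)
    exact h2
  refine le_trans ?_ h1
  rw [Nat.cast_le]
  refine Finset.card_le_card_of_injOn Prod.swap ?_ (Prod.swap_injective.injOn)
  intro q hq
  rw [Finset.mem_coe, Finset.mem_filter, Box, Finset.mem_product] at hq ⊢
  exact ⟨⟨hq.1.2, hq.1.1⟩, hq.2⟩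

theorem pol_update_zero (d : ℕ) (a : Fin (d + 1) → ℤ) (t : ℤ) :
    pol d (Function.update a 0 t) = pol d (Function.update a 0 0) + C t := by
  unfold pol
  rw [Fin.sum_univ_succ, Fin.sum_univ_succ]
  have h : ∀ (s : ℤ) (i : Fin d), Function.update a 0 s i.succ = a i.succ := fun s i =>
    Function.update_of_ne (Fin.succ_ne_zero i) _ _
  simp only [h, Function.update_self, Fin.val_zero, pow_zero, mul_one, map_zero, zero_add]
  ring

theorem card_imp {α : Type*} (s : Finset α) (P Q : α → Prop) {i₁ : DecidablePred P}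
    {i₂ : DecidablePred Q} (h : ∀ a ∈ s, P a → Q a) :
    ((@Finset.filter α P i₁ s).card : ℝ) ≤ ((@Finset.filter α Q i₂ s).card : ℝ) := by
  rw [Nat.cast_le]
  refine Finset.card_le_card fun t ht => ?_
  rw [Finset.mem_filter] at ht ⊢
  exact ⟨ht.1, h t ht.1 ht.2⟩

theorem card_false {α : Type*} (s : Finset α) (P : α → Prop) {i₁ : DecidablePred P}
    (h : ∀ a ∈ s, ¬ P a) : ((@Finset.filter α P i₁ s).card : ℝ) = 0 := by
  rw [Finset.filter_false_of_mem h, Finset.card_empty, Nat.cast_zero]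

/-- The classes of the constant coefficient of `G` with `p ∣ Res(F, G)`. -/
theorem classes_res (d : ℕ) (a b : Fin (d + 1) → ℤ) (p : ℕ) (hp : p.Prime) :
    Classes d p (fun t => ¬ (p : ℤ) ∣ a (Fin.last d) ∧
      (p : ℤ) ∣ RR d (a, Function.update b 0 t)) := by
  classical
  have : Fact p.Prime := ⟨hp⟩
  by_cases ha : (p : ℤ) ∣ a (Fin.last d)
  · exact ⟨∅, by simp, fun t ht => absurd ha ht.1⟩
  let φ : ℤ →+* ZMod p := Int.castRingHom (ZMod p)
  let F : (ZMod p)[X] := (pol d a).map φ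
  let G : (ZMod p)[X] := (pol d (Function.update b 0 0)).map φ
  have hc : F.coeff d ≠ 0 := by
    have h1 : F.coeff d = φ (a (Fin.last d)) := by
      rw [coeff_map]
      congr 1
      exact pol_coeff d a (Fin.last d)
    rw [h1]
    intro h
    exact ha ((ZMod.intCast_zmod_eq_zero_iff_dvd _ p).1 h)
  have hF0 : F ≠ 0 := by
    intro h
    rw [h, coeff_zero] at hc
    exact hc rfl
  have hFd : F.natDegree = d :=
    le_antisymm (natDegree_map_le.trans (pol_natDegree_le d a)) (le_natDegree_of_ne_zero hc)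
  have hG : G.natDegree ≤ d := natDegree_map_le.trans (pol_natDegree_le d _)
  let T : Finset (ZMod p) := Finset.univ.filter fun t => resultant F (G + C t) F.natDegree d = 0
  have hT : T.card ≤ d := by
    have h1 := card_res_right F G d hF0 hG T fun t ht => (Finset.mem_filter.1 ht).2
    rwa [hFd] at h1
  refine ⟨T.image fun z => (z.val : ℤ), Finset.card_image_le.trans hT, ?_⟩
  rintro t ⟨_, ht⟩
  have h1 : resultant F (G + C ((t : ℤ) : ZMod p)) F.natDegree d = 0 := by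
    rw [hFd]
    have h2 : G + C ((t : ℤ) : ZMod p) = (pol d (Function.update b 0 t)).map φ := by
      rw [pol_update_zero d b t, Polynomial.map_add, map_C]
      rfl
    rw [h2, resultant_map_map]
    exact (ZMod.intCast_zmod_eq_zero_iff_dvd _ p).2 ht
  refine ⟨(((t : ℤ) : ZMod p).val : ℤ), Finset.mem_image.2 ⟨_, Finset.mem_filter.2
    ⟨Finset.mem_univ _, h1⟩, rfl⟩, ?_⟩
  rw [← ZMod.intCast_zmod_eq_zero_iff_dvd]
  push_cast
  rw [ZMod.natCast_zmod_val, sub_self]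

end EkA

open Classical in
/-- The large primes dividing the resultant and `G_d`. -/
theorem ekA (d : ℕ) (hd : 2 ≤ d) : ∃ C : ℝ, 0 ≤ C ∧
    ∀ H y k : ℕ, 2 ≤ y → 1 ≤ k → H < (y + 1) ^ k → y ≤ H →
    (((Box d H).filter (fun q : (Fin (d + 1) → ℤ) × (Fin (d + 1) → ℤ) =>
      q.2 (Fin.last d) ≠ 0 ∧ RR d q ≠ 0 ∧ ∃ p : ℕ, p.Prime ∧ y < p ∧
        (p : ℤ) ∣ RR d q ∧ (p : ℤ) ∣ q.2 (Fin.last d))).card : ℝ) ≤
      C * (k / y) * (2 * H + 1) ^ (2 * d + 2) := by
  obtain ⟨C₁, hC₁, hL⟩ := card_large 1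
  refine ⟨3 * C₁ * (1 + d), by positivity, fun H y k hy hk hH hyH => ?_⟩
  have hH1 : 1 ≤ H := by omega
  have hy0 : (0 : ℝ) < y := by
    have : (2 : ℝ) ≤ y := by exact_mod_cast hy
    linarith
  -- the few large primes
  have hS : ∀ b ∈ Vec d H, b (Fin.last d) ≠ 0 →
      ((((b (Fin.last d)).natAbs.primeFactors.filter fun p => y < p)).card : ℝ) ≤ C₁ * k := by
    intro b hb hb0
    refine hL H y k hy hk hH hH1 (b (Fin.last d)) hb0 ?_ _ ?_
    · have h1 := mem_Vec.1 hb (Fin.last d)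
      have h2 : ((|b (Fin.last d)| : ℤ) : ℝ) ≤ ((H : ℤ) : ℝ) := by exact_mod_cast h1
      push_cast at h2 ⊢
      rw [pow_one, one_mul]
      exact h2
    · intro p hp
      rw [Finset.mem_filter, Nat.mem_primeFactors] at hp
      exact ⟨hp.1.1, hp.2, Int.natCast_dvd.2 hp.1.2.1⟩
  have hmem : ∀ (b : Fin (d + 1) → ℤ) (p : ℕ), b (Fin.last d) ≠ 0 → p.Prime → y < p →
      (p : ℤ) ∣ b (Fin.last d) →
      p ∈ (b (Fin.last d)).natAbs.primeFactors.filter fun p => y < p := by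
    intro b p hb hp hyp hd
    rw [Finset.mem_filter, Nat.mem_primeFactors]
    exact ⟨⟨hp, Int.natCast_dvd.1 hd, Int.natAbs_ne_zero.2 hb⟩, hyp⟩
  have hbd : ∀ (D₀ : ℕ) (b : Fin (d + 1) → ℤ) (P : ℕ → ℤ → Prop), b ∈ Vec d H →
      b (Fin.last d) ≠ 0 →
      (∀ p : ℕ, p.Prime → Classes D₀ p (P p)) →
      (((Finset.Icc (-(H : ℤ)) H).filter (fun t => ∃ p ∈
        ((b (Fin.last d)).natAbs.primeFactors.filter fun p => y < p), P p t)).card : ℝ) ≤
        3 * C₁ * D₀ * (k / y) * (2 * H + 1) := by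
    intro D₀ b P hb hb0 hP
    refine (card_classes D₀ H y (by omega) hyH _ P ?_).trans ?_
    · intro p hp
      rw [Finset.mem_filter, Nat.mem_primeFactors] at hp
      exact ⟨hp.2, hP p hp.1.1⟩
    · have h1 := hS b hb hb0
      have h2 : (3 * C₁ * D₀ * (k / y) * (2 * H + 1) : ℝ) =
          (3 * D₀ / y * (2 * H + 1)) * (C₁ * k) := by
        field_simp
      rw [h2]
      have h3 : (3 * D₀ *
          ((b (Fin.last d)).natAbs.primeFactors.filter fun p => y < p).card / y * (2 * H + 1) : ℝ) =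
          (3 * D₀ / y * (2 * H + 1)) *
            ((b (Fin.last d)).natAbs.primeFactors.filter fun p => y < p).card := by
        field_simp
      rw [h3]
      exact mul_le_mul_of_nonneg_left h1 (by positivity)
  have hsub : (Box d H).filter (fun q : (Fin (d + 1) → ℤ) × (Fin (d + 1) → ℤ) =>
      q.2 (Fin.last d) ≠ 0 ∧ RR d q ≠ 0 ∧ ∃ p : ℕ, p.Prime ∧ y < p ∧
        (p : ℤ) ∣ RR d q ∧ (p : ℤ) ∣ q.2 (Fin.last d)) ⊆
      (Box d H).filter (fun q : (Fin (d + 1) → ℤ) × (Fin (d + 1) → ℤ) =>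
        q.2 (Fin.last d) ≠ 0 ∧ ∃ p : ℕ, p.Prime ∧ y < p ∧ (p : ℤ) ∣ q.2 (Fin.last d) ∧
          (p : ℤ) ∣ q.1 (Fin.last d)) ∪
      (Box d H).filter (fun q : (Fin (d + 1) → ℤ) × (Fin (d + 1) → ℤ) =>
        q.2 (Fin.last d) ≠ 0 ∧ ∃ p : ℕ, p.Prime ∧ y < p ∧ (p : ℤ) ∣ q.2 (Fin.last d) ∧
          ¬ (p : ℤ) ∣ q.1 (Fin.last d) ∧ (p : ℤ) ∣ RR d q) := by
    intro q hq
    rw [Finset.mem_filter] at hq
    obtain ⟨hqB, hq0, _, p, hp, hyp, hR, hG⟩ := hq
    rw [Finset.mem_union, Finset.mem_filter, Finset.mem_filter]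
    by_cases hF : (p : ℤ) ∣ q.1 (Fin.last d)
    · exact Or.inl ⟨hqB, hq0, p, hp, hyp, hG, hF⟩
    · exact Or.inr ⟨hqB, hq0, p, hp, hyp, hG, hF, hR⟩
  have hA := EkA.fibF d H (Fin.last d) (fun q : (Fin (d + 1) → ℤ) × (Fin (d + 1) → ℤ) =>
        q.2 (Fin.last d) ≠ 0 ∧ ∃ p : ℕ, p.Prime ∧ y < p ∧ (p : ℤ) ∣ q.2 (Fin.last d) ∧
          (p : ℤ) ∣ q.1 (Fin.last d)) (3 * C₁ * 1 * (k / y) * (2 * H + 1)) (by
    intro q hq
    rw [Box, Finset.mem_product] at hq
    by_cases h0 : q.2 (Fin.last d) = 0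
    · rw [EkA.card_false _ _ (fun t _ h => h.1 h0)]
      positivity
    · have h1 := hbd 1 q.2 (fun p t => (p : ℤ) ∣ t) hq.2 h0 (fun p _ => ⟨{0}, by simp, fun t ht =>
        ⟨0, by simp, by rwa [sub_zero]⟩⟩)
      rw [Nat.cast_one] at h1
      refine le_trans (EkA.card_imp _ _ _ fun t _ ht => ?_) h1
      obtain ⟨_, p, hp, hyp, hG, hF⟩ := ht
      refine ⟨p, hmem q.2 p h0 hp hyp hG, ?_⟩
      simpa only [Function.update_self] using hF)
  have hB := EkA.fibG d H 0 (fun q : (Fin (d + 1) → ℤ) × (Fin (d + 1) → ℤ) =>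
        q.2 (Fin.last d) ≠ 0 ∧ ∃ p : ℕ, p.Prime ∧ y < p ∧ (p : ℤ) ∣ q.2 (Fin.last d) ∧
          ¬ (p : ℤ) ∣ q.1 (Fin.last d) ∧ (p : ℤ) ∣ RR d q)
          (3 * C₁ * d * (k / y) * (2 * H + 1)) (by
    intro q hq
    rw [Box, Finset.mem_product] at hq
    have hl : Fin.last d ≠ 0 := by
      intro h
      have h1 := congrArg Fin.val h
      rw [Fin.val_last, Fin.val_zero] at h1
      omega
    have hup : ∀ t : ℤ, Function.update q.2 0 t (Fin.last d) = q.2 (Fin.last d) := fun t =>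
      Function.update_of_ne hl _ _
    by_cases h0 : q.2 (Fin.last d) = 0
    · rw [EkA.card_false _ _ (fun t _ h => h.1 ((hup t).trans h0))]
      positivity
    · have h1 := hbd d q.2 (fun p t => ¬ (p : ℤ) ∣ q.1 (Fin.last d) ∧
        (p : ℤ) ∣ RR d (q.1, Function.update q.2 0 t)) hq.2 h0
        (fun p hp => EkA.classes_res d q.1 q.2 p hp)
      refine le_trans (EkA.card_imp _ _ _ fun t _ ht => ?_) h1
      obtain ⟨_, p, hp, hyp, hG, hF, hR⟩ := ht
      dsimp only at hG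
      rw [hup] at hG
      exact ⟨p, hmem q.2 p h0 hp hyp hG, hF, hR⟩)
  have h1 : (((Box d H).filter (fun q : (Fin (d + 1) → ℤ) × (Fin (d + 1) → ℤ) =>
      q.2 (Fin.last d) ≠ 0 ∧ RR d q ≠ 0 ∧ ∃ p : ℕ, p.Prime ∧ y < p ∧
        (p : ℤ) ∣ RR d q ∧ (p : ℤ) ∣ q.2 (Fin.last d))).card : ℝ) ≤
      3 * C₁ * 1 * (k / y) * (2 * H + 1) * (2 * H + 1) ^ (2 * d + 1) +
      3 * C₁ * d * (k / y) * (2 * H + 1) * (2 * H + 1) ^ (2 * d + 1) := by
    refine le_trans ?_ (add_le_add hA hB)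
    exact_mod_cast (Finset.card_le_card hsub).trans (Finset.card_union_le _ _)
  refine h1.trans (le_of_eq ?_)
  ring

end Pool.Agent.AVR
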