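import Mathlib
import Pool.Agent.AVR.Defs

set_option autoImplicit false

/-!
# Counting in the box along lines
-/

namespace Pool.Agent.AVR

open Finset

namespace SliceAux

variable {d H : ℕ}

/-- A finite set fibred over another one. -/
theorem card_fib {α β : Type*} [DecidableEq β] (A : Finset α) (B : Finset β) (f : α → β)
    (hf : ∀ x ∈ A, f x ∈ B) (M : ℝ) (h : ∀ b ∈ B, ((A.filter fun x => f x = b).card : ℝ) ≤ M) :
    (A.card : ℝ) ≤ B.card * M := by
  have h1 := Finset.card_eq_sum_card_fiberwise (f := f) (s := A) (t := B) hf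
  rw [h1]
  push_cast
  refine (Finset.sum_le_sum h).trans ?_
  rw [Finset.sum_const, nsmul_eq_mul]

/-- Vectors with coordinate `i` zero. -/
theorem card_Vec0 (i : Fin (d + 1)) :
    ((Vec d H).filter fun a => a i = 0).card = (2 * H + 1) ^ d := by
  have h : (Vec d H).filter (fun a => a i = 0) =
      Fintype.piFinset fun l => if l = i then ({0} : Finset ℤ) else Finset.Icc (-(H : ℤ)) H := by
    ext a
    rw [mem_filter, Fintype.mem_piFinset, Vec, Fintype.mem_piFinset]
    constructor
    · rintro ⟨h1, h2⟩ l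
      split_ifs with hl
      · rw [hl, h2]; exact mem_singleton_self 0
      · exact h1 l
    · intro h1
      have h2 := h1 i
      rw [if_pos rfl, mem_singleton] at h2
      refine ⟨fun l => ?_, h2⟩
      by_cases hl : l = i
      · rw [hl, h2, Finset.mem_Icc]; constructor <;> omega
      · have h3 := h1 l
        rwa [if_neg hl] at h3
  rw [h, Fintype.card_piFinset, ← Finset.mul_prod_erase _ _ (mem_univ i), if_pos rfl,
    card_singleton, one_mul, Finset.prod_congr rfl (g := fun _ => 2 * H + 1)]
  · rw [prod_const, card_erase_of_mem (mem_univ i), card_univ, Fintype.card_fin]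
    rfl
  · intro l hl
    rw [if_neg (ne_of_mem_erase hl), Int.card_Icc]
    omega

end SliceAux

open SliceAux

open Classical in
/-- Slices in one coefficient of `F`. -/
theorem card_slice1 (d H : ℕ) (i : Fin (d + 1))
    (P : (Fin (d + 1) → ℤ) × (Fin (d + 1) → ℤ) → Prop) (M : ℝ)
    (h : ∀ a ∈ Vec d H, ∀ b ∈ Vec d H,
      (((Finset.Icc (-(H : ℤ)) H).filter fun t => P (Function.update a i t, b)).card : ℝ) ≤ M) :
    (((Box d H).filter P).card : ℝ) ≤ M * (2 * H + 1) ^ (2 * d + 1) := by
  have hM : ∀ q ∈ ((Vec d H).filter fun a => a i = 0) ×ˢ Vec d H,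
      (((((Box d H).filter P)).filter fun x => (Function.update x.1 i 0, x.2) = q).card : ℝ) ≤
        M := by
    intro q hq
    rw [mem_product, mem_filter] at hq
    refine le_trans ?_ (h q.1 hq.1.1 q.2 hq.2)
    rw [Nat.cast_le]
    refine Finset.card_le_card_of_injOn (fun x => x.1 i) ?_ ?_
    · intro x hx
      rw [mem_coe, mem_filter, mem_filter, Box, mem_product] at hx
      obtain ⟨⟨⟨h1, -⟩, h2⟩, h3⟩ := hx
      rw [mem_coe, mem_filter]
      refine ⟨?_, ?_⟩
      · rw [Finset.mem_Icc, ← abs_le]; exact mem_Vec.1 h1 i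
      · have h4 : (Function.update q.1 i (x.1 i), q.2) = x := by
          rw [← h3]
          simp
        rw [h4]; exact h2
    · intro x hx x' hx' he
      rw [mem_coe, mem_filter] at hx hx'
      have h1 : Function.update x.1 i 0 = Function.update x'.1 i 0 :=
        (Prod.ext_iff.1 (hx.2.trans hx'.2.symm)).1
      have h2 : x.2 = x'.2 := (Prod.ext_iff.1 (hx.2.trans hx'.2.symm)).2
      refine Prod.ext (funext fun l => ?_) h2
      by_cases hl : l = i
      · rw [hl]; exact he
      · have h3 := congrFun h1 l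
        rwa [Function.update_of_ne hl, Function.update_of_ne hl] at h3
  have h1 := card_fib ((Box d H).filter P) (((Vec d H).filter fun a => a i = 0) ×ˢ Vec d H)
    (fun x => (Function.update x.1 i 0, x.2)) (by
      intro x hx
      rw [mem_filter, Box, mem_product] at hx
      rw [mem_product, mem_filter]
      refine ⟨⟨?_, by simp⟩, hx.1.2⟩
      rw [mem_Vec]
      intro l
      change |Function.update x.1 i 0 l| ≤ _
      by_cases hl : l = i
      · rw [hl, Function.update_self, abs_zero]; positivity
      · rw [Function.update_of_ne hl]; exact mem_Vec.1 hx.1.1 l) M hM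
  refine h1.trans (le_of_eq ?_)
  rw [card_product, card_Vec0, card_Vec]
  push_cast
  ring

open Classical in
/-- Slices in one coefficient of `G`. -/
theorem card_slice2 (d H : ℕ) (j : Fin (d + 1))
    (P : (Fin (d + 1) → ℤ) × (Fin (d + 1) → ℤ) → Prop) (M : ℝ)
    (h : ∀ a ∈ Vec d H, ∀ b ∈ Vec d H,
      (((Finset.Icc (-(H : ℤ)) H).filter fun t => P (a, Function.update b j t)).card : ℝ) ≤ M) :
    (((Box d H).filter P).card : ℝ) ≤ M * (2 * H + 1) ^ (2 * d + 1) := by
  have h1 := card_slice1 d H j (fun q => P (q.2, q.1)) M (fun a ha b hb => h b hb a ha)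
  refine le_trans (le_of_eq ?_) h1
  rw [Nat.cast_inj]
  refine Finset.card_bij (fun q _ => (q.2, q.1)) ?_ ?_ ?_
  · intro q hq
    rw [mem_filter, Box, mem_product] at hq ⊢
    exact ⟨⟨hq.1.2, hq.1.1⟩, hq.2⟩
  · intro q _ q' _ he
    exact Prod.ext (Prod.ext_iff.1 he).2 (Prod.ext_iff.1 he).1
  · intro q hq
    refine ⟨(q.2, q.1), ?_, rfl⟩
    rw [mem_filter, Box, mem_product] at hq ⊢
    exact ⟨⟨hq.1.2, hq.1.1⟩, hq.2⟩

open Classical in
/-- Lines in the direction of one coefficient of `F` and one of `G`. -/
theorem card_line (d H : ℕ) (i j : Fin (d + 1))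
    (P : (Fin (d + 1) → ℤ) × (Fin (d + 1) → ℤ) → Prop) (M : ℝ) (hM0 : 0 ≤ M)
    (h : ∀ a b : Fin (d + 1) → ℤ, (∀ l, |a l| ≤ 2 * H) → (∀ l, |b l| ≤ H) → b j = 0 →
      (((Finset.Icc (-(H : ℤ)) H).filter fun t =>
        P (Function.update a i (a i + t), Function.update b j t)).card : ℝ) ≤ M) :
    (((Box d H).filter P).card : ℝ) ≤ 2 * M * (2 * H + 1) ^ (2 * d + 1) := by
  -- the base of the fibration
  set A : Finset (Fin (d + 1) → ℤ) := Fintype.piFinset fun l =>
    if l = i then Finset.Icc (-(2 * H : ℤ)) (2 * H) else Finset.Icc (-(H : ℤ)) H with hA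
  have hAc : A.card = (4 * H + 1) * (2 * H + 1) ^ d := by
    rw [hA, Fintype.card_piFinset, ← Finset.mul_prod_erase _ _ (mem_univ i), if_pos rfl,
      Finset.prod_congr rfl (g := fun _ => 2 * H + 1)]
    · rw [prod_const, card_erase_of_mem (mem_univ i), card_univ, Fintype.card_fin, Int.card_Icc]
      congr 1
      omega
    · intro l hl
      rw [if_neg (ne_of_mem_erase hl), Int.card_Icc]
      omega
  have hAm : ∀ a ∈ A, ∀ l, |a l| ≤ 2 * H := by
    intro a ha l
    rw [hA, Fintype.mem_piFinset] at ha
    have h1 := ha l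
    split_ifs at h1 with hl
    · rw [Finset.mem_Icc] at h1
      exact abs_le.2 h1
    · rw [Finset.mem_Icc] at h1
      rw [abs_le]; constructor <;> linarith [h1.1, h1.2, (Int.natCast_nonneg H)]
  set f : (Fin (d + 1) → ℤ) × (Fin (d + 1) → ℤ) → (Fin (d + 1) → ℤ) × (Fin (d + 1) → ℤ) :=
    fun x => (Function.update x.1 i (x.1 i - x.2 j), Function.update x.2 j 0) with hf
  have hM : ∀ q ∈ A ×ˢ ((Vec d H).filter fun b => b j = 0),
      (((((Box d H).filter P)).filter fun x => f x = q).card : ℝ) ≤ M := by
    intro q hq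
    rw [mem_product, mem_filter] at hq
    refine le_trans ?_ (h q.1 q.2 (hAm _ hq.1) (mem_Vec.1 hq.2.1) hq.2.2)
    rw [Nat.cast_le]
    refine Finset.card_le_card_of_injOn (fun x => x.2 j) ?_ ?_
    · intro x hx
      rw [mem_coe, mem_filter, mem_filter, Box, mem_product] at hx
      obtain ⟨⟨⟨-, h1⟩, h2⟩, h3⟩ := hx
      rw [mem_coe, mem_filter]
      refine ⟨?_, ?_⟩
      · rw [Finset.mem_Icc, ← abs_le]; exact mem_Vec.1 h1 j
      · have h4 : (Function.update q.1 i (q.1 i + x.2 j), Function.update q.2 j (x.2 j)) = x := by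
          rw [← h3, hf]
          simp
        rw [h4]; exact h2
    · intro x hx x' hx' he
      rw [mem_coe, mem_filter] at hx hx'
      have h0 := hx.2.trans hx'.2.symm
      have h1 : Function.update x.1 i (x.1 i - x.2 j) = Function.update x'.1 i (x'.1 i - x'.2 j) :=
        (Prod.ext_iff.1 h0).1
      have h2 : Function.update x.2 j 0 = Function.update x'.2 j 0 := (Prod.ext_iff.1 h0).2
      have he' : x.2 j = x'.2 j := he
      refine Prod.ext (funext fun l => ?_) (funext fun l => ?_)
      · by_cases hl : l = i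
        · have h3 := congrFun h1 i
          rw [Function.update_self, Function.update_self, he'] at h3
          rw [hl]; linarith
        · have h3 := congrFun h1 l
          rwa [Function.update_of_ne hl, Function.update_of_ne hl] at h3
      · by_cases hl : l = j
        · rw [hl]; exact he'
        · have h3 := congrFun h2 l
          rwa [Function.update_of_ne hl, Function.update_of_ne hl] at h3
  have h1 := card_fib ((Box d H).filter P) (A ×ˢ ((Vec d H).filter fun b => b j = 0)) f (by
      intro x hx
      rw [mem_filter, Box, mem_product] at hx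
      obtain ⟨⟨h1, h2⟩, -⟩ := hx
      rw [mem_Vec] at h1 h2
      rw [mem_product, mem_filter]
      refine ⟨?_, ?_, by rw [hf]; simp⟩
      · rw [hA, Fintype.mem_piFinset]
        intro l
        split_ifs with hl
        · rw [hl, hf, Finset.mem_Icc]
          have h3 := abs_le.1 (h1 i)
          have h4 := abs_le.1 (h2 j)
          simp only [Function.update_self]
          constructor <;> linarith [h3.1, h3.2, h4.1, h4.2]
        · rw [hf, Finset.mem_Icc]
          simp only
          rw [Function.update_of_ne hl]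
          exact abs_le.1 (h1 l)
      · rw [mem_Vec, hf]
        intro l
        simp only
        by_cases hl : l = j
        · rw [hl, Function.update_self, abs_zero]; positivity
        · rw [Function.update_of_ne hl]; exact h2 l) M hM
  refine h1.trans ?_
  rw [card_product, hAc, card_Vec0]
  push_cast
  have h2 : (0 : ℝ) ≤ (2 * H + 1) ^ d * (2 * H + 1) ^ d * M := by positivity
  have h3 : (4 * (H : ℝ) + 1) ≤ 2 * (2 * H + 1) := by linarith
  calc (4 * (H : ℝ) + 1) * (2 * H + 1) ^ d * (2 * H + 1) ^ d * M =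
      (4 * (H : ℝ) + 1) * ((2 * H + 1) ^ d * (2 * H + 1) ^ d * M) := by ring
    _ ≤ 2 * (2 * H + 1) * ((2 * H + 1) ^ d * (2 * H + 1) ^ d * M) :=
      mul_le_mul_of_nonneg_right h3 h2
    _ = 2 * M * (2 * H + 1) ^ (2 * d + 1) := by ring

end Pool.Agent.AVR
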