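import Mathlib
import Pool.Agent.AVR.Defs
import Pool.Agent.AVR.Slice
import Pool.Agent.AVR.EkA

set_option autoImplicit false

/-!
# The large primes dividing the resultant and the discriminant of the fixed points
-/

namespace Pool.Agent.AVR

open Polynomial

namespace EkC

/-- A bound for resultants. -/
theorem res_le (P Q : ℤ[X]) (m n : ℕ) (x : ℤ) (hx : 0 ≤ x) (h1 : ∀ i, |P.coeff i| ≤ x)
    (h2 : ∀ i, |Q.coeff i| ≤ x) :
    |resultant P Q m n| ≤ ((m + n).factorial : ℤ) * x ^ (m + n) := by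
  have h := Matrix.det_le (A := sylvester P Q m n) (abv := (AbsoluteValue.abs : AbsoluteValue ℤ ℤ))
    (x := x) (fun i j => by
      rw [AbsoluteValue.abs_apply]
      unfold sylvester
      rw [Matrix.of_apply]
      induction j using Fin.addCases with
      | left j =>
        rw [Fin.addCases_left]
        split_ifs
        · exact h2 _
        · rw [abs_zero]; exact hx
      | right j =>
        rw [Fin.addCases_right]
        split_ifs
        · exact h1 _
        · rw [abs_zero]; exact hx)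
  rw [Fintype.card_fin, nsmul_eq_mul, AbsoluteValue.abs_apply] at h
  exact h

theorem pol_update_zero (d : ℕ) (b : Fin (d + 1) → ℤ) (h0 : b 0 = 0) (t : ℤ) :
    pol d (Function.update b 0 t) = pol d b + C t := by
  ext n
  rw [coeff_add, coeff_C]
  by_cases hn : n < d + 1
  · have h1 := pol_coeff d (Function.update b 0 t) ⟨n, hn⟩
    have h2 := pol_coeff d b ⟨n, hn⟩
    simp only at h1 h2
    rw [h1, h2]
    by_cases h : n = 0
    · subst h
      rw [if_pos rfl]
      have h3 : (⟨0, hn⟩ : Fin (d + 1)) = 0 := rfl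
      rw [h3, Function.update_self, h0, zero_add]
    · rw [if_neg h, add_zero, Function.update_of_ne]
      intro h3
      exact h (congrArg Fin.val h3)
  · rw [pol_coeff_eq_zero d _ n (by omega), pol_coeff_eq_zero d _ n (by omega), if_neg (by omega),
      add_zero]

theorem pol_update_one (d : ℕ) (hd : 2 ≤ d) (a : Fin (d + 1) → ℤ) (t : ℤ) :
    pol d (Function.update a ⟨1, by omega⟩ (a ⟨1, by omega⟩ + t)) = pol d a + C t * X := by
  ext n
  rw [coeff_add, coeff_C_mul, coeff_X]
  by_cases hn : n < d + 1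
  · have h1 := pol_coeff d (Function.update a ⟨1, by omega⟩ (a ⟨1, by omega⟩ + t)) ⟨n, hn⟩
    have h2 := pol_coeff d a ⟨n, hn⟩
    simp only at h1 h2
    rw [h1, h2]
    by_cases h : n = 1
    · subst h
      rw [if_pos rfl, Function.update_self, mul_one]
    · rw [if_neg (fun h' => h h'.symm), mul_zero, add_zero, Function.update_of_ne]
      intro h3
      exact h (congrArg Fin.val h3)
  · rw [pol_coeff_eq_zero d _ n (by omega), pol_coeff_eq_zero d _ n (by omega), if_neg (by omega),
      mul_zero, add_zero]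

theorem Fix_line (F G : ℤ[X]) (t : ℤ) : Fix (F + C t * X) (G + C t) = Fix F G := by
  unfold Fix
  ring

/-- Modulo a prime not dividing `G_d`, the zeros of the resultant lie in few classes. -/
theorem classes (d : ℕ) (F G : ℤ[X]) (hF : F.natDegree ≤ d) (hG : G.natDegree ≤ d)
    (hd : 2 ≤ d) (p : ℕ) (hp : p.Prime) (hGd : ¬ (p : ℤ) ∣ G.coeff d) :
    Classes (d + 1) p (fun t => (p : ℤ) ∣ resultant (F + C t * X) (G + C t) d d) := by
  classical
  have := Fact.mk hp
  let k := AlgebraicClosure (ZMod p)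
  have : CharP k p := inferInstanceAs (CharP (AlgebraicClosure (ZMod p)) p)
  set φ : ℤ →+* k := Int.castRingHom k with hφ
  have hφ0 : ∀ z : ℤ, φ z = 0 ↔ (p : ℤ) ∣ z := by
    intro z
    rw [hφ, eq_intCast]
    exact CharP.intCast_eq_zero_iff k p z
  have hGd' : φ (G.coeff d) ≠ 0 := fun h => hGd ((hφ0 _).1 h)
  set P : k[X] := (Fix F G).map φ with hP
  have hPc : P.coeff (d + 1) = - φ (G.coeff d) := by
    rw [hP, coeff_map, Fix, coeff_sub, coeff_X_mul, coeff_eq_zero_of_natDegree_lt (by omega),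
      zero_sub, map_neg]
  have hP0 : P ≠ 0 := by
    intro h
    rw [h, coeff_zero] at hPc
    exact hGd' (neg_eq_zero.1 hPc.symm)
  have hPdeg : P.natDegree ≤ d + 1 := by
    refine natDegree_map_le.trans ?_
    rw [Fix]
    refine (natDegree_sub_le _ _).trans (max_le (by omega) ?_)
    exact (natDegree_mul_le).trans (by rw [natDegree_X]; omega)
  set V : Finset k := P.roots.toFinset.image fun α => - (G.map φ).eval α with hV
  have hVc : V.card ≤ d + 1 :=
    Finset.card_image_le.trans ((Multiset.toFinset_card_le _).trans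
      ((card_roots' P).trans hPdeg))
  have hch : ∀ v : k, ∃ s : ℤ, (∃ t : ℤ, φ t = v) → φ s = v := by
    intro v
    by_cases h : ∃ t : ℤ, φ t = v
    · obtain ⟨t, ht⟩ := h
      exact ⟨t, fun _ => ht⟩
    · exact ⟨0, fun h' => absurd h' h⟩
  choose s hs using hch
  refine ⟨V.image s, Finset.card_image_le.trans hVc, ?_⟩
  intro t ht
  set G₁ : k[X] := (G + C t).map φ with hG₁
  set F₁ : k[X] := (F + C t * X).map φ with hF₁
  have hres : resultant F₁ G₁ d d = 0 := by
    rw [hF₁, hG₁, resultant_map_map]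
    exact (hφ0 _).2 ht
  have hG₁c : G₁.coeff d = φ (G.coeff d) := by
    rw [hG₁, coeff_map, coeff_add, coeff_C, if_neg (by omega), add_zero]
  have hG₁deg : G₁.natDegree = d := by
    refine le_antisymm ?_ (le_natDegree_of_ne_zero (by rw [hG₁c]; exact hGd'))
    refine natDegree_map_le.trans ((natDegree_add_le _ _).trans (max_le hG ?_))
    rw [natDegree_C]; omega
  have hG₁0 : G₁ ≠ 0 := by
    intro h
    rw [h, coeff_zero] at hG₁c
    exact hGd' hG₁c.symm
  have hF₁deg : F₁.natDegree ≤ d := by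
    refine natDegree_map_le.trans ((natDegree_add_le _ _).trans (max_le hF ?_))
    exact (natDegree_C_mul_X_pow_le t 1 |> fun h => by simpa using h : (C t * X : ℤ[X]).natDegree ≤ 1).trans
      (by omega)
  have h1 := resultant_eq_prod_eval G₁ F₁ d hF₁deg (IsAlgClosed.splits G₁)
  rw [hG₁deg, resultant_comm, hres, mul_zero] at h1
  have h2 : (G₁.roots.map F₁.eval).prod = 0 := by
    rcases mul_eq_zero.1 h1.symm with h | h
    · exact absurd (pow_eq_zero_iff (by omega) |>.1 h) (leadingCoeff_ne_zero.2 hG₁0)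
    · exact h
  rw [Multiset.prod_eq_zero_iff, Multiset.mem_map] at h2
  obtain ⟨β, hβ, hβF⟩ := h2
  have hβG : G₁.eval β = 0 := (mem_roots hG₁0).1 hβ
  have hβP : P.eval β = 0 := by
    have h3 : P = F₁ - X * G₁ := by
      rw [hP, ← Fix_line F G t, Fix, Polynomial.map_sub, Polynomial.map_mul, map_X]
    rw [h3, eval_sub, eval_mul, hβF, hβG, mul_zero, sub_zero]
  have hβV : φ t ∈ V := by
    rw [hV, Finset.mem_image]
    refine ⟨β, Multiset.mem_toFinset.2 ((mem_roots hP0).2 hβP), ?_⟩
    have h4 : G₁.eval β = (G.map φ).eval β + φ t := by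
      rw [hG₁, Polynomial.map_add, map_C, eval_add, eval_C]
    rw [h4] at hβG
    exact (eq_neg_of_add_eq_zero_right hβG).symm
  refine ⟨s (φ t), Finset.mem_image_of_mem s hβV, ?_⟩
  rw [← hφ0, map_sub, hs (φ t) ⟨t, rfl⟩, sub_self]

end EkC

open EkC

open Classical in
/-- The large primes dividing the resultant and the discriminant of the fixed points. -/
theorem ekC (d : ℕ) (hd : 2 ≤ d) : ∃ C : ℝ, 0 ≤ C ∧
    ∀ H y k : ℕ, 2 ≤ y → 1 ≤ k → H < (y + 1) ^ k → y ≤ H →
    (((Box d H).filter (fun q : (Fin (d + 1) → ℤ) × (Fin (d + 1) → ℤ) =>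
      DD d (pol d q.1) (pol d q.2) ≠ 0 ∧
      ∃ p : ℕ, p.Prime ∧ y < p ∧ (p : ℤ) ∣ RR d q ∧ ¬ (p : ℤ) ∣ q.2 (Fin.last d) ∧
        (p : ℤ) ∣ DD d (pol d q.1) (pol d q.2))).card : ℝ) ≤
      C * (k / y) * (2 * H + 1) ^ (2 * d + 2) := by
  set B : ℕ := ((d + 1 + d).factorial * (3 * (d + 1)) ^ (d + 1 + d)) + (d + 1 + d) with hB
  obtain ⟨C₁, hC₁, hlarge⟩ := card_large B
  refine ⟨6 * (d + 1) * C₁, by positivity, ?_⟩
  intro H y k hy hk hHy hyH
  have hH1 : 1 ≤ H := by omega
  have hy0 : (0 : ℝ) < y := by exact_mod_cast (by omega : 0 < y)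
  set M : ℝ := 3 * (d + 1) * (C₁ * k) / y * (2 * H + 1) with hM
  have hM0 : 0 ≤ M := by rw [hM]; positivity
  set i1 : Fin (d + 1) := ⟨1, by omega⟩ with hi1
  set Q : (Fin (d + 1) → ℤ) × (Fin (d + 1) → ℤ) → Prop := fun q =>
      DD d (pol d q.1) (pol d q.2) ≠ 0 ∧
      ∃ p : ℕ, p.Prime ∧ y < p ∧ (p : ℤ) ∣ RR d q ∧ ¬ (p : ℤ) ∣ q.2 (Fin.last d) ∧
        (p : ℤ) ∣ DD d (pol d q.1) (pol d q.2) with hQ
  have h := card_line d H i1 0 Q M hM0 ?_
  · refine (EkA.card_imp (Box d H) _ Q (fun q _ hq => hq)).trans (h.trans (le_of_eq ?_))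
    rw [hM]
    ring
  intro a b ha hb hb0
  have hlast : Fin.last d ≠ (0 : Fin (d + 1)) := by
    intro h0
    have := congrArg Fin.val h0
    simp at this
    omega
  have hline : ∀ t : ℤ, DD d (pol d (Function.update a i1 (a i1 + t)))
      (pol d (Function.update b 0 t)) = DD d (pol d a) (pol d b) := by
    intro t
    rw [hi1, pol_update_one d hd a t, pol_update_zero d b hb0 t]
    unfold DD
    rw [Fix_line]
  by_cases hD : DD d (pol d a) (pol d b) = 0
  · rw [EkA.card_false]
    · exact hM0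
    · intro t _ ht
      exact ht.1 ((hline t).trans hD)
  -- the primes
  set S : Finset ℕ := (DD d (pol d a) (pol d b)).natAbs.primeFactors.filter
    (fun p => y < p ∧ ¬ (p : ℤ) ∣ b (Fin.last d)) with hS
  have hbnd : (|((DD d (pol d a) (pol d b) : ℤ) : ℝ)|) ≤ B * (H : ℝ) ^ B := by
    have hcF : ∀ n, |(Fix (pol d a) (pol d b)).coeff n| ≤ 3 * (H : ℤ) := by
      intro n
      unfold Fix
      rw [coeff_sub]
      have e1 : |(pol d a).coeff n| ≤ 2 * (H : ℤ) := by
        by_cases hn : n < d + 1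
        · have h1 := pol_coeff d a ⟨n, hn⟩
          simp only at h1
          rw [h1]; exact ha _
        · rw [pol_coeff_eq_zero d _ n (by omega), abs_zero]; positivity
      have e2 : |(X * pol d b : ℤ[X]).coeff n| ≤ (H : ℤ) := by
        rcases n with _ | n
        · rw [coeff_X_mul_zero, abs_zero]; positivity
        · rw [coeff_X_mul]
          by_cases hn : n < d + 1
          · have h1 := pol_coeff d b ⟨n, hn⟩
            simp only at h1
            rw [h1]; exact hb _
          · rw [pol_coeff_eq_zero d _ n (by omega), abs_zero]; positivity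
      calc |(pol d a).coeff n - (X * pol d b : ℤ[X]).coeff n| ≤
          |(pol d a).coeff n| + |(X * pol d b : ℤ[X]).coeff n| := abs_sub _ _
        _ ≤ 2 * H + H := add_le_add e1 e2
        _ = 3 * H := by ring
    have hFdeg : (Fix (pol d a) (pol d b)).natDegree ≤ d + 1 := by
      rw [Fix]
      refine (natDegree_sub_le _ _).trans (max_le ((pol_natDegree_le d a).trans (by omega)) ?_)
      refine (natDegree_mul_le).trans ?_
      rw [natDegree_X]
      have := pol_natDegree_le d b
      omega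
    have hcF' : ∀ n, |(Fix (pol d a) (pol d b)).coeff n| ≤ 3 * (d + 1) * (H : ℤ) := by
      intro n
      refine (hcF n).trans ?_
      have : (0 : ℤ) ≤ d * H := by positivity
      nlinarith
    have hcD : ∀ n, |(derivative (Fix (pol d a) (pol d b))).coeff n| ≤ 3 * (d + 1) * (H : ℤ) := by
      intro n
      rw [coeff_derivative]
      by_cases hn : n ≤ d
      · rw [abs_mul]
        have e1 : |((n : ℤ) + 1)| ≤ (d : ℤ) + 1 := by
          rw [abs_of_nonneg (by positivity)]
          exact_mod_cast (by omega : n + 1 ≤ d + 1)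
        calc |(Fix (pol d a) (pol d b)).coeff (n + 1)| * |((n : ℤ) + 1)| ≤
            (3 * (H : ℤ)) * ((d : ℤ) + 1) :=
              mul_le_mul (hcF _) e1 (abs_nonneg _) (by positivity)
          _ = 3 * (d + 1) * (H : ℤ) := by ring
      · rw [coeff_eq_zero_of_natDegree_lt (by omega), zero_mul, abs_zero]
        positivity
    have h1 := res_le (Fix (pol d a) (pol d b)) (derivative (Fix (pol d a) (pol d b))) (d + 1) d
      (3 * (d + 1) * (H : ℤ)) (by positivity) hcF' hcD
    have h2 : |DD d (pol d a) (pol d b)| ≤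
        (((d + 1 + d).factorial * (3 * (d + 1)) ^ (d + 1 + d) : ℕ) : ℤ) * (H : ℤ) ^ (d + 1 + d) := by
      unfold DD
      refine h1.trans (le_of_eq ?_)
      rw [mul_pow, ← mul_assoc]
      push_cast
      rfl
    have h3 : (|((DD d (pol d a) (pol d b) : ℤ) : ℝ)|) ≤
        (((d + 1 + d).factorial * (3 * (d + 1)) ^ (d + 1 + d) : ℕ) : ℝ) *
          (H : ℝ) ^ (d + 1 + d) := by
      exact_mod_cast h2
    refine h3.trans ?_
    have hH1' : (1 : ℝ) ≤ H := by exact_mod_cast hH1
    refine mul_le_mul ?_ ?_ (by positivity) (by positivity)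
    · exact_mod_cast (by omega : (d + 1 + d).factorial * (3 * (d + 1)) ^ (d + 1 + d) ≤ B)
    · exact pow_le_pow_right₀ hH1' (by omega)
  have hScard : (S.card : ℝ) ≤ C₁ * k := by
    refine hlarge H y k hy hk hHy hH1 (DD d (pol d a) (pol d b)) hD hbnd S ?_
    intro p hp
    rw [hS, Finset.mem_filter, Nat.mem_primeFactors] at hp
    exact ⟨hp.1.1, hp.2.1, Int.natCast_dvd.2 hp.1.2.1⟩
  have hcl := card_classes (d + 1) H y (by omega) hyH S
    (fun p t => (p : ℤ) ∣ resultant (pol d a + C t * X) (pol d b + C t) d d) (by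
      intro p hp
      rw [hS, Finset.mem_filter, Nat.mem_primeFactors] at hp
      refine ⟨hp.2.1, ?_⟩
      refine classes d (pol d a) (pol d b) (pol_natDegree_le d a) (pol_natDegree_le d b) hd p
        hp.1.1 ?_
      have h1 := pol_coeff d b (Fin.last d)
      rw [Fin.val_last] at h1
      rw [h1]
      exact hp.2.2)
  refine (EkA.card_imp _ _ (fun t => ∃ p ∈ S,
        (p : ℤ) ∣ resultant (pol d a + C t * X) (pol d b + C t) d d) ?_).trans (hcl.trans ?_)
  · intro t _ ht
    obtain ⟨-, p, hp, hyp, hpR, hpG, hpD⟩ := ht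
    refine ⟨p, ?_, ?_⟩
    · rw [hS, Finset.mem_filter, Nat.mem_primeFactors]
      simp only at hpD hpG
      rw [hline t] at hpD
      rw [Function.update_of_ne hlast] at hpG
      exact ⟨⟨hp, Int.natCast_dvd.1 hpD, Int.natAbs_ne_zero.2 hD⟩, hyp, hpG⟩
    · unfold RR at hpR
      simp only at hpR
      rw [hi1, pol_update_one d hd a t, pol_update_zero d b hb0 t] at hpR
      exact hpR
  rw [hM]
  have h5 : (3 * ((d + 1 : ℕ) : ℝ) * S.card / y * (2 * H + 1)) ≤
      3 * ((d + 1 : ℕ) : ℝ) * (C₁ * k) / y * (2 * H + 1) := by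
    gcongr
  refine h5.trans (le_of_eq ?_)
  push_cast
  ring

end Pool.Agent.AVR
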