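import Mathlib
import Pool.Agent.AVR.Defs
import Pool.Agent.AVR.EkRoot

set_option autoImplicit false

/-!
# The degenerate pairs are rare
-/

namespace Pool.Agent.AVR

open Polynomial

namespace EkD

theorem card_Vec0 (d H : ℕ) (i : Fin (d + 1)) :
    ((Vec d H).filter (fun a => a i = 0)).card = (2 * H + 1) ^ d := by
  have h : (Vec d H).filter (fun a => a i = 0) = Fintype.piFinset
      (fun j => if j = i then ({0} : Finset ℤ) else Finset.Icc (-(H : ℤ)) H) := by
    ext a
    rw [Finset.mem_filter, Vec, Fintype.mem_piFinset, Fintype.mem_piFinset]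
    constructor
    · rintro ⟨h1, h2⟩ j
      split_ifs with hj
      · rw [hj, h2]
        exact Finset.mem_singleton_self _
      · exact h1 j
    · intro h1
      refine ⟨fun j => ?_, ?_⟩
      · have h2 := h1 j
        split_ifs at h2 with hj
        · rw [Finset.mem_singleton] at h2
          rw [h2, Finset.mem_Icc]
          constructor <;> omega
        · exact h2
      · have h2 := h1 i
        rw [if_pos rfl, Finset.mem_singleton] at h2
        exact h2
  have hc : ∀ j : Fin (d + 1), (if j = i then ({0} : Finset ℤ) else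
      Finset.Icc (-(H : ℤ)) H).card = if j = i then 1 else 2 * H + 1 := by
    intro j
    split_ifs
    · exact Finset.card_singleton _
    · rw [Int.card_Icc]
      omega
  rw [h, Fintype.card_piFinset, Finset.prod_congr rfl fun j _ => hc j, Finset.prod_ite,
    Finset.prod_const_one, one_mul, Finset.prod_const]
  congr 1
  rw [Finset.filter_ne', Finset.card_erase_of_mem (Finset.mem_univ _), Finset.card_univ,
    Fintype.card_fin, Nat.add_sub_cancel]

theorem pol_update (d : ℕ) (a : Fin (d + 1) → ℤ) :
    pol d a = pol d (Function.update a 0 0) + C (a 0) := by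
  unfold pol
  rw [Fin.sum_univ_succ, Fin.sum_univ_succ, Function.update_self]
  have h : ∀ j : Fin d, Function.update a 0 0 j.succ = a j.succ := fun j =>
    Function.update_of_ne (Fin.succ_ne_zero j) _ _
  simp only [h, Fin.val_zero, pow_zero, mul_one, C_0, zero_add]
  ring

/-- For given `G` and given remaining coefficients there are few `F_0` with resultant `0`. -/
theorem card_res (A B : ℤ[X]) (d : ℕ) (hA : A.natDegree ≤ d) (hB : B.natDegree ≤ d)
    (hBd : B.coeff d ≠ 0) (T : Finset ℤ) (hT : ∀ t ∈ T, resultant (A + C t) B d d = 0) :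
    T.card ≤ d := by
  classical
  have hinj : Function.Injective (Int.castRingHom ℚ) := Int.cast_injective
  have hdeg : (B.map (Int.castRingHom ℚ)).natDegree = d := by
    rw [natDegree_map_eq_of_injective hinj]
    exact le_antisymm hB (le_natDegree_of_ne_zero hBd)
  have hB0 : B.map (Int.castRingHom ℚ) ≠ 0 := by
    rw [Ne, Polynomial.map_eq_zero_iff hinj]
    rintro rfl
    exact hBd (coeff_zero _)
  have h := card_res_right (B.map (Int.castRingHom ℚ)) (A.map (Int.castRingHom ℚ)) d hB0
    (natDegree_map_le.trans hA) (T.image (Int.castRingHom ℚ)) (by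
      intro u hu
      obtain ⟨t, ht, rfl⟩ := Finset.mem_image.1 hu
      rw [hdeg, resultant_comm]
      have h1 : A.map (Int.castRingHom ℚ) + C ((Int.castRingHom ℚ) t) =
          (A + C t).map (Int.castRingHom ℚ) := by
        rw [Polynomial.map_add, map_C]
      rw [h1, resultant_map_map, hT t ht, map_zero, mul_zero])
  rw [Finset.card_image_of_injective _ hinj, hdeg] at h
  exact h

/-- For given `G` and given remaining coefficients there are few `F_0` for which the fixed point
polynomial has a double zero. -/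
theorem card_disc (A B : ℤ[X]) (d : ℕ) (hA : A.natDegree ≤ d) (hB : B.natDegree ≤ d)
    (hBd : B.coeff d ≠ 0) (T : Finset ℤ) (hT : ∀ t ∈ T, DD d (A + C t) B = 0) :
    T.card ≤ d := by
  classical
  have hinj : Function.Injective (Int.castRingHom ℚ) := Int.cast_injective
  have hFd : (Fix A B).natDegree ≤ d + 1 := by
    refine (natDegree_sub_le _ _).trans (max_le (hA.trans (Nat.le_succ d)) ?_)
    refine (natDegree_mul_le).trans ?_
    rw [natDegree_X]
    omega
  have hFc : (Fix A B).coeff (d + 1) = -B.coeff d := by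
    rw [Fix, coeff_sub, coeff_X_mul, coeff_eq_zero_of_natDegree_lt (by omega), zero_sub]
  have hD1 : (derivative (Fix A B)).natDegree ≤ d :=
    (natDegree_derivative_le _).trans (by omega)
  have hD2 : (derivative (Fix A B)).coeff d ≠ 0 := by
    rw [coeff_derivative, hFc]
    refine mul_ne_zero (neg_ne_zero.2 hBd) ?_
    positivity
  have hdeg : ((derivative (Fix A B)).map (Int.castRingHom ℚ)).natDegree = d := by
    rw [natDegree_map_eq_of_injective hinj]
    exact le_antisymm hD1 (le_natDegree_of_ne_zero hD2)
  have hD0 : (derivative (Fix A B)).map (Int.castRingHom ℚ) ≠ 0 := by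
    rw [Ne, Polynomial.map_eq_zero_iff hinj]
    intro h0
    rw [h0] at hD2
    exact hD2 (coeff_zero _)
  have h := card_res_right ((derivative (Fix A B)).map (Int.castRingHom ℚ))
    ((Fix A B).map (Int.castRingHom ℚ)) (d + 1) hD0
    (natDegree_map_le.trans hFd) (T.image (Int.castRingHom ℚ)) (by
      intro u hu
      obtain ⟨t, ht, rfl⟩ := Finset.mem_image.1 hu
      rw [hdeg, resultant_comm]
      have h1 : (Fix A B).map (Int.castRingHom ℚ) + C ((Int.castRingHom ℚ) t) =
          (Fix (A + C t) B).map (Int.castRingHom ℚ) := by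
        rw [← map_C, ← Polynomial.map_add]
        congr 1
        rw [Fix, Fix]
        ring
      have h2 : derivative (Fix A B) = derivative (Fix (A + C t) B) := by
        rw [Fix, Fix, derivative_sub, derivative_sub, derivative_add, derivative_C, add_zero]
      have h3 := hT t ht
      rw [DD] at h3
      rw [h1, h2, resultant_map_map, h3, map_zero, mul_zero])
  rw [Finset.card_image_of_injective _ hinj, hdeg] at h
  exact h

open Classical in
theorem card_main (d H : ℕ) :
    ((Box d H).filter (fun q : (Fin (d + 1) → ℤ) × (Fin (d + 1) → ℤ) =>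
      q.2 (Fin.last d) ≠ 0 ∧ (RR d q = 0 ∨ DD d (pol d q.1) (pol d q.2) = 0))).card ≤
      2 * d * (2 * H + 1) ^ (2 * d + 1) := by
  obtain ⟨s, hs⟩ : ∃ s, s = (Box d H).filter (fun q : (Fin (d + 1) → ℤ) × (Fin (d + 1) → ℤ) =>
      q.2 (Fin.last d) ≠ 0 ∧ (RR d q = 0 ∨ DD d (pol d q.1) (pol d q.2) = 0)) := ⟨_, rfl⟩
  rw [← hs]
  obtain ⟨f, hf1, hf2⟩ : ∃ f : (Fin (d + 1) → ℤ) × (Fin (d + 1) → ℤ) →
      (Fin (d + 1) → ℤ) × (Fin (d + 1) → ℤ), (∀ q, (f q).1 = Function.update q.1 0 0) ∧
      ∀ q, (f q).2 = q.2 := ⟨fun q => (Function.update q.1 0 0, q.2), fun _ => rfl, fun _ => rfl⟩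
  have h1 := Finset.card_le_mul_card_image_of_maps_to (f := f) (s := s)
    (t := ((Vec d H).filter (fun a => a 0 = 0)) ×ˢ (Vec d H)) (by
      intro q hq
      rw [hs] at hq
      have h2 := (Finset.mem_filter.1 hq).1
      rw [Box, Finset.mem_product] at h2
      rw [Finset.mem_product, hf1, hf2]
      refine ⟨?_, h2.2⟩
      rw [Finset.mem_filter]
      refine ⟨?_, Function.update_self _ _ _⟩
      have h3 := mem_Vec.1 h2.1
      rw [mem_Vec]
      intro i
      by_cases hi : i = 0
      · rw [hi, Function.update_self]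
        simp
      · rw [Function.update_of_ne hi]
        exact h3 i) (2 * d) (by
      intro b _
      have hinj : ∀ u : Finset ((Fin (d + 1) → ℤ) × (Fin (d + 1) → ℤ)),
          (∀ q ∈ u, f q = b) → (u.image fun q => q.1 0).card = u.card := by
        intro u hu
        refine Finset.card_image_of_injOn ?_
        intro q hq q' hq' hqq
        have e1 := hu q hq
        have e2 := hu q' hq'
        have e3 : q.2 = q'.2 := by
          rw [← hf2 q, ← hf2 q', e1, e2]
        have e4 : Function.update q.1 0 0 = Function.update q'.1 0 0 := by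
          rw [← hf1 q, ← hf1 q', e1, e2]
        refine Prod.ext ?_ e3
        funext i
        by_cases hi : i = 0
        · rw [hi]
          exact hqq
        · have := congrFun e4 i
          rwa [Function.update_of_ne hi, Function.update_of_ne hi] at this
      by_cases hb : b.2 (Fin.last d) = 0
      · have h3 : (s.filter fun q => f q = b) = ∅ := by
          rw [Finset.eq_empty_iff_forall_notMem]
          intro q hq
          rw [Finset.mem_filter, hs, Finset.mem_filter] at hq
          refine hq.1.2.1 ?_
          rw [← hf2 q, hq.2]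
          exact hb
        rw [h3, Finset.card_empty]
        exact Nat.zero_le _
      have hpol : ∀ q : (Fin (d + 1) → ℤ) × (Fin (d + 1) → ℤ), f q = b →
          pol d q.1 = pol d b.1 + C (q.1 0) ∧ pol d q.2 = pol d b.2 := by
        intro q hq
        have e1 : Function.update q.1 0 0 = b.1 := by rw [← hf1 q, hq]
        have e2 : q.2 = b.2 := by rw [← hf2 q, hq]
        refine ⟨?_, by rw [e2]⟩
        rw [← e1]
        exact pol_update d q.1
      have hBd : (pol d b.2).coeff d ≠ 0 := by
        have := pol_coeff d b.2 (Fin.last d)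
        rw [Fin.val_last] at this
        rw [this]
        exact hb
      have e1 : ((s.filter fun q => f q = b).filter (fun q => RR d q = 0)).card ≤ d := by
        rw [← hinj _ (fun q hq => (Finset.mem_filter.1 (Finset.mem_filter.1 hq).1).2)]
        refine card_res (pol d b.1) (pol d b.2) d (pol_natDegree_le _ _) (pol_natDegree_le _ _)
          hBd _ ?_
        intro t ht
        obtain ⟨q, hq, rfl⟩ := Finset.mem_image.1 ht
        rw [Finset.mem_filter, Finset.mem_filter] at hq
        obtain ⟨h4, h5⟩ := hpol q hq.1.2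
        rw [← h4, ← h5]
        exact hq.2
      have e2 : ((s.filter fun q => f q = b).filter
          (fun q => DD d (pol d q.1) (pol d q.2) = 0)).card ≤ d := by
        rw [← hinj _ (fun q hq => (Finset.mem_filter.1 (Finset.mem_filter.1 hq).1).2)]
        refine card_disc (pol d b.1) (pol d b.2) d (pol_natDegree_le _ _) (pol_natDegree_le _ _)
          hBd _ ?_
        intro t ht
        obtain ⟨q, hq, rfl⟩ := Finset.mem_image.1 ht
        rw [Finset.mem_filter, Finset.mem_filter] at hq
        obtain ⟨h4, h5⟩ := hpol q hq.1.2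
        rw [← h4, ← h5]
        exact hq.2
      have e3 : (s.filter fun q => f q = b) ⊆
          (s.filter fun q => f q = b).filter (fun q => RR d q = 0) ∪
          (s.filter fun q => f q = b).filter (fun q => DD d (pol d q.1) (pol d q.2) = 0) := by
        intro q hq
        have h3 := (Finset.mem_filter.1 hq).1
        rw [hs, Finset.mem_filter] at h3
        replace h3 := h3.2.2
        rcases h3 with h3 | h3
        · exact Finset.mem_union_left _ (Finset.mem_filter.2 ⟨hq, h3⟩)
        · exact Finset.mem_union_right _ (Finset.mem_filter.2 ⟨hq, h3⟩)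
      have e4 := (Finset.card_le_card e3).trans (Finset.card_union_le _ _)
      omega)
  refine h1.trans (le_of_eq ?_)
  rw [Finset.card_product, card_Vec0, card_Vec, ← pow_add]
  congr 2
  ring

end EkD

open Classical in
/-- The degenerate pairs: `G_d = 0`, or resultant `0`, or a double fixed point. -/
theorem ekD (d : ℕ) (_hd : 2 ≤ d) : ∃ C : ℝ, 0 ≤ C ∧ ∀ H : ℕ, 1 ≤ H →
    (((Box d H).filter (fun q : (Fin (d + 1) → ℤ) × (Fin (d + 1) → ℤ) =>
      q.2 (Fin.last d) = 0 ∨ RR d q = 0 ∨ DD d (pol d q.1) (pol d q.2) = 0)).card : ℝ) ≤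
      C * (2 * H + 1) ^ (2 * d + 1) := by
  refine ⟨2 * d + 1, by positivity, fun H _ => ?_⟩
  have h1 := EkD.card_main d H
  have h2 : ((Box d H).filter (fun q : (Fin (d + 1) → ℤ) × (Fin (d + 1) → ℤ) =>
      q.2 (Fin.last d) = 0)).card = (2 * H + 1) ^ (2 * d + 1) := by
    have h3 : (Box d H).filter (fun q : (Fin (d + 1) → ℤ) × (Fin (d + 1) → ℤ) =>
        q.2 (Fin.last d) = 0) = (Vec d H) ×ˢ ((Vec d H).filter fun a => a (Fin.last d) = 0) := by
      ext q
      rw [Box, Finset.mem_filter, Finset.mem_product, Finset.mem_product, Finset.mem_filter]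
      tauto
    rw [h3, Finset.card_product, EkD.card_Vec0, card_Vec, ← pow_add]
    congr 1
    ring
  have h3 : (Box d H).filter (fun q : (Fin (d + 1) → ℤ) × (Fin (d + 1) → ℤ) =>
      q.2 (Fin.last d) = 0 ∨ RR d q = 0 ∨ DD d (pol d q.1) (pol d q.2) = 0) ⊆
      (Box d H).filter (fun q : (Fin (d + 1) → ℤ) × (Fin (d + 1) → ℤ) =>
        q.2 (Fin.last d) = 0) ∪
      (Box d H).filter (fun q : (Fin (d + 1) → ℤ) × (Fin (d + 1) → ℤ) =>
        q.2 (Fin.last d) ≠ 0 ∧ (RR d q = 0 ∨ DD d (pol d q.1) (pol d q.2) = 0)) := by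
    intro q hq
    rw [Finset.mem_filter] at hq
    rw [Finset.mem_union, Finset.mem_filter, Finset.mem_filter]
    by_cases h4 : q.2 (Fin.last d) = 0
    · exact Or.inl ⟨hq.1, h4⟩
    · exact Or.inr ⟨hq.1, h4, hq.2.resolve_left h4⟩
  have h4 := (Finset.card_le_card h3).trans (Finset.card_union_le _ _)
  rw [h2] at h4
  have h5 : ((Box d H).filter (fun q : (Fin (d + 1) → ℤ) × (Fin (d + 1) → ℤ) =>
      q.2 (Fin.last d) = 0 ∨ RR d q = 0 ∨ DD d (pol d q.1) (pol d q.2) = 0)).card ≤
      (2 * d + 1) * (2 * H + 1) ^ (2 * d + 1) := by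
    have : (2 * d + 1) * (2 * H + 1) ^ (2 * d + 1) =
      (2 * H + 1) ^ (2 * d + 1) + 2 * d * (2 * H + 1) ^ (2 * d + 1) := by ring
    omega
  exact_mod_cast h5

end Pool.Agent.AVR
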