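import Mathlib
import Pool.Agent.AVR.Conv
import Pool.Agent.RI.AvgB
import Pool.Agent.RI.SGenE
import Pool.Agent.RI.SGenV
import Pool.Agent.RI.SUni
import Pool.Agent.RI.TCor
import Pool.Agent.PQ.DensC

set_option autoImplicit false

/-!
# The bounds of Theorem S over `ℚ`
-/

namespace Pool.Agent.AVR

open Polynomial NumberField IsDedekindDomain Pool.Agent.GPoly
open Pool.Agent.RI (resSet lamC lamV)
open Rat.HeightOneSpectrum

/-- `l` is a lower bound for the minimal resultant of `F / G` at the prime `p`. -/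
def LamP (d : ℕ) (F G : ℤ[X]) (p : ℕ) (l : ℝ) : Prop :=
  ∀ (E : Type) [NormedField E] [IsAlgClosed E] [IsUltrametricDist E] [CharZero E],
    ‖(p : E)‖ = (p : ℝ)⁻¹ →
    ∀ r ∈ resSet d (F.map (Int.castRingHom E)) (G.map (Int.castRingHom E)), l ≤ r

/-- `l` is a lower bound for the minimal resultant of `F / G` over `ℂ`. -/
def LamI (d : ℕ) (F G : ℤ[X]) (l : ℝ) : Prop :=
  ∀ r ∈ resSet d (F.map (Int.castRingHom ℂ)) (G.map (Int.castRingHom ℂ)), l ≤ r

theorem Glue.map_int (R S : Type*) [CommRing R] [CommRing S] (f : R →+* S) (F : ℤ[X]) :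
    (F.map (Int.castRingHom R)).map f = F.map (Int.castRingHom S) := by
  rw [Polynomial.map_map]
  congr 1
  exact RingHom.ext_int _ _

theorem Glue.lift_C_mul {L : Type} [Field L] (d : ℕ) (F G : L[X]) (s : L) (x : L × L) :
    RDF.lift d (C s * F) (C s * G) x = s • RDF.lift d F G x := by
  unfold RDF.lift
  rw [RDF.form_C_mul, RDF.form_C_mul]
  rfl

/-- The prime of `ℚ` above `p`. -/
theorem Glue.exists_v (p : ℕ) (hp : p.Prime) : ∃ v : HeightOneSpectrum (𝓞 ℚ),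
    av v (p : ℚ) = (p : ℝ)⁻¹ := by
  classical
  set v : HeightOneSpectrum (𝓞 ℚ) := primesEquiv.symm ⟨p, hp⟩ with hv
  have hgen : ∀ w : HeightOneSpectrum (𝓞 ℚ), ((p : ℕ) : 𝓞 ℚ) ∈ w.asIdeal → w = v := by
    intro w hw
    have h1 : natGenerator w ∣ p := by
      rw [natGenerator_dvd_iff]
      have h2 := Ideal.mem_map_of_mem (Rat.IsIntegralClosure.intEquiv (𝓞 ℚ)) hw
      rw [map_natCast] at h2
      exact h2
    have h2 : natGenerator w = p :=
      (Nat.prime_dvd_prime_iff_eq (prime_natGenerator w) hp).1 h1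
    exact (Equiv.eq_symm_apply primesEquiv).2 (Subtype.ext h2)
  have hp0 : ((p : ℕ) : 𝓞 ℚ) ≠ 0 := by exact_mod_cast hp.ne_zero
  have h := sum_log_av_int ((p : ℕ) : 𝓞 ℚ) hp0 {v} fun w hw =>
    Finset.mem_singleton.2 (hgen w hw)
  rw [Finset.sum_singleton, RI.SUni.absNorm_natCast, Module.finrank_self, pow_one,
    map_natCast] at h
  refine ⟨v, ?_⟩
  have hpos : 0 < av v (p : ℚ) := (av v).pos (by exact_mod_cast hp.ne_zero)
  have hp1 : (0 : ℝ) < p := by exact_mod_cast hp.pos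
  rw [← Real.exp_log hpos, ← Real.exp_log (inv_pos.2 hp1), Real.log_inv]
  congr 1
  linarith

/-- The set of values is not empty over an algebraically closed field. -/
theorem Glue.nonempty {E : Type} [NormedField E] [IsAlgClosed E] (d : ℕ) (hd : 2 ≤ d)
    (F G : E[X]) (hF : F.natDegree ≤ d) (hG : G.natDegree ≤ d) (hE : ∀ B : ℝ, ∃ x : E, B ≤ ‖x‖) :
    (resSet d F G).Nonempty := by
  set M : ℝ := 1 + ∑ i ∈ Finset.range (d + 1), (‖F.coeff i‖ + ‖G.coeff i‖) with hM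
  have hnn : ∀ i ∈ Finset.range (d + 1), 0 ≤ ‖F.coeff i‖ + ‖G.coeff i‖ := fun i _ => by
    positivity
  have hM1 : 1 ≤ M := by
    have := Finset.sum_nonneg hnn
    linarith
  have hMi : ∀ i, ‖F.coeff i‖ ≤ M ∧ ‖G.coeff i‖ ≤ M := by
    intro i
    by_cases hi : i < d + 1
    · have h1 := Finset.single_le_sum hnn (Finset.mem_range.2 hi)
      have h2 := norm_nonneg (F.coeff i)
      have h3 := norm_nonneg (G.coeff i)
      exact ⟨by linarith, by linarith⟩
    · rw [coeff_eq_zero_of_natDegree_lt (by omega), coeff_eq_zero_of_natDegree_lt (by omega),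
        norm_zero]
      exact ⟨by linarith, by linarith⟩
  obtain ⟨x, hx⟩ := hE M
  have hx0 : x ≠ 0 := by
    rintro rfl
    rw [norm_zero] at hx
    linarith
  have hxn : 0 < ‖x‖ := norm_pos_iff.2 hx0
  obtain ⟨α, hα⟩ := IsAlgClosed.exists_pow_nat_eq x (n := d - 1) (by omega)
  have hα0 : α ≠ 0 := by
    rintro rfl
    rw [zero_pow (by omega)] at hα
    exact hx0 hα.symm
  have hαd : α ^ d = x * α := by
    have h1 : d = (d - 1) + 1 := by omega
    rw [h1, pow_succ, hα]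
  have hco : ∀ (P : E[X]), (∀ i, ‖P.coeff i‖ ≤ M) → ∀ i, ‖(C x⁻¹ * P).coeff i‖ ≤ 1 := by
    intro P hP i
    rw [coeff_C_mul, norm_mul, norm_inv, inv_mul_le_iff₀ hxn, mul_one]
    exact (hP i).trans hx
  refine ⟨_, C x⁻¹ * F, C x⁻¹ * G, α • 1, ?_, (natDegree_C_mul_le _ _).trans hF,
    (natDegree_C_mul_le _ _).trans hG, hco F fun i => (hMi i).1, hco G fun i => (hMi i).2, ?_, rfl⟩
  · rw [Matrix.det_smul, Matrix.det_one, mul_one]
    exact pow_ne_zero _ hα0
  · intro p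
    rw [RI.SUni.act_smul_mat, RI.SUni.act_smul_mat, RI.act_one, RI.act_one, RDF.lift_smul,
      Glue.lift_C_mul, smul_smul, hαd]
    congr 1
    field_simp

/-- The resultant over the integers of `ℚ`. -/
theorem Glue.res_map (d : ℕ) (F G : ℤ[X]) (R : Type*) [CommRing R] :
    resultant (F.map (Int.castRingHom R)) (G.map (Int.castRingHom R)) d d =
      ((resultant F G d d : ℤ) : R) := by
  rw [resultant_map_map]
  rfl

theorem Glue.log_absNorm (R : ℤ) :
    Real.log (Ideal.absNorm (Ideal.span {((R : ℤ) : 𝓞 ℚ)})) = Real.log |((R : ℤ) : ℝ)| := by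
  rw [PQ.absNorm_intCast, Nat.cast_natAbs]
  norm_cast

/-- The sum of the minimal resultants at the primes. -/
theorem Glue.sum_le (d : ℕ) (F G : ℤ[X]) (hF : F.natDegree ≤ d) (hG : G.natDegree ≤ d)
    (hR : resultant F G d d ≠ 0) (S : Finset (HeightOneSpectrum (𝓞 ℚ))) :
    ∑ᶠ (v : HeightOneSpectrum (𝓞 ℚ)) (_ : v ∉ S ∧ ¬ v.asIdeal ∣ (⊤ : Ideal (𝓞 ℚ))),
      lamV d (F.map (Int.castRingHom (𝓞 ℚ))) (G.map (Int.castRingHom (𝓞 ℚ))) v ≤
        Real.log |((resultant F G d d : ℤ) : ℝ)| := by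
  classical
  have hF' : (F.map (Int.castRingHom (𝓞 ℚ))).natDegree ≤ d := natDegree_map_le.trans hF
  have hG' : (G.map (Int.castRingHom (𝓞 ℚ))).natDegree ≤ d := natDegree_map_le.trans hG
  have hR0 : ((resultant F G d d : ℤ) : 𝓞 ℚ) ≠ 0 := by exact_mod_cast hR
  have hR' : resultant (F.map (Int.castRingHom (𝓞 ℚ))) (G.map (Int.castRingHom (𝓞 ℚ))) d d ≠ 0 := by
    rw [Glue.res_map]
    exact hR0
  have hfin := RI.SAll.lamV_support d _ _ hF' hG' hR'
  have hfin2 : {v : HeightOneSpectrum (𝓞 ℚ) | ((resultant F G d d : ℤ) : 𝓞 ℚ) ∈ v.asIdeal}.Finite := by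
    have h1 := av_support_finite (algebraMap (𝓞 ℚ) ℚ ((resultant F G d d : ℤ) : 𝓞 ℚ))
      ((map_ne_zero_iff _ (RingOfIntegers.coe_injective)).mpr hR0)
    refine h1.subset fun v hv => ?_
    exact ((av_int_lt_one v _).2 hv).ne
  set P : Finset (HeightOneSpectrum (𝓞 ℚ)) := hfin.toFinset ∪ hfin2.toFinset with hP
  have hsum := sum_log_av_int ((resultant F G d d : ℤ) : 𝓞 ℚ) hR0 P fun v hv =>
    Finset.mem_union_right _ ((Set.Finite.mem_toFinset hfin2).2 hv)
  rw [RI.SAll.finsum_filter _ P fun v hv =>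
    Finset.mem_union_left _ ((Set.Finite.mem_toFinset hfin).2 hv), ← Glue.log_absNorm, ← hsum]
  refine (Finset.sum_le_sum_of_subset_of_nonneg (Finset.filter_subset _ _)
    fun v _ _ => RI.lamV_nonneg d _ _ v).trans ?_
  refine Finset.sum_le_sum fun v _ => ?_
  have h1 := RI.lamV_le d _ _ hF' hG' v
  rwa [Glue.res_map] at h1

theorem Glue.le_lamV (d : ℕ) (F G : ℤ[X]) (hF : F.natDegree ≤ d) (hG : G.natDegree ≤ d)
    (p : ℕ) (l : ℝ) (hl : LamP d F G p l) (v : HeightOneSpectrum (𝓞 ℚ))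
    (hv : av v (p : ℚ) = (p : ℝ)⁻¹) :
    l ≤ lamV d (F.map (Int.castRingHom (𝓞 ℚ))) (G.map (Int.castRingHom (𝓞 ℚ))) v := by
  refine RI.le_lamV d _ _ (natDegree_map_le.trans hF) (natDegree_map_le.trans hG) v l ?_
  intro E _ _ _ _ hE r hr
  have hchar : CharZero E := algebraRat.charZero E
  refine hl E ?_ r ?_
  · rw [← hv, ← hE, map_natCast]
  · rw [Glue.map_int, Glue.map_int] at hr
    exact hr

theorem Glue.le_lamC (d : ℕ) (hd : 2 ≤ d) (F G : ℤ[X]) (hF : F.natDegree ≤ d)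
    (hG : G.natDegree ≤ d) (l : ℝ) (hl : LamI d F G l) (σ : ℚ →+* ℂ) :
    l ≤ lamC d ((F.map (Int.castRingHom (𝓞 ℚ))).map (σ.comp (algebraMap (𝓞 ℚ) ℚ)))
      ((G.map (Int.castRingHom (𝓞 ℚ))).map (σ.comp (algebraMap (𝓞 ℚ) ℚ))) := by
  rw [Glue.map_int, Glue.map_int]
  refine le_trans ?_ (le_max_right _ _)
  refine le_csInf ?_ hl
  refine Glue.nonempty d hd _ _ (natDegree_map_le.trans hF) (natDegree_map_le.trans hG) ?_
  intro B
  refine ⟨((|B| : ℝ) : ℂ), ?_⟩
  rw [Complex.norm_real, Real.norm_eq_abs, abs_abs]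
  exact le_abs_self B

theorem glue (N d : ℕ) (hd : 2 ≤ d) : ∃ C : ℝ, 0 ≤ C ∧ ∀ F G : ℤ[X], F.natDegree ≤ d →
    G.natDegree ≤ d → resultant F G d d ≠ 0 → ∀ k : ℕ, 1 ≤ k →
    ((∃ p : ℕ, p.Prime ∧ ∃ l : ℝ, LamP d F G p l ∧
        Real.log |((resultant F G d d : ℤ) : ℝ)| ≤ k * (1 + l)) ∨
      (∃ l : ℝ, LamI d F G l ∧ Real.log |((resultant F G d d : ℤ) : ℝ)| ≤ k * (1 + l)) ∨
      Real.log |((resultant F G d d : ℤ) : ℝ)| ≤ k) →
    (Pts N d F G).Finite ∧ ((Pts N d F G).ncard : ℝ) ≤ C * (k * Real.log (k + 1)) := by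
  classical
  obtain ⟨C₀, hC₀, hmain⟩ := RI.main_T_all N d 0 hd
  refine ⟨C₀ * 4, by positivity, ?_⟩
  intro F G hF hG hR k hk hyp
  have hk1 : (1 : ℝ) ≤ k := by exact_mod_cast hk
  set F' := F.map (Int.castRingHom (𝓞 ℚ)) with hF'
  set G' := G.map (Int.castRingHom (𝓞 ℚ)) with hG'
  have hR' : resultant F' G' d d ≠ 0 := by
    rw [hF', hG', Glue.res_map]
    exact_mod_cast hR
  have hV : ∀ v : HeightOneSpectrum (𝓞 ℚ), 0 ≤ lamV d F' G' v := fun v => RI.lamV_nonneg d _ _ v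
  have hCn : ∀ σ : ℚ →+* ℂ, 0 ≤ lamC d (F'.map (σ.comp (algebraMap (𝓞 ℚ) ℚ)))
      (G'.map (σ.comp (algebraMap (𝓞 ℚ) ℚ))) := fun σ => le_max_left _ _
  have hCs : 0 ≤ ∑ σ : ℚ →+* ℂ, lamC d (F'.map (σ.comp (algebraMap (𝓞 ℚ) ℚ)))
      (G'.map (σ.comp (algebraMap (𝓞 ℚ) ℚ))) := Finset.sum_nonneg fun σ _ => hCn σ
  have hone : Real.log (Ideal.absNorm (⊤ : Ideal (𝓞 ℚ))) = 0 := by
    rw [Ideal.absNorm_top, Nat.cast_one, Real.log_one]
  obtain ⟨S, hS, hsum⟩ : ∃ S : Finset (HeightOneSpectrum (𝓞 ℚ)), S.card ≤ 1 ∧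
      Real.log |((resultant F G d d : ℤ) : ℝ)| ≤ k * (1 + ∑ v ∈ S, lamV d F' G' v +
        ∑ σ : ℚ →+* ℂ, lamC d (F'.map (σ.comp (algebraMap (𝓞 ℚ) ℚ)))
          (G'.map (σ.comp (algebraMap (𝓞 ℚ) ℚ))) +
        Real.log (Ideal.absNorm (⊤ : Ideal (𝓞 ℚ)))) := by
    rcases hyp with ⟨p, hp, l, hl, h⟩ | ⟨l, hl, h⟩ | h
    · obtain ⟨v, hv⟩ := Glue.exists_v p hp
      refine ⟨{v}, by simp, h.trans (mul_le_mul_of_nonneg_left ?_ (by linarith))⟩
      rw [Finset.sum_singleton, hone]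
      have h1 := Glue.le_lamV d F G hF hG p l hl v hv
      linarith
    · refine ⟨∅, by simp, h.trans (mul_le_mul_of_nonneg_left ?_ (by linarith))⟩
      rw [Finset.sum_empty, hone]
      have σ₀ : ℚ →+* ℂ := algebraMap ℚ ℂ
      have h1 := Glue.le_lamC d hd F G hF hG l hl σ₀
      have h2 := Finset.single_le_sum (f := fun σ : ℚ →+* ℂ =>
        lamC d (F'.map (σ.comp (algebraMap (𝓞 ℚ) ℚ))) (G'.map (σ.comp (algebraMap (𝓞 ℚ) ℚ))))
        (fun σ _ => hCn σ) (Finset.mem_univ σ₀)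
      linarith
    · refine ⟨∅, by simp, h.trans ?_⟩
      rw [Finset.sum_empty, hone]
      nlinarith
  refine conv N d F G _ fun L _ _ X hX hXw => ?_
  have h1 := hmain ℚ F' G' (natDegree_map_le.trans hF) (natDegree_map_le.trans hG) hR' k hk ⊤
    (by rw [← Ideal.one_eq_top]; exact one_dvd _)
    (fun v hv => absurd (Ideal.dvd_iff_le.1 hv) (by
      rw [top_le_iff]
      exact v.isPrime.ne_top)) S ((Glue.sum_le d F G hF hG hR S).trans hsum) L X
    (fun p hp => by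
      obtain ⟨h2, h3, a, b, hab, h4⟩ := hX p hp
      refine ⟨h2, h3, a, b, hab, ?_⟩
      rw [Glue.map_int, Glue.map_int]
      exact h4) hXw
  refine h1.trans ?_
  rw [Module.finrank_self, Nat.cast_one]
  have hS' : (S.card : ℝ) ≤ 1 := by exact_mod_cast hS
  have hS0 : (0 : ℝ) ≤ S.card := Nat.cast_nonneg _
  have h2 : (k : ℝ) * (S.card + 1) ≤ 2 * k := by nlinarith
  have h3 : (k : ℝ) * (S.card + 1) * Real.log (k * (S.card + 1) + 1) ≤
      2 * k * Real.log (2 * k + 1) :=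
    mul_le_mul h2 (Real.log_le_log (by positivity) (by linarith))
      (Real.log_nonneg (by nlinarith)) (by linarith)
  have h4 := RI.SAll.log_bound k hk1
  calc C₀ * (k * (S.card + 1) * Real.log (k * (S.card + 1) + 1)) ≤
      C₀ * (4 * (k * Real.log (k + 1))) := mul_le_mul_of_nonneg_left (h3.trans h4) hC₀
    _ = C₀ * 4 * (k * Real.log (k + 1)) := by ring

theorem glue_all (N d : ℕ) (hd : 2 ≤ d) : ∃ C : ℝ, 0 ≤ C ∧ ∀ F G : ℤ[X], F.natDegree ≤ d →
    G.natDegree ≤ d → resultant F G d d ≠ 0 →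
    (Pts N d F G).Finite ∧
      ((Pts N d F G).ncard : ℝ) ≤ C * (1 + Real.log |((resultant F G d d : ℤ) : ℝ)|) := by
  classical
  obtain ⟨C₀, hC₀, hmain⟩ := RI.main_slogsT N d 0 hd
  refine ⟨C₀ * 9, by positivity, ?_⟩
  intro F G hF hG hR
  set F' := F.map (Int.castRingHom (𝓞 ℚ)) with hF'
  set G' := G.map (Int.castRingHom (𝓞 ℚ)) with hG'
  have hdF : F'.natDegree ≤ d := natDegree_map_le.trans hF
  have hdG : G'.natDegree ≤ d := natDegree_map_le.trans hG
  have hres : resultant F' G' d d = ((resultant F G d d : ℤ) : 𝓞 ℚ) := Glue.res_map d F G _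
  have hR' : resultant F' G' d d ≠ 0 := by
    rw [hres]
    exact_mod_cast hR
  obtain ⟨B, hB1, hB2⟩ := RI.Avg.exists_primes _ hR
  refine conv N d F G _ fun L _ _ X hX hXw => ?_
  have h1 := hmain ℚ F' G' hdF hdG hR' B ?_ L X
    (fun p hp => by
      obtain ⟨h2, h3, a, b, hab, h4⟩ := hX p hp
      refine ⟨h2, h3, a, b, hab, ?_⟩
      rw [Glue.map_int, Glue.map_int]
      exact h4) hXw
  · refine h1.trans ?_
    rw [Module.finrank_self, Nat.cast_one]
    set n := (resultant F G d d).natAbs with hn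
    have hn0 : n ≠ 0 := Int.natAbs_ne_zero.2 hR
    have h2 := RI.Avg.omega_bound n hn0
    have h3 : Real.log n = Real.log |((resultant F G d d : ℤ) : ℝ)| := by
      rw [hn, Nat.cast_natAbs]
      norm_cast
    rw [h3] at h2
    have h5 : (B.card : ℝ) ≤ n.primeFactors.card := by exact_mod_cast hB1
    have h6 : (0 : ℝ) ≤ B.card := Nat.cast_nonneg _
    have h4 : ((B.card : ℝ) + 1) * Real.log (B.card + 1 + 1) ≤
        ((n.primeFactors.card : ℝ) + 1) * Real.log (n.primeFactors.card + 2) := by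
      refine mul_le_mul (by linarith) (Real.log_le_log (by linarith) (by linarith))
        (Real.log_nonneg (by linarith)) (by linarith)
    calc C₀ * (((B.card : ℝ) + 1) * Real.log (B.card + 1 + 1)) ≤
        C₀ * (9 * (1 + Real.log |((resultant F G d d : ℤ) : ℝ)|)) :=
          mul_le_mul_of_nonneg_left (h4.trans h2) hC₀
      _ = _ := by ring
  · intro v hv
    left
    have hnot : resultant F' G' d d ∉ v.asIdeal := fun h => hv (hB2 v (by rw [← hres]; exact h))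
    refine ⟨ℚ, inferInstance, inferInstance, Algebra.id ℚ, 1, 1, F', G', ?_, one_ne_zero, hdF,
      hdG, ?_, ?_⟩
    · rw [Matrix.det_one]
      exact one_ne_zero
    · intro p
      rw [RI.act_one, RI.act_one, one_smul]
    · intro w hw h
      have hvw : v = w := by
        refine HeightOneSpectrum.ext ?_
        refine (v.isMaximal).eq_of_le w.isPrime.ne_top fun a ha => ?_
        exact hw a ha
      rw [← hvw] at h
      exact hnot h

end Pool.Agent.AVR
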