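import Mathlib
import Pool.Agent.AVR.Defs
import Pool.Agent.RI.SGenE

set_option autoImplicit false

/-!
# The multipliers of the fixed points and the minimal resultant
-/

namespace Pool.Agent.AVR

open Polynomial
open Pool.Agent.RDF (lift wedge form)

namespace Lam

/-- A polynomial over an algebraically closed field has its roots. -/
theorem exists_roots {E : Type} [Field E] [IsAlgClosed E] (P : E[X]) (n : ℕ)
    (hn : P.natDegree = n) : ∃ a : Fin n → E, P.roots = (Finset.univ : Finset (Fin n)).val.map a := by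
  have hs : P.Splits := IsAlgClosed.splits P
  have hc : P.roots.card = n := by rw [← hs.natDegree_eq_card_roots, hn]
  have hl : P.roots.toList.length = n := by rw [Multiset.length_toList, hc]
  refine ⟨fun i => P.roots.toList.get (Fin.cast hl.symm i), ?_⟩
  rw [Fin.univ_val_map]
  conv_lhs => rw [← Multiset.coe_toList P.roots]
  refine congrArg _ ?_
  refine List.ext_get (by simp [hl]) fun i h1 h2 => ?_
  simp

theorem natDegree_fix {R : Type} [CommRing R] (d : ℕ) (F G : R[X]) (hF : F.natDegree ≤ d)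
    (hG : G.natDegree ≤ d) : (Fix F G).natDegree ≤ d + 1 := by
  unfold Fix
  refine (natDegree_sub_le _ _).trans (max_le (by omega) ?_)
  refine natDegree_mul_le.trans ?_
  have : (X : R[X]).natDegree ≤ 1 := natDegree_X_le
  omega

theorem coeff_fix {R : Type} [CommRing R] (d : ℕ) (F G : R[X]) (hF : F.natDegree ≤ d) :
    (Fix F G).coeff (d + 1) = -G.coeff d := by
  unfold Fix
  rw [coeff_sub, coeff_X_mul, coeff_eq_zero_of_natDegree_lt (by omega), zero_sub]

theorem res_fix {R : Type} [CommRing R] (d : ℕ) (F G : R[X]) (hF : F.natDegree ≤ d)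
    (hG : G.natDegree ≤ d) :
    resultant (Fix F G) G (d + 1) d = (-1) ^ d * G.coeff d * resultant F G d d := by
  have h1 : Fix F G = F + G * (-X) := by
    unfold Fix
    ring
  have h2 : (-X : R[X]).natDegree + d ≤ d + 1 := by
    rw [natDegree_neg]
    have : (X : R[X]).natDegree ≤ 1 := natDegree_X_le
    omega
  rw [h1, resultant_add_mul_left (hk := h2) (hg := hG), resultant_succ_left_deg (hf := hF)]

/-- The derivative at a root. -/
theorem deriv_root {E : Type} [Field E] (n : ℕ) (c : E) (a : Fin n → E) (i : Fin n) :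
    (derivative (C c * ∏ j, (X - C (a j)))).eval (a i) =
      c * ∏ j ∈ Finset.univ.erase i, (a i - a j) := by
  have h1 : C c * ∏ j, (X - C (a j)) =
      (X - C (a i)) * (C c * ∏ j ∈ Finset.univ.erase i, (X - C (a j))) := by
    rw [← Finset.mul_prod_erase Finset.univ _ (Finset.mem_univ i)]
    ring
  rw [h1, derivative_mul, derivative_sub, derivative_X, derivative_C, sub_zero, one_mul,
    eval_add, eval_mul (p := X - C (a i)), eval_sub, eval_X, eval_C, sub_self, zero_mul, add_zero,
    eval_mul, eval_C, eval_prod]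
  refine congrArg _ (Finset.prod_congr rfl fun j _ => ?_)
  rw [eval_sub, eval_X, eval_C]

/-- The fixed vectors of the lift. -/
theorem fixed {E : Type} [Field E] (d : ℕ) (hd : 2 ≤ d) (F G : E[X]) (hF : F.natDegree ≤ d)
    (hG : G.natDegree ≤ d) (a u : E) (ha : (Fix F G).eval a = 0) (hu : u ^ (d - 1) * G.eval a = 1) :
    RI.PreV d F G (u * a, u) := by
  have hu0 : u ≠ 0 := by
    intro h
    rw [h, zero_pow (by omega), zero_mul] at hu
    exact zero_ne_one hu
  have h1 : F.eval a = a * G.eval a := by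
    have : F.eval a - a * G.eval a = 0 := by
      rw [← ha]
      unfold Fix
      rw [eval_sub, eval_mul, eval_X]
    exact sub_eq_zero.1 this
  have hf : ∀ Q : E[X], Q.natDegree ≤ d → form d Q (u * a, u) = u ^ d * Q.eval a := by
    intro Q hQ
    rw [RDF.form_affine d Q hQ (u * a) u hu0, mul_div_cancel_left₀ a hu0]
  have hud : u ^ d = u ^ (d - 1) * u := by
    rw [← pow_succ]
    congr 1
    omega
  refine ⟨fun h => hu0 (congrArg Prod.snd h), 0, 1, Nat.zero_lt_one, ?_⟩
  rw [Function.iterate_zero, Function.iterate_one, id]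
  unfold lift
  rw [hf F hF, hf G hG, h1, hud]
  refine Prod.ext ?_ ?_
  · show u * a = u ^ (d - 1) * u * (a * G.eval a)
    linear_combination (-(u * a)) * hu
  · show u = u ^ (d - 1) * u * G.eval a
    linear_combination (-u) * hu

/-- Sums over ordered pairs. -/
theorem sum_pairs (n : ℕ) (g : Fin (n + 1) → ℝ) :
    ∑ i, ∑ j ∈ Finset.univ.erase i, (g i + g j) = 2 * n * ∑ i, g i := by
  have h1 : ∀ i, ∑ j ∈ Finset.univ.erase i, (g i + g j) = (n - 1) * g i + ∑ j, g j := by
    intro i
    rw [Finset.sum_add_distrib, Finset.sum_const, Finset.card_erase_of_mem (Finset.mem_univ i),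
      Finset.card_univ, Fintype.card_fin, Nat.add_sub_cancel, nsmul_eq_mul]
    have h2 := Finset.add_sum_erase Finset.univ g (Finset.mem_univ i)
    linarith
  rw [Finset.sum_congr rfl fun i _ => h1 i, Finset.sum_add_distrib, ← Finset.mul_sum,
    Finset.sum_const, Finset.card_univ, Fintype.card_fin, nsmul_eq_mul]
  push_cast
  ring

end Lam

/-- The multipliers of the fixed points bound the resultant of every conjugate. -/
theorem lam_low (d : ℕ) (hd : 2 ≤ d) : ∃ C : ℝ, 0 ≤ C ∧ ∀ {E : Type} [NormedField E]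
    [IsAlgClosed E] [IsUltrametricDist E] (F G : E[X]), F.natDegree ≤ d → G.natDegree ≤ d →
    (∀ i, ‖F.coeff i‖ ≤ 1) → (∀ i, ‖G.coeff i‖ ≤ 1) → ‖G.coeff d‖ = 1 → ‖DD d F G‖ = 1 →
    resultant F G d d ≠ 0 → ∀ r ∈ RI.resSet d F G,
    -Real.log ‖resultant F G d d‖ / (d * (d + 1)) ≤ 2 * r + C := by
  obtain ⟨C₀, hC, hp⟩ := RI.pair_E d hd
  refine ⟨C₀, hC, ?_⟩
  intro E _ _ _ F G hF hG _ _ hlead hD hR r hr
  have hr0 : 0 ≤ r := RI.resSet_nonneg d F G r hr
  have hG0 : G.coeff d ≠ 0 := by
    intro h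
    rw [h, norm_zero] at hlead
    exact zero_ne_one hlead
  -- the roots
  have hcoef := Lam.coeff_fix d F G hF
  have hdeg : (Fix F G).natDegree = d + 1 := by
    refine le_antisymm (Lam.natDegree_fix d F G hF hG) ?_
    refine le_natDegree_of_ne_zero ?_
    rw [hcoef]
    exact neg_ne_zero.2 hG0
  have hlc : (Fix F G).leadingCoeff = -G.coeff d := by
    rw [leadingCoeff, hdeg, hcoef]
  obtain ⟨a, ha⟩ := Lam.exists_roots (Fix F G) (d + 1) hdeg
  have hs : (Fix F G).Splits := IsAlgClosed.splits _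
  have hprod : Fix F G = Polynomial.C (-G.coeff d) * ∏ j, (X - Polynomial.C (a j)) := by
    have h1 := hs.eq_prod_roots
    rw [hlc, ha, Multiset.map_map] at h1
    exact h1
  have heval : ∀ i, (Fix F G).eval (a i) = 0 := by
    intro i
    rw [hprod, eval_mul, eval_prod, Finset.prod_eq_zero (Finset.mem_univ i), mul_zero]
    rw [eval_sub, eval_X, eval_C, sub_self]
  -- the product of the multipliers
  have hmu : (-G.coeff d) ^ d * ∏ i, G.eval (a i) = (-1) ^ d * G.coeff d * resultant F G d d := by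
    rw [← Lam.res_fix d F G hF hG]
    have h1 := resultant_eq_prod_eval (Fix F G) G d hG hs
    rw [hdeg, hlc, ha, Multiset.map_map] at h1
    exact h1.symm
  have hmu0 : ∀ i, G.eval (a i) ≠ 0 := by
    intro i h
    rw [Finset.prod_eq_zero (Finset.mem_univ i) h, mul_zero] at hmu
    exact mul_ne_zero (mul_ne_zero (pow_ne_zero _ (neg_ne_zero.2 one_ne_zero)) hG0) hR hmu.symm
  have hsum1 : ∑ i, Real.log ‖G.eval (a i)‖ = Real.log ‖resultant F G d d‖ := by
    have h1 := congrArg (fun x => Real.log ‖x‖) hmu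
    simp only [norm_mul, norm_pow, norm_neg, norm_one, hlead, one_pow, one_mul, norm_prod] at h1
    rw [Real.log_prod (fun i _ => norm_ne_zero_iff.2 (hmu0 i))] at h1
    exact h1
  -- the discriminant
  have hDprod : DD d F G = (-G.coeff d) ^ d * ∏ i, ((-G.coeff d) *
      ∏ j ∈ Finset.univ.erase i, (a i - a j)) := by
    have hdd : (derivative (Fix F G)).natDegree ≤ d := by
      refine (natDegree_derivative_le _).trans ?_
      omega
    have h1 := resultant_eq_prod_eval (Fix F G) (derivative (Fix F G)) d hdd hs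
    rw [hdeg, hlc, ha, Multiset.map_map] at h1
    unfold DD
    rw [h1]
    refine congrArg _ ?_
    refine Finset.prod_congr rfl fun i _ => ?_
    rw [Function.comp_apply, hprod]
    exact Lam.deriv_root (d + 1) (-G.coeff d) a i
  have hD0 : DD d F G ≠ 0 := by
    intro h
    rw [h, norm_zero] at hD
    exact zero_ne_one hD
  have hdiff : ∀ i, ∀ j ∈ Finset.univ.erase i, a i - a j ≠ 0 := by
    intro i j hj h
    refine hD0 ?_
    rw [hDprod, Finset.prod_eq_zero (Finset.mem_univ i), mul_zero]
    rw [Finset.prod_eq_zero hj h, mul_zero]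
  have hsum2 : ∑ i, ∑ j ∈ Finset.univ.erase i, Real.log ‖a i - a j‖ = 0 := by
    have h1 := congrArg (fun x => Real.log ‖x‖) hDprod
    simp only [norm_mul, norm_pow, norm_neg, hlead, one_pow, one_mul, norm_prod, hD,
      Real.log_one] at h1
    rw [Real.log_prod (fun i _ => Finset.prod_ne_zero_iff.2 fun j hj =>
      norm_ne_zero_iff.2 (hdiff i j hj))] at h1
    rw [h1]
    refine Finset.sum_congr rfl fun i _ => ?_
    rw [Real.log_prod (fun j hj => norm_ne_zero_iff.2 (hdiff i j hj))]
  -- the exact fixed vectors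
  have hu : ∀ i, ∃ u : E, u ^ (d - 1) * G.eval (a i) = 1 := by
    intro i
    obtain ⟨u, hu⟩ := IsAlgClosed.exists_pow_nat_eq (G.eval (a i))⁻¹ (show 0 < d - 1 by omega)
    exact ⟨u, by rw [hu, inv_mul_cancel₀ (hmu0 i)]⟩
  choose u hu using hu
  have hu0 : ∀ i, u i ≠ 0 := by
    intro i h
    have := hu i
    rw [h, zero_pow (by omega), zero_mul] at this
    exact zero_ne_one this
  have hd2 : (2 : ℝ) ≤ d := by exact_mod_cast hd
  have hlogu : ∀ i, Real.log ‖u i‖ = -(Real.log ‖G.eval (a i)‖ / (d - 1)) := by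
    intro i
    have h1 := congrArg (fun x => Real.log ‖x‖) (hu i)
    simp only [norm_mul, norm_pow, norm_one, Real.log_one] at h1
    rw [Real.log_mul (pow_ne_zero _ (norm_ne_zero_iff.2 (hu0 i))) (norm_ne_zero_iff.2 (hmu0 i)),
      Real.log_pow, Nat.cast_sub (by omega), Nat.cast_one] at h1
    have h2 : (d : ℝ) - 1 ≠ 0 := by
      have : (0 : ℝ) < d - 1 := by linarith
      exact this.ne'
    field_simp
    linarith
  have hpair : ∀ i, ∀ j ∈ Finset.univ.erase i,
      -((Real.log ‖G.eval (a i)‖ + Real.log ‖G.eval (a j)‖) / (d - 1)) + Real.log ‖a i - a j‖ ≤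
        -Real.log ‖resultant F G d d‖ / (d * (d - 1)) + 2 * r + C₀ := by
    intro i j hj
    have hw : wedge (u i * a i, u i) (u j * a j, u j) = u i * u j * (a i - a j) := by
      unfold wedge
      ring
    have hw0 : wedge (u i * a i, u i) (u j * a j, u j) ≠ 0 := by
      rw [hw]
      exact mul_ne_zero (mul_ne_zero (hu0 i) (hu0 j)) (hdiff i j hj)
    have h1 := hp F G hF hG hR r hr (u i * a i, u i) (u j * a j, u j)
      (Lam.fixed d hd F G hF hG (a i) (u i) (heval i) (hu i))
      (Lam.fixed d hd F G hF hG (a j) (u j) (heval j) (hu j)) hw0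
    rw [hw, norm_mul, norm_mul, Real.log_mul (mul_ne_zero (norm_ne_zero_iff.2 (hu0 i))
      (norm_ne_zero_iff.2 (hu0 j))) (norm_ne_zero_iff.2 (hdiff i j hj)),
      Real.log_mul (norm_ne_zero_iff.2 (hu0 i)) (norm_ne_zero_iff.2 (hu0 j)), hlogu, hlogu,
      max_eq_left hr0] at h1
    rw [add_div]
    linarith
  have hall : ∑ i, ∑ j ∈ Finset.univ.erase i,
      (-((Real.log ‖G.eval (a i)‖ + Real.log ‖G.eval (a j)‖) / (d - 1)) +
        Real.log ‖a i - a j‖) ≤
      ∑ i : Fin (d + 1), ∑ j ∈ Finset.univ.erase i,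
        (-Real.log ‖resultant F G d d‖ / (d * (d - 1)) + 2 * r + C₀) :=
    Finset.sum_le_sum fun i _ => Finset.sum_le_sum fun j hj => hpair i j hj
  have hleft : ∑ i, ∑ j ∈ Finset.univ.erase i,
      (-((Real.log ‖G.eval (a i)‖ + Real.log ‖G.eval (a j)‖) / (d - 1)) +
        Real.log ‖a i - a j‖) =
      -(2 * d * Real.log ‖resultant F G d d‖ / (d - 1)) := by
    simp only [Finset.sum_add_distrib, Finset.sum_neg_distrib, ← Finset.sum_div]
    rw [hsum2, add_zero, ← hsum1, ← Lam.sum_pairs d fun i => Real.log ‖G.eval (a i)‖]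
    simp only [Finset.sum_add_distrib]
  have hright : ∑ i : Fin (d + 1), ∑ j ∈ Finset.univ.erase i,
        (-Real.log ‖resultant F G d d‖ / (d * (d - 1)) + 2 * r + C₀) =
      (d + 1) * d * (-Real.log ‖resultant F G d d‖ / (d * (d - 1)) + 2 * r + C₀) := by
    have h1 : ∀ i : Fin (d + 1), ∑ j ∈ Finset.univ.erase i,
        (-Real.log ‖resultant F G d d‖ / (d * (d - 1)) + 2 * r + C₀) =
        d * (-Real.log ‖resultant F G d d‖ / (d * (d - 1)) + 2 * r + C₀) := by
      intro i
      rw [Finset.sum_const, Finset.card_erase_of_mem (Finset.mem_univ i), Finset.card_univ,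
        Fintype.card_fin, Nat.add_sub_cancel, nsmul_eq_mul]
    rw [Finset.sum_congr rfl fun i _ => h1 i, Finset.sum_const, Finset.card_univ,
      Fintype.card_fin, nsmul_eq_mul]
    push_cast
    ring
  rw [hleft, hright] at hall
  have hd1 : (0 : ℝ) < d - 1 := by linarith
  have hd0 : (0 : ℝ) < d := by linarith
  set ρ := Real.log ‖resultant F G d d‖ with hρ
  have hkey : (d + 1 : ℝ) * d * (2 * r + C₀ - -ρ / (d * (d + 1))) =
      (d + 1) * d * (-ρ / (d * (d - 1)) + 2 * r + C₀) - -(2 * d * ρ / (d - 1)) := by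
    field_simp
    ring
  have h3 : 0 ≤ (d + 1 : ℝ) * d * (2 * r + C₀ - -ρ / (d * (d + 1))) := by
    rw [hkey]
    linarith
  have h4 : (0 : ℝ) < (d + 1) * d := by positivity
  have h5 := nonneg_of_mul_nonneg_right h3 h4
  linarith

end Pool.Agent.AVR
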