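import Mathlib

set_option autoImplicit false

/-!
# Resultants on lines

On the lines `F = F₀ + t`, `G = G₀ + t X ^ d` the resultant of `F` and `G` is a polynomial in `t` of
degree `2 d` with leading coefficient `± 1`.  For such a polynomial `P` the integers `t` for which
`P(t)` is divisible by a high power of `p` lie in few residue classes, and few values are small.
-/

namespace Pool.Agent.AVR

open Polynomial

/-- The resultant on the line `t ↦ (F₀ + t, G₀ + t X ^ d)`. -/
theorem exists_line (d : ℕ) (F₀ G₀ : ℤ[X]) : ∃ P : ℤ[X], P.natDegree ≤ 2 * d ∧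
    (P.coeff (2 * d) = 1 ∨ P.coeff (2 * d) = -1) ∧
    ∀ t : ℤ, P.eval t = resultant (F₀ + C t) (G₀ + C t * X ^ d) d d := by
  refine ⟨Matrix.det ((X : ℤ[X]) • (sylvester (1 : ℤ[X]) (X ^ d) d d).map C +
    (sylvester F₀ G₀ d d).map C), ?_, ?_, ?_⟩
  · refine (natDegree_det_X_add_C_le _ _).trans ?_
    rw [Fintype.card_fin]
    omega
  · have h1 := coeff_det_X_add_C_card (sylvester (1 : ℤ[X]) (X ^ d) d d) (sylvester F₀ G₀ d d)
    rw [Fintype.card_fin] at h1
    rw [two_mul d, h1]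
    have h2 : (sylvester (1 : ℤ[X]) (X ^ d) d d).det = resultant (1 : ℤ[X]) (X ^ d) d d := rfl
    rw [h2, resultant_one_left, coeff_X_pow_self, one_pow, mul_one]
    exact neg_one_pow_eq_or ℤ _
  · intro t
    have h1 := RingHom.map_det (evalRingHom t) ((X : ℤ[X]) •
      (sylvester (1 : ℤ[X]) (X ^ d) d d).map C + (sylvester F₀ G₀ d d).map C)
    rw [coe_evalRingHom] at h1
    rw [h1, resultant]
    congr 1
    ext i j
    simp only [RingHom.mapMatrix_apply, Matrix.map_apply, Matrix.add_apply, Matrix.smul_apply,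
      smul_eq_mul, coe_evalRingHom, eval_add, eval_mul, eval_X, eval_C]
    unfold sylvester
    simp only [Matrix.of_apply]
    induction j using Fin.addCases with
    | left j =>
      simp only [Fin.addCases_left]
      split_ifs with h
      · simp only [coeff_add, coeff_C_mul]
        ring
      · simp
    | right j =>
      simp only [Fin.addCases_right]
      split_ifs with h
      · simp only [coeff_add, coeff_C, coeff_one]
        split_ifs <;> ring
      · simp

/-- The leading coefficient as a divided difference. -/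
theorem coeff_eq {K : Type*} [Field K] [DecidableEq K] (P : K[X]) (D : ℕ) (hP : P.natDegree ≤ D)
    (v : Fin (D + 1) → K) (hv : Function.Injective v) :
    P.coeff D = ∑ i, P.eval (v i) / ∏ j ∈ Finset.univ.erase i, (v i - v j) := by
  have h1 := Lagrange.coeff_eq_sum (s := (Finset.univ : Finset (Fin (D + 1)))) (v := v)
    hv.injOn (P := P) (by
      rw [Finset.card_univ, Fintype.card_fin]
      exact lt_of_le_of_lt (degree_le_of_natDegree_le hP) (by exact_mod_cast Nat.lt_succ_self D))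
  rw [Finset.card_univ, Fintype.card_fin, Nat.add_sub_cancel] at h1
  exact h1

/-- Among `D + 1` integers which are pairwise incongruent modulo `p ^ (s + 1)` there is one where
`P` is not divisible by `p ^ (D s + 1 + f)`, if the leading coefficient is not divisible by
`p ^ (f + 1)`. -/
theorem exists_not_dvd_gen (P : ℤ[X]) (D : ℕ) (hP : P.natDegree ≤ D) (p : ℕ) (hp : p.Prime)
    (f : ℕ) (hc : ¬ (p : ℤ) ^ (f + 1) ∣ P.coeff D) (s : ℕ) (v : Fin (D + 1) → ℤ)
    (hv : ∀ i j, i ≠ j → ¬ (p : ℤ) ^ (s + 1) ∣ v i - v j) :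
    ∃ i, ¬ (p : ℤ) ^ (D * s + 1 + f) ∣ P.eval (v i) := by
  by_contra hcon
  push Not at hcon
  have : Fact p.Prime := ⟨hp⟩
  have hinj : Function.Injective fun i => ((v i : ℤ) : ℚ) := by
    intro i j hij
    by_contra hne
    refine hv i j hne ?_
    have : v i = v j := Int.cast_injective (α := ℚ) hij
    rw [this, sub_self]
    exact dvd_zero _
  have h1 := coeff_eq (P.map (Int.castRingHom ℚ)) D ((natDegree_map_le).trans hP) _ hinj
  have hp0 : (0 : ℚ) < p := by exact_mod_cast hp.pos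
  have hp1 : (1 : ℚ) < p := by exact_mod_cast hp.one_lt
  have h2 : ¬ padicNorm p ((P.map (Int.castRingHom ℚ)).coeff D) ≤
      (p : ℚ) ^ (-((f + 1 : ℕ) : ℤ)) := by
    rw [coeff_map, eq_intCast]
    intro h
    refine hc ?_
    have := (padicNorm.dvd_iff_norm_le (p := p) (n := f + 1) (z := P.coeff D)).2 h
    exact_mod_cast this
  have h3 : ∀ i, padicNorm p ((P.map (Int.castRingHom ℚ)).eval ((v i : ℤ) : ℚ) /
      ∏ j ∈ Finset.univ.erase i, (((v i : ℤ) : ℚ) - ((v j : ℤ) : ℚ))) ≤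
      (p : ℚ) ^ (-((f + 1 : ℕ) : ℤ)) := by
    intro i
    have e1 : (P.map (Int.castRingHom ℚ)).eval ((v i : ℤ) : ℚ) = ((P.eval (v i) : ℤ) : ℚ) := by
      rw [← eq_intCast (Int.castRingHom ℚ) (v i), eval_map_apply, eq_intCast]
    have e2 : padicNorm p ((P.eval (v i) : ℤ) : ℚ) ≤
        (p : ℚ) ^ (-((D * s + 1 + f : ℕ) : ℤ)) := by
      rw [← padicNorm.dvd_iff_norm_le]
      push_cast
      exact_mod_cast hcon i
    have e3 : (p : ℚ) ^ (-((D * s : ℕ) : ℤ)) ≤
        padicNorm p (∏ j ∈ Finset.univ.erase i, (((v i : ℤ) : ℚ) - ((v j : ℤ) : ℚ))) := by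
      have e4 : padicNorm p (∏ j ∈ Finset.univ.erase i, (((v i : ℤ) : ℚ) - ((v j : ℤ) : ℚ))) =
          ∏ j ∈ Finset.univ.erase i, padicNorm p (((v i : ℤ) : ℚ) - ((v j : ℤ) : ℚ)) := by
        induction (Finset.univ.erase i : Finset (Fin (D + 1))) using Finset.induction_on with
        | empty => simp
        | insert a t ha ih => rw [Finset.prod_insert ha, Finset.prod_insert ha, padicNorm.mul, ih]
      rw [e4]
      have e5 : ∀ j ∈ (Finset.univ.erase i : Finset (Fin (D + 1))), (p : ℚ) ^ (-(s : ℤ)) ≤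
          padicNorm p (((v i : ℤ) : ℚ) - ((v j : ℤ) : ℚ)) := by
        intro j hj
        by_contra hlt
        rw [not_le] at hlt
        refine hv i j (Finset.ne_of_mem_erase hj).symm ?_
        have e6 : padicNorm p ((v i - v j : ℤ) : ℚ) ≤ (p : ℚ) ^ (-((s + 1 : ℕ) : ℤ)) := by
          push_cast
          rcases eq_or_ne (v i - v j) 0 with h0 | h0
          · have : ((v i : ℤ) : ℚ) - ((v j : ℤ) : ℚ) = 0 := by exact_mod_cast h0
            rw [this, padicNorm.zero]
            positivity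
          · have h0' : ((v i : ℤ) : ℚ) - ((v j : ℤ) : ℚ) ≠ 0 := by
              intro h
              exact h0 (by exact_mod_cast h)
            rw [padicNorm.eq_zpow_of_nonzero h0'] at hlt ⊢
            rw [zpow_lt_zpow_iff_right₀ hp1] at hlt
            exact zpow_le_zpow_right₀ hp1.le (by omega)
        have e7 := (padicNorm.dvd_iff_norm_le (p := p) (n := s + 1) (z := v i - v j)).2 e6
        exact_mod_cast e7
      have e8 := Finset.prod_le_prod (s := Finset.univ.erase i)
        (f := fun _ => (p : ℚ) ^ (-(s : ℤ))) (fun j _ => by positivity) e5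
      rw [Finset.prod_const, Finset.card_erase_of_mem (Finset.mem_univ _), Finset.card_univ,
        Fintype.card_fin, Nat.add_sub_cancel, ← zpow_natCast, ← zpow_mul] at e8
      refine le_trans (le_of_eq ?_) e8
      congr 1
      push_cast
      ring
    have e9 : (0 : ℚ) < (p : ℚ) ^ (-((D * s : ℕ) : ℤ)) := by positivity
    rw [e1, padicNorm.div, div_le_iff₀ (e9.trans_le e3)]
    refine e2.trans ?_
    refine le_trans (le_of_eq ?_) (mul_le_mul_of_nonneg_left e3 (by positivity))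
    rw [← zpow_add₀ hp0.ne']
    congr 1
    push_cast
    ring
  refine h2 ?_
  rw [h1]
  exact padicNorm.sum_le' (fun i _ => h3 i) (by positivity)

/-- Among `D + 1` integers which are pairwise incongruent modulo `p ^ (s + 1)` there is one where
`P` is not divisible by `p ^ (D s + 1)`. -/
theorem exists_not_dvd (P : ℤ[X]) (D : ℕ) (hP : P.natDegree ≤ D) (p : ℕ) (hp : p.Prime)
    (hc : ¬ (p : ℤ) ∣ P.coeff D) (s : ℕ) (v : Fin (D + 1) → ℤ)
    (hv : ∀ i j, i ≠ j → ¬ (p : ℤ) ^ (s + 1) ∣ v i - v j) :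
    ∃ i, ¬ (p : ℤ) ^ (D * s + 1) ∣ P.eval (v i) :=
  exists_not_dvd_gen P D hP p hp 0 (by rwa [zero_add, pow_one]) s v hv

/-- The residue classes modulo `p ^ (s + 1)` on which `P` is divisible by `p ^ (D s + 1 + f)`. -/
theorem exists_classes_gen (P : ℤ[X]) (D : ℕ) (hP : P.natDegree ≤ D) (p : ℕ) (hp : p.Prime)
    (f : ℕ) (hc : ¬ (p : ℤ) ^ (f + 1) ∣ P.coeff D) (s : ℕ) :
    ∃ T : Finset (ZMod (p ^ (s + 1))), T.card ≤ D ∧
    ∀ t : ℤ, (p : ℤ) ^ (D * s + 1 + f) ∣ P.eval t → (t : ZMod (p ^ (s + 1))) ∈ T := by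
  classical
  have : NeZero (p ^ (s + 1)) := ⟨pow_ne_zero _ hp.ne_zero⟩
  refine ⟨Finset.univ.filter fun c => ∃ t : ℤ, (t : ZMod (p ^ (s + 1))) = c ∧
    (p : ℤ) ^ (D * s + 1 + f) ∣ P.eval t, ?_, fun t ht => ?_⟩
  · by_contra hcon
    rw [not_le] at hcon
    obtain ⟨S, hS, hSc⟩ := Finset.exists_subset_card_eq (Nat.succ_le_of_lt hcon)
    have hex : ∀ c : S, ∃ t : ℤ, (t : ZMod (p ^ (s + 1))) = c ∧
        (p : ℤ) ^ (D * s + 1 + f) ∣ P.eval t := fun c => (Finset.mem_filter.1 (hS c.2)).2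
    choose w hw1 hw2 using hex
    have e : Fin (D + 1) ≃ S := (Fintype.equivFinOfCardEq (by
      rw [Fintype.card_coe, hSc])).symm
    obtain ⟨i, hi⟩ := exists_not_dvd_gen P D hP p hp f hc s (fun i => w (e i)) (by
      intro i j hij hdvd
      have h1 : ((w (e i) : ℤ) : ZMod (p ^ (s + 1))) = ((w (e j) : ℤ) : ZMod (p ^ (s + 1))) := by
        rw [← sub_eq_zero, ← Int.cast_sub, ZMod.intCast_zmod_eq_zero_iff_dvd]
        exact_mod_cast hdvd
      rw [hw1, hw1] at h1
      exact hij (e.injective (Subtype.ext h1)))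
    exact hi (hw2 (e i))
  · rw [Finset.mem_filter]
    exact ⟨Finset.mem_univ _, t, rfl, ht⟩

/-- The residue classes modulo `p ^ (s + 1)` on which `P` is divisible by `p ^ (D s + 1)`. -/
theorem exists_classes (P : ℤ[X]) (D : ℕ) (hP : P.natDegree ≤ D) (p : ℕ) (hp : p.Prime)
    (hc : ¬ (p : ℤ) ∣ P.coeff D) (s : ℕ) : ∃ T : Finset (ZMod (p ^ (s + 1))), T.card ≤ D ∧
    ∀ t : ℤ, (p : ℤ) ^ (D * s + 1) ∣ P.eval t → (t : ZMod (p ^ (s + 1))) ∈ T :=
  exists_classes_gen P D hP p hp 0 (by rwa [zero_add, pow_one]) s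

/-- A finite set of integers, any `D + 1` elements of which contain two at distance less than `s`,
has at most `D s` elements. -/
theorem card_le_of_close (S : Finset ℤ) (D s : ℕ)
    (h : ∀ v : Fin (D + 1) → ℤ, (∀ i, v i ∈ S) → ∃ i j, i ≠ j ∧ |v i - v j| < s) :
    S.card ≤ D * s := by
  by_contra hcon
  rw [not_le] at hcon
  have hlt : ∀ i : Fin (D + 1), (i : ℕ) * s < S.card := by
    intro i
    have h1 : (i : ℕ) ≤ D := Nat.lt_succ_iff.1 i.2
    exact lt_of_le_of_lt (Nat.mul_le_mul_right s h1) hcon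
  set f := S.orderEmbOfFin rfl with hf
  have hgap : ∀ a b : Fin S.card, a ≤ b → ((b : ℕ) : ℤ) - ((a : ℕ) : ℤ) ≤ f b - f a := by
    intro a b hab
    obtain ⟨n, hn⟩ : ∃ n : ℕ, (b : ℕ) = (a : ℕ) + n := ⟨b - a, by
      have : (a : ℕ) ≤ b := hab
      omega⟩
    induction n generalizing b with
    | zero =>
      have : b = a := Fin.ext (by omega)
      rw [this]
      simp
    | succ n ih =>
      have hb : (a : ℕ) + n < S.card := by have := b.2; omega
      have h1 := ih ⟨(a : ℕ) + n, hb⟩ (by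
        show (a : ℕ) ≤ a + n
        omega) rfl
      have h2 : f ⟨(a : ℕ) + n, hb⟩ < f b := f.strictMono (by
        show (a : ℕ) + n < b
        omega)
      have h3 : (((⟨(a : ℕ) + n, hb⟩ : Fin S.card) : ℕ) : ℤ) = (a : ℕ) + n := by simp
      rw [h3] at h1
      rw [hn]
      push_cast
      linarith
  obtain ⟨i, j, hij, hlt2⟩ := h (fun i => f ⟨(i : ℕ) * s, hlt i⟩)
    (fun i => Finset.orderEmbOfFin_mem S rfl _)
  have key : ∀ i j : Fin (D + 1), i < j →
      (s : ℤ) ≤ f ⟨(j : ℕ) * s, hlt j⟩ - f ⟨(i : ℕ) * s, hlt i⟩ := by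
    intro i j hij
    have h1 : (i : ℕ) + 1 ≤ j := hij
    have h2 : ((i : ℕ) + 1) * s ≤ j * s := Nat.mul_le_mul_right s h1
    have h3 := hgap ⟨(i : ℕ) * s, hlt i⟩ ⟨(j : ℕ) * s, hlt j⟩ (by
      show (i : ℕ) * s ≤ j * s
      nlinarith)
    have h4 : (((i : ℕ) + 1) * s : ℤ) ≤ (j : ℕ) * s := by exact_mod_cast h2
    push_cast at h3
    nlinarith
  rcases lt_or_gt_of_ne hij with h1 | h1
  · have h2 := key i j h1
    rw [abs_sub_comm] at hlt2
    have := le_abs_self (f ⟨(j : ℕ) * s, hlt j⟩ - f ⟨(i : ℕ) * s, hlt i⟩)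
    linarith
  · have h2 := key j i h1
    have := le_abs_self (f ⟨(i : ℕ) * s, hlt i⟩ - f ⟨(j : ℕ) * s, hlt j⟩)
    linarith

/-- Few values of a polynomial are small. -/
theorem card_small (P : ℤ[X]) (D : ℕ) (hP : P.natDegree ≤ D) (hc : P.coeff D ≠ 0) (s : ℕ)
    (M : ℝ) (hM : ((D : ℝ) + 1) * M < (s : ℝ) ^ D) (I : Finset ℤ) :
    (I.filter fun t => |((P.eval t : ℤ) : ℝ)| ≤ M).card ≤ D * s := by
  classical
  refine card_le_of_close _ D s fun v hv => ?_
  by_contra hcon
  push Not at hcon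
  rcases Nat.eq_zero_or_pos s with rfl | hs
  · rcases Nat.eq_zero_or_pos D with rfl | hD
    · have h1 := (Finset.mem_filter.1 (hv 0)).2
      have h2 : P.eval (v 0) = P.coeff 0 := by
        rw [eq_C_of_natDegree_le_zero hP]
        simp
      have h3 : (1 : ℝ) ≤ |((P.coeff 0 : ℤ) : ℝ)| := by
        rw [← Int.cast_abs]
        exact_mod_cast Int.one_le_abs hc
      rw [h2] at h1
      norm_num at hM
      linarith
    · have h1 := (Finset.mem_filter.1 (hv 0)).2
      have h2 : (0 : ℝ) ≤ M := (abs_nonneg _).trans h1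
      rw [Nat.cast_zero, zero_pow (by omega)] at hM
      have : (0 : ℝ) ≤ ((D : ℝ) + 1) * M := by positivity
      linarith
  have hinj : Function.Injective fun i => ((v i : ℤ) : ℝ) := by
    intro i j hij
    by_contra hne
    have h1 := hcon i j hne
    have h2 : v i = v j := Int.cast_injective (α := ℝ) hij
    rw [h2, sub_self, abs_zero] at h1
    omega
  have h1 := coeff_eq (P.map (Int.castRingHom ℝ)) D ((natDegree_map_le).trans hP) _ hinj
  have hs0 : (0 : ℝ) < s := by exact_mod_cast hs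
  have h2 : (1 : ℝ) ≤ |(P.map (Int.castRingHom ℝ)).coeff D| := by
    rw [coeff_map, eq_intCast, ← Int.cast_abs]
    exact_mod_cast Int.one_le_abs hc
  have h3 : ∀ i, |(P.map (Int.castRingHom ℝ)).eval ((v i : ℤ) : ℝ) /
      ∏ j ∈ Finset.univ.erase i, (((v i : ℤ) : ℝ) - ((v j : ℤ) : ℝ))| ≤ M / (s : ℝ) ^ D := by
    intro i
    have e1 : (P.map (Int.castRingHom ℝ)).eval ((v i : ℤ) : ℝ) = ((P.eval (v i) : ℤ) : ℝ) := by
      rw [← eq_intCast (Int.castRingHom ℝ) (v i), eval_map_apply, eq_intCast]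
    have e2 := (Finset.mem_filter.1 (hv i)).2
    have e3 : (s : ℝ) ^ D ≤
        |∏ j ∈ Finset.univ.erase i, (((v i : ℤ) : ℝ) - ((v j : ℤ) : ℝ))| := by
      rw [Finset.abs_prod]
      have e4 := Finset.prod_le_prod (s := Finset.univ.erase i)
        (f := fun _ : Fin (D + 1) => (s : ℝ))
        (g := fun j => |((v i : ℤ) : ℝ) - ((v j : ℤ) : ℝ)|) (fun j _ => hs0.le) (fun j hj => by
          have e5 := hcon i j (Finset.ne_of_mem_erase hj).symm
          have e6 : |((v i : ℤ) : ℝ) - ((v j : ℤ) : ℝ)| = ((|v i - v j| : ℤ) : ℝ) := by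
            push_cast
            rfl
          rw [e6]
          exact_mod_cast e5)
      rw [Finset.prod_const, Finset.card_erase_of_mem (Finset.mem_univ _), Finset.card_univ,
        Fintype.card_fin, Nat.add_sub_cancel] at e4
      exact e4
    rw [e1, abs_div]
    have e7 : (0 : ℝ) < (s : ℝ) ^ D := by positivity
    have e8 : (0 : ℝ) ≤ M := (abs_nonneg _).trans e2
    exact div_le_div₀ e8 e2 e7 e3
  have h4 : |(P.map (Int.castRingHom ℝ)).coeff D| ≤ (D + 1 : ℕ) • (M / (s : ℝ) ^ D) := by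
    rw [h1]
    refine (Finset.abs_sum_le_sum_abs _ _).trans ((Finset.sum_le_card_nsmul _ _ _
      fun i _ => h3 i).trans (le_of_eq ?_))
    rw [Finset.card_univ, Fintype.card_fin]
  rw [nsmul_eq_mul] at h4
  have h5 : ((D + 1 : ℕ) : ℝ) * (M / (s : ℝ) ^ D) < 1 := by
    rw [← mul_div_assoc, div_lt_one (by positivity)]
    push_cast
    exact hM
  linarith

end Pool.Agent.AVR
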