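import Mathlib
import Pool.Agent.AVR.Defs

set_option autoImplicit false

/-!
# Mertens' upper bound for prime powers
-/

namespace Pool.Agent.AVR

open Finset

namespace Mert

/-- The primes up to `y`. -/
def Pr (y : ℕ) : Finset ℕ := (Finset.range (y + 1)).filter Nat.Prime

theorem mem_Pr {y p : ℕ} : p ∈ Pr y ↔ p ≤ y ∧ p.Prime := by
  unfold Pr
  rw [Finset.mem_filter, Finset.mem_range, Nat.lt_succ_iff]

/-- Mertens: upper bound for the sum of `log p / p` -/
theorem sum_log_div_le (w : ℕ) (hw : 1 ≤ w) :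
    ∑ p ∈ Pr w, Real.log p / p ≤ Real.log w + Real.log 4 := by
  have hw0 : (0:ℝ) < w := by exact_mod_cast hw
  have hPp : ∀ p ∈ Pr w, p.Prime := fun p hp => (mem_Pr.1 hp).2
  have hθ : ∑ p ∈ Pr w, Real.log p ≤ w * Real.log 4 := by
    have h1 : (((∏ p ∈ Pr w, p : ℕ) : ℝ)) ≤ (4:ℝ) ^ w := by exact_mod_cast primorial_le_four_pow w
    have h2 : 0 < ((∏ p ∈ Pr w, p : ℕ) : ℝ) := by
      exact_mod_cast Finset.prod_pos (fun p hp => (hPp p hp).pos)
    have h3 := Real.log_le_log h2 h1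
    rw [Real.log_pow, Nat.cast_prod,
      Real.log_prod (fun p hp => by exact_mod_cast (hPp p hp).ne_zero)] at h3
    exact h3
  have hdouble : ∑ p ∈ Pr w, Real.log p * ((w / p : ℕ) : ℝ) ≤ w * Real.log w := by
    have h1 : ∀ p ∈ Pr w, Real.log p * ((w / p : ℕ) : ℝ) =
        ∑ n ∈ Finset.Ioc 0 w, if p ∣ n then Real.log p else 0 := by
      intro p hp
      rw [← Finset.sum_filter, Finset.sum_const, Nat.Ioc_filter_dvd_card_eq_div, nsmul_eq_mul]
      ring
    rw [Finset.sum_congr rfl h1, Finset.sum_comm]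
    have h2 : ∀ n ∈ Finset.Ioc 0 w,
        (∑ p ∈ Pr w, if p ∣ n then Real.log p else 0) ≤ Real.log w := by
      intro n hn
      rw [Finset.mem_Ioc] at hn
      rw [← Finset.sum_filter]
      have hTp : ∀ p ∈ (Pr w).filter (fun p => p ∣ n), p.Prime :=
        fun p hp => hPp p (Finset.mem_filter.mp hp).1
      have hd : ∏ p ∈ (Pr w).filter (fun p => p ∣ n), p ∣ n :=
        Finset.prod_primes_dvd n (fun p hp => (hTp p hp).prime)
          (fun p hp => (Finset.mem_filter.mp hp).2)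
      have hle : ∏ p ∈ (Pr w).filter (fun p => p ∣ n), p ≤ w :=
        (Nat.le_of_dvd hn.1 hd).trans hn.2
      have h3 : (((∏ p ∈ (Pr w).filter (fun p => p ∣ n), p : ℕ) : ℝ)) ≤ w := by
        exact_mod_cast hle
      have h4 : 0 < ((∏ p ∈ (Pr w).filter (fun p => p ∣ n), p : ℕ) : ℝ) := by
        exact_mod_cast Finset.prod_pos (fun p hp => (hTp p hp).pos)
      have h5 := Real.log_le_log h4 h3
      rw [Nat.cast_prod, Real.log_prod (fun p hp => by exact_mod_cast (hTp p hp).ne_zero)] at h5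
      exact h5
    refine (Finset.sum_le_sum h2).trans ?_
    rw [Finset.sum_const, Nat.card_Ioc, nsmul_eq_mul, tsub_zero]
  have hfin : w * ∑ p ∈ Pr w, Real.log p / p ≤ w * (Real.log w + Real.log 4) := by
    rw [Finset.mul_sum]
    have h1 : ∀ p ∈ Pr w, w * (Real.log p / p) ≤ Real.log p * ((w / p : ℕ) : ℝ) + Real.log p := by
      intro p hp
      have hp0 : (0:ℝ) < p := by exact_mod_cast (hPp p hp).pos
      have hl : 0 ≤ Real.log p := Real.log_nonneg (by exact_mod_cast (hPp p hp).one_lt.le)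
      have h2 : (w : ℝ) / p ≤ ((w / p : ℕ) : ℝ) + 1 := by
        have := Nat.lt_floor_add_one ((w:ℝ) / p)
        rw [Nat.floor_div_natCast, Nat.floor_natCast] at this
        exact this.le
      calc w * (Real.log p / p) = Real.log p * (w / p) := by ring
        _ ≤ Real.log p * (((w / p : ℕ) : ℝ) + 1) := mul_le_mul_of_nonneg_left h2 hl
        _ = Real.log p * ((w / p : ℕ) : ℝ) + Real.log p := by ring
    refine (Finset.sum_le_sum h1).trans ?_
    rw [Finset.sum_add_distrib]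
    calc _ ≤ w * Real.log w + w * Real.log 4 := add_le_add hdouble hθ
      _ = _ := by ring
  exact le_of_mul_le_mul_left hfin hw0

/-- The geometric sum of `1 / p ^ e`. -/
theorem geom_le (p n : ℕ) (hp : 2 ≤ p) :
    ∑ e ∈ (Finset.range (n + 1)).filter (fun e => 1 ≤ e), 1 / (p : ℝ) ^ e ≤ 2 / p := by
  have hp2 : (2:ℝ) ≤ p := by exact_mod_cast hp
  have hp0 : (0:ℝ) < p := by linarith
  have hx0 : (0:ℝ) ≤ (p : ℝ)⁻¹ := by positivity
  have hx : 2 * (p : ℝ)⁻¹ ≤ 1 := by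
    rw [mul_comm, inv_mul_le_iff₀ hp0]
    linarith
  have key : ∀ n : ℕ, ∑ e ∈ Finset.range n, (p : ℝ)⁻¹ ^ (e + 1) ≤
      2 * (p : ℝ)⁻¹ - 2 * (p : ℝ)⁻¹ ^ (n + 1) := by
    intro n
    induction n with
    | zero => simp
    | succ n ih =>
      rw [Finset.sum_range_succ]
      have h1 : 2 * (p : ℝ)⁻¹ ^ (n + 1 + 1) ≤ (p : ℝ)⁻¹ ^ (n + 1) := by
        rw [pow_succ (p : ℝ)⁻¹ (n + 1)]
        calc 2 * ((p : ℝ)⁻¹ ^ (n + 1) * (p : ℝ)⁻¹) = (p : ℝ)⁻¹ ^ (n + 1) * (2 * (p : ℝ)⁻¹) := by ring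
          _ ≤ (p : ℝ)⁻¹ ^ (n + 1) * 1 := mul_le_mul_of_nonneg_left hx (by positivity)
          _ = _ := mul_one _
      linarith
  rw [Finset.sum_filter, Finset.sum_range_succ', if_neg (by norm_num), add_zero]
  have h2 : ∑ k ∈ Finset.range n, (if 1 ≤ k + 1 then 1 / (p : ℝ) ^ (k + 1) else 0) =
      ∑ e ∈ Finset.range n, (p : ℝ)⁻¹ ^ (e + 1) := by
    refine Finset.sum_congr rfl fun e _ => ?_
    rw [if_pos (by omega), one_div, inv_pow]
  rw [h2]
  refine (key n).trans ?_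
  have h3 : (0:ℝ) ≤ (p : ℝ)⁻¹ ^ (n + 1) := by positivity
  rw [div_eq_mul_inv]
  linarith

end Mert

open Mert

/-- Mertens' upper bound for prime powers. -/
theorem mert : ∃ A : ℝ, 0 < A ∧ ∀ y : ℕ, 2 ≤ y →
    ∑ q ∈ PE y, Real.log q.1 / (q.1 : ℝ) ^ q.2 ≤ A * Real.log y := by
  refine ⟨6, by norm_num, fun y hy => ?_⟩
  have hsub : PE y ⊆ (Pr y) ×ˢ ((Finset.range (y ^ 2 + 1)).filter fun e => 1 ≤ e) := by
    intro q hq
    have h1 := mem_PE.1 hq
    have h2 : q ∈ (Finset.range (y + 1)) ×ˢ (Finset.range (y ^ 2 + 1)) :=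
      (Finset.mem_filter.1 hq).1
    rw [Finset.mem_product] at h2 ⊢
    exact ⟨mem_Pr.2 ⟨h1.1, h1.2.1⟩, Finset.mem_filter.2 ⟨h2.2, h1.2.2.1⟩⟩
  have hnn : ∀ q : ℕ × ℕ, 0 ≤ Real.log q.1 / (q.1 : ℝ) ^ q.2 := fun q =>
    div_nonneg (Real.log_natCast_nonneg _) (by positivity)
  refine (Finset.sum_le_sum_of_subset_of_nonneg hsub fun q _ _ => hnn q).trans ?_
  rw [Finset.sum_product]
  have h1 : ∀ p ∈ Pr y, ∑ e ∈ (Finset.range (y ^ 2 + 1)).filter (fun e => 1 ≤ e),
      Real.log ((p, e) : ℕ × ℕ).1 / (((p, e) : ℕ × ℕ).1 : ℝ) ^ ((p, e) : ℕ × ℕ).2 ≤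
      2 * (Real.log p / p) := by
    intro p hp
    have h2 := geom_le p (y ^ 2) (mem_Pr.1 hp).2.two_le
    have h3 : ∑ e ∈ (Finset.range (y ^ 2 + 1)).filter (fun e => 1 ≤ e),
        Real.log ((p, e) : ℕ × ℕ).1 / (((p, e) : ℕ × ℕ).1 : ℝ) ^ ((p, e) : ℕ × ℕ).2 =
        Real.log p * ∑ e ∈ (Finset.range (y ^ 2 + 1)).filter (fun e => 1 ≤ e),
          1 / (p : ℝ) ^ e := by
      rw [Finset.mul_sum]
      refine Finset.sum_congr rfl fun e _ => ?_
      rw [mul_one_div]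
    rw [h3]
    calc _ ≤ Real.log p * (2 / p) :=
          mul_le_mul_of_nonneg_left h2 (Real.log_natCast_nonneg _)
      _ = _ := by ring
  refine (Finset.sum_le_sum h1).trans ?_
  rw [← Finset.mul_sum]
  have h4 := sum_log_div_le y (by omega)
  have h5 : Real.log 4 ≤ 2 * Real.log y := by
    have : Real.log 4 = 2 * Real.log 2 := by
      rw [show (4:ℝ) = 2 ^ 2 by norm_num, Real.log_pow]
      norm_num
    rw [this]
    have h6 : Real.log 2 ≤ Real.log y :=
      Real.log_le_log (by norm_num) (by exact_mod_cast hy)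
    linarith
  linarith

/-- The contribution of one prime. -/
theorem old_prime (y p : ℕ) (hy : 2 ≤ y) (hp : p.Prime) :
    ∑ q ∈ (PE y).filter (fun q => q.1 = p), Real.log q.1 ≤ 2 * Real.log y := by
  have h1 : ∑ q ∈ (PE y).filter (fun q => q.1 = p), Real.log q.1 =
      ((PE y).filter (fun q => q.1 = p)).card * Real.log p := by
    rw [Finset.sum_congr rfl (fun q hq => by rw [(Finset.mem_filter.1 hq).2]
      : ∀ q ∈ (PE y).filter (fun q => q.1 = p), Real.log q.1 = Real.log p),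
      Finset.sum_const, nsmul_eq_mul]
  rw [h1]
  have h2 : ((PE y).filter (fun q => q.1 = p)).card ≤ Nat.log p (y ^ 2) := by
    have h3 : ((PE y).filter (fun q => q.1 = p)).card ≤ (Finset.Icc 1 (Nat.log p (y ^ 2))).card := by
      refine Finset.card_le_card_of_injOn (fun q => q.2) ?_ ?_
      · intro q hq
        have h4 := Finset.mem_filter.1 hq
        have h5 := mem_PE.1 h4.1
        rw [h4.2] at h5
        refine Finset.mem_coe.2 (Finset.mem_Icc.2 ⟨h5.2.2.1, ?_⟩)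
        exact Nat.le_log_of_pow_le hp.one_lt h5.2.2.2
      · intro q hq q' hq' h
        have h4 := (Finset.mem_filter.1 hq).2
        have h5 := (Finset.mem_filter.1 hq').2
        exact Prod.ext (h4.trans h5.symm) h
    rwa [Nat.card_Icc, Nat.add_sub_cancel] at h3
  have h6 : (Nat.log p (y ^ 2) : ℝ) * Real.log p ≤ 2 * Real.log y := by
    have h7 : p ^ Nat.log p (y ^ 2) ≤ y ^ 2 := Nat.pow_log_le_self p (by positivity)
    have h8 : ((p : ℝ) ^ Nat.log p (y ^ 2)) ≤ (y : ℝ) ^ 2 := by exact_mod_cast h7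
    have h9 := Real.log_le_log (pow_pos (by exact_mod_cast hp.pos) _) h8
    rw [Real.log_pow, Real.log_pow] at h9
    exact_mod_cast h9
  calc (((PE y).filter (fun q => q.1 = p)).card : ℝ) * Real.log p ≤
        (Nat.log p (y ^ 2) : ℝ) * Real.log p :=
        mul_le_mul_of_nonneg_right (by exact_mod_cast h2) (Real.log_natCast_nonneg _)
    _ ≤ _ := h6

end Pool.Agent.AVR
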