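import Mathlib
import Pool.Agent.AVR.Defs
import Pool.Agent.AVR.Mert

set_option autoImplicit false

/-!
# The moment lemma
-/

namespace Pool.Agent.AVR

namespace Mom

open Finset

/-- The number of integers of `[-H, H]` in a residue class. -/
theorem card_class (H m : ℕ) (hm : 1 ≤ m) (s : ℤ) :
    (((Icc (-(H : ℤ)) H).filter (fun t => (m : ℤ) ∣ t - s)).card : ℝ) ≤
      (2 * H + 1) / m + 1 := by
  have hm' : (0 : ℤ) < m := by exact_mod_cast hm
  have e1 : (Icc (-(H : ℤ)) H).filter (fun t => (m : ℤ) ∣ t - s) =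
      (Ioc (-(H : ℤ) - 1) H).filter (fun t => t ≡ s [ZMOD m]) := by
    ext t
    simp only [mem_filter, mem_Icc, mem_Ioc]
    rw [Int.modEq_comm, Int.modEq_iff_dvd]
    constructor
    · rintro ⟨⟨h1, h2⟩, h3⟩
      exact ⟨⟨by omega, h2⟩, h3⟩
    · rintro ⟨⟨h1, h2⟩, h3⟩
      exact ⟨⟨by omega, h2⟩, h3⟩
  rw [e1]
  have e2 := Int.Ioc_filter_modEq_card (-(H : ℤ) - 1) H hm' s
  have hmQ : (0 : ℚ) < m := by exact_mod_cast hm
  have e3 : ((((Ioc (-(H : ℤ) - 1) H).filter (fun t => t ≡ s [ZMOD m])).card : ℤ) : ℚ) ≤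
      (2 * H + 1) / m + 1 := by
    rw [e2]
    have h1 := Int.floor_le ((((H : ℤ) : ℚ) - (s : ℚ)) / ((m : ℤ) : ℚ))
    have h2 := Int.sub_one_lt_floor ((((-(H : ℤ) - 1 : ℤ) : ℚ) - (s : ℚ)) / ((m : ℤ) : ℚ))
    have h3 : (((H : ℤ) : ℚ) - (s : ℚ)) / ((m : ℤ) : ℚ) -
        (((-(H : ℤ) - 1 : ℤ) : ℚ) - (s : ℚ)) / ((m : ℤ) : ℚ) = (2 * H + 1) / m := by
      rw [← sub_div]
      push_cast
      ring
    have h4 : (0 : ℚ) ≤ (2 * H + 1) / m := by positivity
    rw [Int.cast_max, max_le_iff]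
    constructor
    · push_cast at *
      linarith
    · push_cast
      linarith
  have e4 : ((((Ioc (-(H : ℤ) - 1) H).filter (fun t => t ≡ s [ZMOD m])).card : ℚ) : ℝ) ≤
      (((2 * H + 1) / m + 1 : ℚ) : ℝ) := by
    exact_mod_cast e3
  push_cast at e4
  exact e4

/-- The number of integers of `[-H, H]` in few classes. -/
theorem card_classes (H m D : ℕ) (hm : 1 ≤ m) (hmH : m ≤ 2 * H + 1) (P : ℤ → Prop)
    [DecidablePred P] (hP : Classes D m P) :
    (((Icc (-(H : ℤ)) H).filter P).card : ℝ) ≤ 2 * (2 * H + 1) * D / m := by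
  classical
  obtain ⟨S, hS, h⟩ := hP
  have hmR : (0 : ℝ) < m := by exact_mod_cast hm
  have h1 : (Icc (-(H : ℤ)) H).filter P ⊆
      S.biUnion fun s => (Icc (-(H : ℤ)) H).filter (fun t => (m : ℤ) ∣ t - s) := by
    intro t ht
    rw [mem_filter] at ht
    obtain ⟨s, hs, hd⟩ := h t ht.2
    rw [mem_biUnion]
    exact ⟨s, hs, mem_filter.2 ⟨ht.1, hd⟩⟩
  have h2 : (((Icc (-(H : ℤ)) H).filter P).card : ℝ) ≤
      ∑ s ∈ S, (((Icc (-(H : ℤ)) H).filter (fun t => (m : ℤ) ∣ t - s)).card : ℝ) := by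
    exact_mod_cast (card_le_card h1).trans card_biUnion_le
  have h3 : ∑ s ∈ S, (((Icc (-(H : ℤ)) H).filter (fun t => (m : ℤ) ∣ t - s)).card : ℝ) ≤
      ∑ _s ∈ S, ((2 * H + 1) / m + 1 : ℝ) := sum_le_sum fun s _ => card_class H m hm s
  rw [sum_const, nsmul_eq_mul] at h3
  have h4 : (1 : ℝ) ≤ (2 * H + 1) / m := by
    rw [le_div_iff₀ hmR]
    have : (m : ℝ) ≤ 2 * H + 1 := by exact_mod_cast hmH
    linarith
  have h5 : (S.card : ℝ) ≤ D := by exact_mod_cast hS
  have h6 : (S.card : ℝ) * ((2 * H + 1) / m + 1) ≤ D * (2 * ((2 * H + 1) / m)) := by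
    apply mul_le_mul h5 (by linarith) (by linarith) (by positivity)
  have h7 : (D : ℝ) * (2 * ((2 * H + 1) / m)) = 2 * (2 * H + 1) * D / m := by ring
  linarith

/-- Classes modulo coprime numbers. -/
theorem classes_and {D D' m m' : ℕ} {P Q : ℤ → Prop} (hP : Classes D m P) (hQ : Classes D' m' Q)
    (h : Nat.Coprime m m') : Classes (D * D') (m * m') (fun t => P t ∧ Q t) := by
  classical
  obtain ⟨S, hS, h1⟩ := hP
  obtain ⟨S', hS', h2⟩ := hQ
  have hc : IsCoprime (m : ℤ) (m' : ℤ) := Nat.isCoprime_iff_coprime.2 h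
  obtain ⟨a, b, hab⟩ := hc
  refine ⟨(S ×ˢ S').image fun q => q.1 * (b * m') + q.2 * (a * m), ?_, ?_⟩
  · exact card_image_le.trans (by rw [card_product]; exact Nat.mul_le_mul hS hS')
  · rintro t ⟨hp, hq⟩
    obtain ⟨s, hs, hd⟩ := h1 t hp
    obtain ⟨s', hs', hd'⟩ := h2 t hq
    refine ⟨s * (b * m') + s' * (a * m), mem_image.2 ⟨(s, s'), mem_product.2 ⟨hs, hs'⟩, rfl⟩, ?_⟩
    obtain ⟨u, hu⟩ := hd
    obtain ⟨v, hv⟩ := hd'
    refine ⟨b * u + a * v, ?_⟩
    have e1 : t = s + m * u := by linarith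
    have e2 : t = s' + m' * v := by linarith
    have e3 : t = t * (a * m) + t * (b * m') := by
      rw [← mul_add, hab, mul_one]
    push_cast
    calc t - (s * (b * m') + s' * (a * m))
        = (t * (a * m) + t * (b * m')) - (s * (b * m') + s' * (a * m)) := by rw [← e3]
      _ = (t - s) * (b * m') + (t - s') * (a * m) := by ring
      _ = (m * u) * (b * m') + (m' * v) * (a * m) := by rw [hu, hv]
      _ = m * m' * (b * u + a * v) := by ring

theorem classes_mono {D D' m : ℕ} {P Q : ℤ → Prop} (hP : Classes D m P) (hD : D ≤ D')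
    (h : ∀ t, Q t → P t) : Classes D' m Q := by
  obtain ⟨S, hS, h1⟩ := hP
  exact ⟨S, hS.trans hD, fun t ht => h1 t (h t ht)⟩

theorem Zs_nonneg (y : ℕ) (T : ℕ → ℕ → ℤ → Prop) (t : ℤ) : 0 ≤ Zs y T t := by
  unfold Zs
  refine sum_nonneg fun q hq => ?_
  split_ifs
  · exact Real.log_natCast_nonneg _
  · exact le_refl 0

open Classical in
/-- The recursion: `S` = the primes used so far. -/
theorem moment (A : ℝ) (hA : 0 ≤ A) (y : ℕ) (hy : 2 ≤ y)
    (hm : ∑ q ∈ PE y, Real.log q.1 / (q.1 : ℝ) ^ q.2 ≤ A * Real.log y)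
    (D₀ H : ℕ) (T : ℕ → ℕ → ℤ → Prop)
    (hT : ∀ q ∈ PE y, Classes D₀ (q.1 ^ q.2) (T q.1 q.2)) (r : ℕ) :
    ∀ (S : Finset ℕ) (D m : ℕ) (P : ℤ → Prop) [DecidablePred P], (∀ p ∈ S, p.Prime) → 1 ≤ m →
      m * y ^ (2 * r) ≤ 2 * H + 1 → (∀ p, p.Prime → p ∉ S → Nat.Coprime m p) →
      Classes D m P →
      ∑ t ∈ (Icc (-(H : ℤ)) H).filter P, Zs y T t ^ r ≤
        2 * (2 * H + 1) * D / m * ((D₀ * A + 2 * (S.card + r)) * Real.log y) ^ r := by
  induction r with
  | zero =>
    intro S D m P _ _ hm1 hmH _ hP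
    simp only [pow_zero, sum_const, nsmul_eq_mul, mul_one]
    exact card_classes H m D hm1 (by simpa using hmH) P hP
  | succ r ih =>
    intro S D m P _ hS hm1 hmH hcop hP
    have hly : 0 < Real.log y := Real.log_pos (by exact_mod_cast (by omega : 1 < y))
    have hmR : (0 : ℝ) < m := by exact_mod_cast hm1
    have hypos : 1 ≤ y ^ 2 := Nat.one_le_pow _ _ (by omega)
    -- exchange the sums
    have e1 : ∑ t ∈ (Icc (-(H : ℤ)) H).filter P, Zs y T t ^ (r + 1) =
        ∑ q ∈ PE y, Real.log q.1 *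
          ∑ t ∈ (Icc (-(H : ℤ)) H).filter (fun t => P t ∧ T q.1 q.2 t), Zs y T t ^ r := by
      have h1 : ∀ t, Zs y T t ^ (r + 1) =
          ∑ q ∈ PE y, Real.log q.1 * (if T q.1 q.2 t then Zs y T t ^ r else 0) := by
        intro t
        rw [pow_succ]
        conv_lhs => rw [show Zs y T t ^ r * Zs y T t = Zs y T t ^ r *
          ∑ q ∈ PE y, (if T q.1 q.2 t then Real.log q.1 else 0) from rfl]
        rw [mul_sum]
        refine sum_congr rfl fun q _ => ?_
        split_ifs
        · ring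
        · ring
      simp only [h1]
      rw [sum_comm]
      refine sum_congr rfl fun q _ => ?_
      rw [← mul_sum]
      congr 1
      rw [← filter_filter, sum_filter (p := T q.1 q.2)]
    rw [e1]
    set B : ℝ := D₀ * A + 2 * (S.card + (r + 1)) with hB
    have hB0 : 0 ≤ B := by positivity
    set L : ℝ := Real.log y with hL
    set X : ℝ := 2 * (2 * H + 1) * D / m with hX
    have hX0 : 0 ≤ X := by positivity
    -- old primes
    have h_old : ∀ q ∈ PE y, q.1 ∈ S →
        ∑ t ∈ (Icc (-(H : ℤ)) H).filter (fun t => P t ∧ T q.1 q.2 t), Zs y T t ^ r ≤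
          X * (B * L) ^ r := by
      intro q _ _
      have h1 := ih S D m (fun t => P t ∧ T q.1 q.2 t) hS hm1
        (le_trans (Nat.mul_le_mul_left m (Nat.pow_le_pow_right (by omega) (by omega))) hmH) hcop
        (classes_mono hP le_rfl fun t ht => ht.1)
      refine h1.trans ?_
      apply mul_le_mul_of_nonneg_left _ hX0
      apply pow_le_pow_left₀ (by positivity)
      apply mul_le_mul_of_nonneg_right _ hly.le
      rw [hB]
      linarith
    -- new primes
    have h_new : ∀ q ∈ PE y, q.1 ∉ S →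
        ∑ t ∈ (Icc (-(H : ℤ)) H).filter (fun t => P t ∧ T q.1 q.2 t), Zs y T t ^ r ≤
          X * (D₀ / (q.1 : ℝ) ^ q.2) * (B * L) ^ r := by
      intro q hq hqS
      have hq' := mem_PE.1 hq
      have hqp : q.1.Prime := hq'.2.1
      have h1 := ih (insert q.1 S) (D * D₀) (m * q.1 ^ q.2) (fun t => P t ∧ T q.1 q.2 t)
        (fun p hp => by
          rcases mem_insert.1 hp with h | h
          · rw [h]; exact hqp
          · exact hS p h)
        (Nat.mul_pos hm1 (Nat.pow_pos hqp.pos))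
        (by
          calc m * q.1 ^ q.2 * y ^ (2 * r) ≤ m * y ^ 2 * y ^ (2 * r) := by
                apply Nat.mul_le_mul_right
                exact Nat.mul_le_mul_left m hq'.2.2.2
            _ = m * y ^ (2 * (r + 1)) := by ring
            _ ≤ 2 * H + 1 := hmH)
        (fun p hp hpS => by
          rw [mem_insert, not_or] at hpS
          exact Nat.Coprime.mul_left (hcop p hp hpS.2)
            (Nat.Coprime.pow_left _ ((Nat.coprime_primes hqp hp).2 (Ne.symm hpS.1))))
        (classes_and hP (hT q hq) (Nat.Coprime.pow_right _ (hcop q.1 hqp hqS)))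
      rw [card_insert_of_notMem hqS] at h1
      refine h1.trans (le_of_eq ?_)
      have hq0 : (q.1 : ℝ) ≠ 0 := by exact_mod_cast hqp.ne_zero
      rw [hX, hB]
      push_cast
      rw [show (D₀ : ℝ) * A + 2 * ((S.card : ℝ) + 1 + r) = D₀ * A + 2 * (S.card + (r + 1)) by ring]
      congr 1
      field_simp
    -- split the sum
    rw [← sum_filter_add_sum_filter_not (PE y) (fun q => q.1 ∈ S)]
    have s1 : ∑ q ∈ (PE y).filter (fun q => q.1 ∈ S), Real.log q.1 *
          ∑ t ∈ (Icc (-(H : ℤ)) H).filter (fun t => P t ∧ T q.1 q.2 t), Zs y T t ^ r ≤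
        (S.card * (2 * L)) * (X * (B * L) ^ r) := by
      calc ∑ q ∈ (PE y).filter (fun q => q.1 ∈ S), Real.log q.1 *
          ∑ t ∈ (Icc (-(H : ℤ)) H).filter (fun t => P t ∧ T q.1 q.2 t), Zs y T t ^ r
          ≤ ∑ q ∈ (PE y).filter (fun q => q.1 ∈ S), Real.log q.1 * (X * (B * L) ^ r) := by
            refine sum_le_sum fun q hq => ?_
            rw [mem_filter] at hq
            exact mul_le_mul_of_nonneg_left (h_old q hq.1 hq.2) (Real.log_natCast_nonneg _)
        _ = (∑ q ∈ (PE y).filter (fun q => q.1 ∈ S), Real.log q.1) * (X * (B * L) ^ r) := by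
            rw [sum_mul]
        _ ≤ (S.card * (2 * L)) * (X * (B * L) ^ r) := by
            apply mul_le_mul_of_nonneg_right _ (by positivity)
            have h2 : (PE y).filter (fun q => q.1 ∈ S) ⊆
                S.biUnion fun p => (PE y).filter (fun q => q.1 = p) := by
              intro q hq
              rw [mem_filter] at hq
              exact mem_biUnion.2 ⟨q.1, hq.2, mem_filter.2 ⟨hq.1, rfl⟩⟩
            have h3 : ∑ q ∈ (PE y).filter (fun q => q.1 ∈ S), Real.log q.1 =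
                ∑ p ∈ S, ∑ q ∈ (PE y).filter (fun q => q.1 = p), Real.log q.1 := by
              rw [← sum_fiberwise_of_maps_to (s := (PE y).filter (fun q => q.1 ∈ S)) (t := S)
                (g := fun q => q.1) (fun q hq => (mem_filter.1 hq).2)]
              refine sum_congr rfl fun p hp => ?_
              rw [filter_filter]
              refine sum_congr (filter_congr fun q _ => ?_) fun _ _ => rfl
              constructor
              · rintro ⟨_, h⟩
                exact h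
              · intro h
                exact ⟨h ▸ hp, h⟩
            rw [h3]
            calc ∑ p ∈ S, ∑ q ∈ (PE y).filter (fun q => q.1 = p), Real.log q.1
                ≤ ∑ _p ∈ S, 2 * L := sum_le_sum fun p hp => old_prime y p hy (hS p hp)
              _ = S.card * (2 * L) := by rw [sum_const, nsmul_eq_mul]
    have s2 : ∑ q ∈ (PE y).filter (fun q => ¬ q.1 ∈ S), Real.log q.1 *
          ∑ t ∈ (Icc (-(H : ℤ)) H).filter (fun t => P t ∧ T q.1 q.2 t), Zs y T t ^ r ≤
        (D₀ * A * L) * (X * (B * L) ^ r) := by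
      calc ∑ q ∈ (PE y).filter (fun q => ¬ q.1 ∈ S), Real.log q.1 *
          ∑ t ∈ (Icc (-(H : ℤ)) H).filter (fun t => P t ∧ T q.1 q.2 t), Zs y T t ^ r
          ≤ ∑ q ∈ (PE y).filter (fun q => ¬ q.1 ∈ S),
              (Real.log q.1 / (q.1 : ℝ) ^ q.2) * (D₀ * (X * (B * L) ^ r)) := by
            refine sum_le_sum fun q hq => ?_
            rw [mem_filter] at hq
            refine (mul_le_mul_of_nonneg_left (h_new q hq.1 hq.2)
              (Real.log_natCast_nonneg _)).trans (le_of_eq ?_)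
            ring
        _ = (∑ q ∈ (PE y).filter (fun q => ¬ q.1 ∈ S), Real.log q.1 / (q.1 : ℝ) ^ q.2) *
              (D₀ * (X * (B * L) ^ r)) := by rw [sum_mul]
        _ ≤ (A * L) * (D₀ * (X * (B * L) ^ r)) := by
            apply mul_le_mul_of_nonneg_right _ (by positivity)
            refine le_trans (sum_le_sum_of_subset_of_nonneg (filter_subset _ _) ?_) hm
            intro q _ _
            exact div_nonneg (Real.log_natCast_nonneg _) (by positivity)
        _ = (D₀ * A * L) * (X * (B * L) ^ r) := by ring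
    have s3 : (S.card * (2 * L)) * (X * (B * L) ^ r) + (D₀ * A * L) * (X * (B * L) ^ r) ≤
        X * (B * L) ^ (r + 1) := by
      have h1 : X * (B * L) ^ (r + 1) = (B * L) * (X * (B * L) ^ r) := by ring
      rw [h1, ← add_mul]
      apply mul_le_mul_of_nonneg_right _ (by positivity)
      rw [hB]
      have h2 : 0 ≤ L := hly.le
      have h3 : (0 : ℝ) ≤ r := Nat.cast_nonneg r
      nlinarith [mul_nonneg h3 h2]
    refine (add_le_add s1 s2).trans (s3.trans (le_of_eq ?_))
    rw [hB]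
    push_cast
    ring

end Mom

open Finset in
/-- The moment lemma. -/
theorem mom (D₀ : ℕ) (κ : ℝ) (hκ : 0 < κ) : ∃ C c : ℝ, 0 < C ∧ 0 < c ∧
    ∀ H y k : ℕ, 2 ≤ y → 1 ≤ k → y ^ k ≤ H → ∀ T : ℕ → ℕ → ℤ → Prop,
    (∀ q ∈ PE y, Classes D₀ (q.1 ^ q.2) (T q.1 q.2)) →
    (((Finset.Icc (-(H : ℤ)) H).filter
      (fun t => κ * (k * Real.log y) ≤ Zs y T t)).card : ℝ) ≤
      C * Real.exp (-(c * k)) * (2 * H + 1) := by
  classical
  obtain ⟨A, hA, hmert⟩ := mert
  set κ' : ℝ := min (κ / 8) (1 / 2) with hκ'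
  have hκ'0 : 0 < κ' := by
    rw [hκ']
    exact lt_min (by positivity) (by norm_num)
  have hκ'1 : κ' ≤ κ / 8 := min_le_left _ _
  have hκ'2 : κ' ≤ 1 / 2 := min_le_right _ _
  have hlog2 : 0 < Real.log 2 := Real.log_pos (by norm_num)
  set c : ℝ := κ' * Real.log 2 with hc
  have hc0 : 0 < c := by positivity
  set k₁ : ℝ := 4 * D₀ * A / κ with hk₁
  refine ⟨4 + Real.exp (c * k₁), c, by positivity, hc0, ?_⟩
  intro H y k hy hk hyk T hT
  have hH : (0 : ℝ) < 2 * H + 1 := by positivity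
  by_cases hkk : (k : ℝ) ≤ k₁
  · have h1 : (((Finset.Icc (-(H : ℤ)) H).filter
        (fun t => κ * (k * Real.log y) ≤ Zs y T t)).card : ℝ) ≤ 2 * H + 1 := by
      have h2 := card_le_card (filter_subset
        (fun t => κ * (k * Real.log y) ≤ Zs y T t) (Finset.Icc (-(H : ℤ)) H))
      rw [Int.card_Icc] at h2
      have h3 : ((H : ℤ) + 1 - -(H : ℤ)).toNat = 2 * H + 1 := by omega
      rw [h3] at h2
      exact_mod_cast h2
    have h4 : (1 : ℝ) ≤ (4 + Real.exp (c * k₁)) * Real.exp (-(c * k)) := by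
      have h5 : (1 : ℝ) ≤ Real.exp (c * k₁) * Real.exp (-(c * k)) := by
        rw [← Real.exp_add]
        apply Real.one_le_exp
        have := mul_le_mul_of_nonneg_left hkk hc0.le
        linarith
      have h6 : 0 < Real.exp (-(c * k)) := Real.exp_pos _
      linarith
    calc _ ≤ (2 * H + 1 : ℝ) := h1
      _ ≤ (4 + Real.exp (c * k₁)) * Real.exp (-(c * k)) * (2 * H + 1) := by
        have := mul_le_mul_of_nonneg_right h4 hH.le
        linarith
  · rw [not_le] at hkk
    have hkR : (0 : ℝ) < k := by exact_mod_cast hk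
    set r : ℕ := ⌊κ' * k⌋₊ with hr
    have hr1 : (r : ℝ) ≤ κ' * k := Nat.floor_le (by positivity)
    have hr2 : κ' * k < r + 1 := Nat.lt_floor_add_one _
    have hL : 0 < Real.log y := Real.log_pos (by exact_mod_cast (by omega : 1 < y))
    have h2r : 2 * r ≤ k := by
      have : (2 * r : ℝ) ≤ k := by nlinarith
      exact_mod_cast this
    have hM := Mom.moment A hA.le y hy (hmert y hy) D₀ H T hT r ∅ 1 1 (fun _ => True)
      (by simp) le_rfl
      (by
        have h1 : y ^ (2 * r) ≤ y ^ k := Nat.pow_le_pow_right (by omega) h2r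
        omega)
      (by simp) ⟨{0}, by simp, fun t _ => ⟨0, by simp, by simp⟩⟩
    rw [filter_true] at hM
    set F := (Finset.Icc (-(H : ℤ)) H).filter
      (fun t => κ * (k * Real.log y) ≤ Zs y T t) with hF
    set K : ℝ := κ * (k * Real.log y) with hK
    have hK0 : 0 < K := by positivity
    have h1 : (F.card : ℝ) * K ^ r ≤ ∑ t ∈ Icc (-(H : ℤ)) H, Zs y T t ^ r := by
      calc (F.card : ℝ) * K ^ r = ∑ _t ∈ F, K ^ r := by rw [sum_const, nsmul_eq_mul]
        _ ≤ ∑ t ∈ F, Zs y T t ^ r := by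
            refine sum_le_sum fun t ht => ?_
            rw [hF, mem_filter] at ht
            exact pow_le_pow_left₀ hK0.le ht.2 r
        _ ≤ ∑ t ∈ Icc (-(H : ℤ)) H, Zs y T t ^ r := by
            apply sum_le_sum_of_subset_of_nonneg (filter_subset _ _)
            intro t _ _
            exact pow_nonneg (Mom.Zs_nonneg y T t) r
    have h2 : ((D₀ * A + 2 * (((∅ : Finset ℕ).card : ℝ) + r)) * Real.log y) ≤ K / 2 := by
      have h3 : (D₀ : ℝ) * A ≤ κ * k / 4 := by
        rw [hk₁, div_lt_iff₀ hκ] at hkk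
        linarith
      have h4 : 2 * (r : ℝ) ≤ κ * k / 4 := by
        have := mul_le_mul_of_nonneg_right hκ'1 hkR.le
        linarith
      rw [hK]
      simp only [card_empty, Nat.cast_zero, zero_add]
      have h5 : (D₀ * A + 2 * (r : ℝ)) * Real.log y ≤ (κ * k / 4 + κ * k / 4) * Real.log y :=
        mul_le_mul_of_nonneg_right (by linarith) hL.le
      linarith
    have h3 : (F.card : ℝ) * K ^ r ≤ 2 * (2 * H + 1) * (K / 2) ^ r := by
      refine h1.trans (hM.trans ?_)
      have h4 : ((D₀ * A + 2 * (((∅ : Finset ℕ).card : ℝ) + r)) * Real.log y) ^ r ≤ (K / 2) ^ r :=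
        pow_le_pow_left₀ (by simp only [card_empty, Nat.cast_zero, zero_add]; positivity) h2 r
      have h5 := mul_le_mul_of_nonneg_left h4 (by positivity : (0 : ℝ) ≤ 2 * (2 * H + 1))
      simpa using h5
    have h4 : (F.card : ℝ) ≤ 2 * (2 * H + 1) * (1 / 2) ^ r := by
      have h5 : (0 : ℝ) < K ^ r := pow_pos hK0 r
      have h6 : 2 * (2 * H + 1) * (K / 2) ^ r = (2 * (2 * H + 1) * (1 / 2) ^ r) * K ^ r := by
        rw [show K / 2 = (1 / 2) * K by ring, mul_pow]
        ring
      rw [h6] at h3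
      exact le_of_mul_le_mul_right h3 h5
    have h5 : ((1 : ℝ) / 2) ^ r ≤ 2 * Real.exp (-(c * k)) := by
      have h6 : ((1 : ℝ) / 2) ^ r = Real.exp (-(r * Real.log 2)) := by
        rw [Real.exp_neg, mul_comm, Real.exp_mul, Real.exp_log (by norm_num), Real.rpow_natCast,
          one_div, inv_pow]
      have h7 : (2 : ℝ) = Real.exp (Real.log 2) := (Real.exp_log (by norm_num)).symm
      rw [h6]
      conv_rhs => rw [h7]
      rw [← Real.exp_add]
      apply Real.exp_le_exp.2
      rw [hc]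
      nlinarith
    have h6 : (0 : ℝ) < Real.exp (-(c * k)) * (2 * H + 1) := by positivity
    have h7 : (0 : ℝ) ≤ Real.exp (c * k₁) * (Real.exp (-(c * k)) * (2 * H + 1)) := by positivity
    calc (F.card : ℝ) ≤ 2 * (2 * H + 1) * (1 / 2) ^ r := h4
      _ ≤ 2 * (2 * H + 1) * (2 * Real.exp (-(c * k))) :=
          mul_le_mul_of_nonneg_left h5 (by positivity)
      _ ≤ (4 + Real.exp (c * k₁)) * Real.exp (-(c * k)) * (2 * H + 1) := by
          linarith

end Pool.Agent.AVR
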