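import Mathlib
import Pool.Agent.AVR.Defs
import Pool.Agent.AVR.Slice
import Pool.Agent.AVR.Line

set_option autoImplicit false

/-!
# A positive proportion of the pairs is primitive with nonzero resultant
-/

namespace Pool.Agent.AVR

open Polynomial

namespace PrimAux

/-- The multiples of `m` in `[-H, H]`. -/
theorem card_mult (m H : ℕ) (hm : 1 ≤ m) :
    ((Finset.Icc (-(H : ℤ)) H).filter fun t => (m : ℤ) ∣ t).card ≤ 2 * (H / m) + 1 := by
  have h1 : (Finset.Icc (-((H / m : ℕ) : ℤ)) ((H / m : ℕ) : ℤ)).card = 2 * (H / m) + 1 := by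
    rw [Int.card_Icc]
    omega
  rw [← h1]
  refine Finset.card_le_card_of_injOn (fun t => t / (m : ℤ)) ?_ ?_
  · intro t ht
    rw [Finset.mem_coe, Finset.mem_filter, Finset.mem_Icc] at ht
    obtain ⟨⟨h2, h3⟩, s, rfl⟩ := ht
    have hm' : (0 : ℤ) < m := by exact_mod_cast hm
    rw [Finset.mem_coe, Finset.mem_Icc]
    change -((H / m : ℕ) : ℤ) ≤ (m : ℤ) * s / m ∧ (m : ℤ) * s / m ≤ ((H / m : ℕ) : ℤ)
    rw [Int.mul_ediv_cancel_left _ hm'.ne', Int.natCast_div]
    constructor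
    · rw [neg_le]
      rw [Int.le_ediv_iff_mul_le hm']
      linarith
    · rw [Int.le_ediv_iff_mul_le hm']
      linarith
  · intro t ht t' ht' he
    rw [Finset.mem_coe, Finset.mem_filter] at ht ht'
    have he' : t / (m : ℤ) = t' / (m : ℤ) := he
    rw [← Int.ediv_mul_cancel ht.2, ← Int.ediv_mul_cancel ht'.2, he']

open Classical in
/-- The pairs all of whose coefficients are divisible by `m`. -/
theorem card_div (d m H : ℕ) (hm : 1 ≤ m) :
    ((Box d H).filter (fun q : (Fin (d + 1) → ℤ) × (Fin (d + 1) → ℤ) =>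
      (∀ i, (m : ℤ) ∣ q.1 i) ∧ ∀ i, (m : ℤ) ∣ q.2 i)).card ≤ (2 * (H / m) + 1) ^ (2 * d + 2) := by
  have h0 : ((Vec d H).filter fun a => ∀ i, (m : ℤ) ∣ a i).card ≤ (2 * (H / m) + 1) ^ (d + 1) := by
    have h1 : (Vec d H).filter (fun a => ∀ i, (m : ℤ) ∣ a i) =
        Fintype.piFinset fun _ => (Finset.Icc (-(H : ℤ)) H).filter fun t => (m : ℤ) ∣ t := by
      ext a
      rw [Finset.mem_filter, Fintype.mem_piFinset, Vec, Fintype.mem_piFinset]
      constructor
      · rintro ⟨h2, h3⟩ i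
        exact Finset.mem_filter.2 ⟨h2 i, h3 i⟩
      · intro h2
        exact ⟨fun i => (Finset.mem_filter.1 (h2 i)).1, fun i => (Finset.mem_filter.1 (h2 i)).2⟩
    rw [h1, Fintype.card_piFinset, Finset.prod_const, Finset.card_univ, Fintype.card_fin]
    exact Nat.pow_le_pow_left (card_mult m H hm) _
  have h2 : (Box d H).filter (fun q : (Fin (d + 1) → ℤ) × (Fin (d + 1) → ℤ) =>
      (∀ i, (m : ℤ) ∣ q.1 i) ∧ ∀ i, (m : ℤ) ∣ q.2 i) =
      ((Vec d H).filter fun a => ∀ i, (m : ℤ) ∣ a i) ×ˢ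
        ((Vec d H).filter fun a => ∀ i, (m : ℤ) ∣ a i) := by
    ext q
    rw [Finset.mem_filter, Box, Finset.mem_product, Finset.mem_product, Finset.mem_filter,
      Finset.mem_filter]
    tauto
  rw [h2, Finset.card_product]
  calc _ ≤ (2 * (H / m) + 1) ^ (d + 1) * (2 * (H / m) + 1) ^ (d + 1) := Nat.mul_le_mul h0 h0
    _ = (2 * (H / m) + 1) ^ (2 * d + 2) := by rw [← pow_add]; congr 1; ring

theorem ratio_le (m H : ℕ) (hm : 2 ≤ m) (hmH : m ≤ H) :
    ((2 * (H / m) + 1 : ℕ) : ℝ) ≤ 3 / (2 * m + 1) * (2 * H + 1) := by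
  have hm' : (2 : ℝ) ≤ m := by exact_mod_cast hm
  have hH' : (m : ℝ) ≤ H := by exact_mod_cast hmH
  have h1 : ((H / m : ℕ) : ℝ) ≤ H / m := Nat.cast_div_le
  have h2 : ((2 * (H / m) + 1 : ℕ) : ℝ) ≤ 2 * ((H : ℝ) / m) + 1 := by
    push_cast
    linarith
  refine h2.trans ?_
  have hm0 : (0 : ℝ) < m := by linarith
  rw [div_mul_eq_mul_div, le_div_iff₀ (by positivity)]
  have h3 : (2 * ((H : ℝ) / m) + 1) * (2 * m + 1) * m ≤ 3 * (2 * H + 1) * m := by
    have h4 : (2 * ((H : ℝ) / m) + 1) * (2 * m + 1) * m = (2 * H + m) * (2 * m + 1) := by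
      field_simp
    rw [h4]
    nlinarith [mul_nonneg (sub_nonneg.2 hH') (by linarith : (0 : ℝ) ≤ m - 1)]
  exact le_of_mul_le_mul_right h3 hm0

theorem sum_le (H : ℕ) (hH : 1 ≤ H) :
    (∑ m ∈ Finset.Icc 2 H, (1 : ℝ) / (2 * (m : ℝ) + 1) ^ 4) ≤
      1 / 384 - 1 / (6 * (2 * (H : ℝ) + 2) ^ 3) := by
  induction H, hH using Nat.le_induction with
  | base => norm_num
  | succ n hn ih =>
    rw [Finset.sum_Icc_succ_top (by omega)]
    have hn' : (1 : ℝ) ≤ n := by exact_mod_cast hn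
    have h1 : (1 : ℝ) / (2 * ((n + 1 : ℕ) : ℝ) + 1) ^ 4 ≤
        1 / (6 * (2 * (n : ℝ) + 2) ^ 3) - 1 / (6 * (2 * ((n + 1 : ℕ) : ℝ) + 2) ^ 3) := by
      push_cast
      have hx : (0 : ℝ) < 2 * (n : ℝ) + 2 := by linarith
      set x : ℝ := 2 * (n : ℝ) + 2 with hxdef
      have e1 : 2 * ((n : ℝ) + 1) + 1 = x + 1 := by rw [hxdef]; ring
      have e2 : 2 * ((n : ℝ) + 1) + 2 = x + 2 := by rw [hxdef]; ring
      rw [e1, e2, div_sub_div _ _ (by positivity) (by positivity),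
        div_le_div_iff₀ (by positivity) (by positivity)]
      have h3 : (0 : ℝ) ≤ x ^ 2 := by positivity
      nlinarith [pow_pos hx 3, pow_pos hx 4, pow_pos hx 5, pow_pos hx 6, hx, h3]
    push_cast at h1 ⊢
    linarith

open Classical in
/-- Most pairs are primitive. -/
theorem card_nonprim (d : ℕ) (hd : 1 ≤ d) (H : ℕ) (hH : 1 ≤ H) :
    (((Box d H).filter (fun q : (Fin (d + 1) → ℤ) × (Fin (d + 1) → ℤ) =>
      ∃ p : ℕ, p.Prime ∧ (∀ i, (p : ℤ) ∣ q.1 i) ∧ ∀ i, (p : ℤ) ∣ q.2 i)).card : ℝ) ≤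
      1 / 4 * (2 * H + 1) ^ (2 * d + 2) := by
  set E : ℕ → Finset ((Fin (d + 1) → ℤ) × (Fin (d + 1) → ℤ)) := fun m =>
    (Box d H).filter (fun q : (Fin (d + 1) → ℤ) × (Fin (d + 1) → ℤ) =>
      (∀ i, (m : ℤ) ∣ q.1 i) ∧ ∀ i, (m : ℤ) ∣ q.2 i) with hE
  have hsub : (Box d H).filter (fun q : (Fin (d + 1) → ℤ) × (Fin (d + 1) → ℤ) =>
      ∃ p : ℕ, p.Prime ∧ (∀ i, (p : ℤ) ∣ q.1 i) ∧ ∀ i, (p : ℤ) ∣ q.2 i) ⊆
      {0} ∪ (Finset.Icc 2 H).biUnion E := by
    intro q hq
    rw [Finset.mem_filter] at hq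
    obtain ⟨hq1, p, hp, h1, h2⟩ := hq
    rw [Finset.mem_union, Finset.mem_singleton, Finset.mem_biUnion]
    by_cases h0 : q = 0
    · exact Or.inl h0
    · refine Or.inr ⟨p, ?_, ?_⟩
      · rw [Finset.mem_Icc]
        refine ⟨hp.two_le, ?_⟩
        have hb := hq1
        rw [Box, Finset.mem_product, mem_Vec, mem_Vec] at hb
        have key : ∀ x : ℤ, x ≠ 0 → |x| ≤ H → (p : ℤ) ∣ x → p ≤ H := by
          intro x hx0 hxH hpx
          have := Int.le_of_dvd (abs_pos.2 hx0) ((dvd_abs _ _).2 hpx)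
          exact_mod_cast this.trans hxH
        by_contra hcon
        refine h0 (Prod.ext (funext fun i => ?_) (funext fun i => ?_))
        · by_contra hne
          exact hcon (key _ hne (hb.1 i) (h1 i))
        · by_contra hne
          exact hcon (key _ hne (hb.2 i) (h2 i))
      · rw [hE]
        exact Finset.mem_filter.2 ⟨hq1, h1, h2⟩
  have hH' : (1 : ℝ) ≤ H := by exact_mod_cast hH
  have hcard : ∀ m ∈ Finset.Icc 2 H, ((E m).card : ℝ) ≤
      81 * (1 / (2 * m + 1) ^ 4) * (2 * H + 1) ^ (2 * d + 2) := by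
    intro m hm
    rw [Finset.mem_Icc] at hm
    have hm' : (2 : ℝ) ≤ m := by exact_mod_cast hm.1
    have h1 : ((E m).card : ℝ) ≤ ((2 * (H / m) + 1 : ℕ) : ℝ) ^ (2 * d + 2) := by
      have := card_div d m H (by omega)
      exact_mod_cast this
    refine h1.trans ?_
    have h2 : ((2 * (H / m) + 1 : ℕ) : ℝ) ^ (2 * d + 2) ≤
        (3 / (2 * m + 1) * (2 * H + 1)) ^ (2 * d + 2) :=
      pow_le_pow_left₀ (by positivity) (ratio_le m H hm.1 hm.2) _
    refine h2.trans ?_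
    rw [mul_pow]
    refine mul_le_mul_of_nonneg_right ?_ (by positivity)
    have h3 : (3 : ℝ) / (2 * m + 1) ≤ 1 := by
      rw [div_le_one (by positivity)]
      linarith
    have h4 : ((3 : ℝ) / (2 * m + 1)) ^ (2 * d + 2) ≤ (3 / (2 * m + 1)) ^ 4 :=
      pow_le_pow_of_le_one (by positivity) h3 (by omega)
    refine h4.trans (le_of_eq ?_)
    rw [div_pow]
    norm_num
    ring
  have hone : (1 : ℝ) ≤ 1 / 81 * (2 * H + 1) ^ (2 * d + 2) := by
    have h1 : (3 : ℝ) ^ 4 ≤ (2 * H + 1) ^ (2 * d + 2) := by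
      calc (3 : ℝ) ^ 4 ≤ (2 * H + 1) ^ 4 := pow_le_pow_left₀ (by norm_num) (by linarith) _
        _ ≤ (2 * H + 1) ^ (2 * d + 2) := pow_le_pow_right₀ (by linarith) (by omega)
    linarith
  have hsum := sum_le H hH
  have hX : (0 : ℝ) ≤ (2 * H + 1) ^ (2 * d + 2) := by positivity
  calc _ ≤ ((({0} ∪ (Finset.Icc 2 H).biUnion E).card : ℕ) : ℝ) := by
        exact_mod_cast Finset.card_le_card hsub
    _ ≤ ((1 + ∑ m ∈ Finset.Icc 2 H, (E m).card : ℕ) : ℝ) := by
        refine Nat.cast_le.2 ((Finset.card_union_le _ _).trans ?_)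
        rw [Finset.card_singleton]
        exact Nat.add_le_add_left Finset.card_biUnion_le _
    _ ≤ 1 / 81 * (2 * (H : ℝ) + 1) ^ (2 * d + 2) +
        (∑ m ∈ Finset.Icc 2 H, (81 : ℝ) * (1 / (2 * (m : ℝ) + 1) ^ 4) *
          (2 * (H : ℝ) + 1) ^ (2 * d + 2)) := by
        push_cast
        exact add_le_add hone (Finset.sum_le_sum hcard)
    _ = (1 / 81 + 81 * (∑ m ∈ Finset.Icc 2 H, (1 : ℝ) / (2 * (m : ℝ) + 1) ^ 4)) *
        (2 * (H : ℝ) + 1) ^ (2 * d + 2) := by
        rw [← Finset.sum_mul, ← Finset.mul_sum]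
        ring
    _ ≤ 1 / 4 * (2 * H + 1) ^ (2 * d + 2) := by
        refine mul_le_mul_of_nonneg_right ?_ hX
        have h5 : (0 : ℝ) ≤ 1 / (6 * (2 * H + 2) ^ 3) := by positivity
        linarith

theorem pol_update_zero (d : ℕ) (a : Fin (d + 1) → ℤ) (t : ℤ) :
    pol d (Function.update a 0 (a 0 + t)) = pol d a + C t := by
  ext n
  by_cases hn : n ≤ d
  · have h1 := pol_coeff d (Function.update a 0 (a 0 + t)) ⟨n, Nat.lt_succ_of_le hn⟩
    have h2 := pol_coeff d a ⟨n, Nat.lt_succ_of_le hn⟩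
    simp only at h1 h2
    rw [h1, coeff_add, h2, coeff_C]
    by_cases h0 : n = 0
    · subst h0
      simp
    · rw [Function.update_of_ne, if_neg h0, add_zero]
      intro h
      exact h0 (by simpa using congrArg Fin.val h)
  · rw [pol_coeff_eq_zero d _ n (by omega), coeff_add, pol_coeff_eq_zero d _ n (by omega),
      coeff_C, if_neg (by omega), add_zero]

theorem pol_update_last (d : ℕ) (b : Fin (d + 1) → ℤ) (hb : b (Fin.last d) = 0) (t : ℤ) :
    pol d (Function.update b (Fin.last d) t) = pol d b + C t * X ^ d := by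
  ext n
  by_cases hn : n ≤ d
  · have h1 := pol_coeff d (Function.update b (Fin.last d) t) ⟨n, Nat.lt_succ_of_le hn⟩
    have h2 := pol_coeff d b ⟨n, Nat.lt_succ_of_le hn⟩
    simp only at h1 h2
    rw [h1, coeff_add, h2, coeff_C_mul, coeff_X_pow]
    by_cases h0 : n = d
    · have e : (⟨n, Nat.lt_succ_of_le hn⟩ : Fin (d + 1)) = Fin.last d := Fin.ext h0
      rw [e, Function.update_self, hb, if_pos h0, mul_one, zero_add]
    · rw [Function.update_of_ne, if_neg h0, mul_zero, add_zero]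
      intro h
      exact h0 (congrArg Fin.val h)
  · rw [pol_coeff_eq_zero d _ n (by omega), coeff_add, pol_coeff_eq_zero d _ n (by omega),
      coeff_C_mul, coeff_X_pow, if_neg (by omega), mul_zero, add_zero]

open Classical in
/-- The resultant is rarely zero. -/
theorem card_RR_zero (d H : ℕ) :
    (((Box d H).filter (fun q : (Fin (d + 1) → ℤ) × (Fin (d + 1) → ℤ) => RR d q = 0)).card : ℝ) ≤
      2 * (2 * d : ℕ) * (2 * H + 1) ^ (2 * d + 1) := by
  refine le_trans (le_of_eq (congrArg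
    (fun s : Finset ((Fin (d + 1) → ℤ) × (Fin (d + 1) → ℤ)) => (s.card : ℝ)) ?_))
    (card_line d H 0 (Fin.last d) (fun q => RR d q = 0) ((2 * d : ℕ) : ℝ) (by positivity) ?_)
  · ext q
    simp only [Finset.mem_filter]
  intro a b _ _ hb
  rw [Nat.cast_le]
  obtain ⟨P, hP1, hP2, hP3⟩ := exists_line d (pol d a) (pol d b)
  have hP0 : P ≠ 0 := by
    intro h
    rw [h, coeff_zero] at hP2
    rcases hP2 with h2 | h2
    · exact zero_ne_one h2
    · norm_num at h2
  calc _ ≤ P.roots.toFinset.card := by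
        refine Finset.card_le_card fun t ht => ?_
        simp only [Finset.mem_filter] at ht
        have h1 := ht.2
        rw [Multiset.mem_toFinset, mem_roots hP0, IsRoot.def, hP3]
        change resultant (pol d (Function.update a 0 (a 0 + t)))
          (pol d (Function.update b (Fin.last d) t)) d d = 0 at h1
        rwa [pol_update_zero, pol_update_last d b hb] at h1
    _ ≤ P.roots.card := Multiset.toFinset_card_le _
    _ ≤ P.natDegree := card_roots' P
    _ ≤ 2 * d := hP1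

end PrimAux

open PrimAux

open Classical in
/-- A positive proportion of the pairs is primitive with nonzero resultant. -/
theorem prim (d : ℕ) (hd : 1 ≤ d) : ∃ c : ℝ, 0 < c ∧ ∀ H : ℕ, 1 ≤ H →
    c * (2 * H + 1) ^ (2 * d + 2) ≤
      ((Box d H).filter (fun q : (Fin (d + 1) → ℤ) × (Fin (d + 1) → ℤ) => RR d q ≠ 0 ∧
      ∀ p : ℕ, p.Prime → ¬ ((∀ i, (p : ℤ) ∣ q.1 i) ∧ ∀ i, (p : ℤ) ∣ q.2 i))).card := by
  have hd' : (1 : ℝ) ≤ d := by exact_mod_cast hd
  refine ⟨((16 * d : ℝ) ^ (2 * d + 2))⁻¹, by positivity, ?_⟩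
  intro H hH
  have hH' : (1 : ℝ) ≤ H := by exact_mod_cast hH
  have hc2 : ((16 * d : ℝ) ^ (2 * d + 2))⁻¹ ≤ 1 / 2 := by
    rw [inv_eq_one_div]
    refine one_div_le_one_div_of_le (by norm_num) ?_
    calc (2 : ℝ) ≤ 16 * d := by linarith
      _ = (16 * d) ^ 1 := (pow_one _).symm
      _ ≤ (16 * d : ℝ) ^ (2 * d + 2) := pow_le_pow_right₀ (by linarith) (by omega)
  by_cases hbig : (16 * d : ℝ) ≤ 2 * H + 1
  · -- large `H`
    set S := (Box d H).filter (fun q : (Fin (d + 1) → ℤ) × (Fin (d + 1) → ℤ) => RR d q ≠ 0 ∧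
      ∀ p : ℕ, p.Prime → ¬ ((∀ i, (p : ℤ) ∣ q.1 i) ∧ ∀ i, (p : ℤ) ∣ q.2 i)) with hS
    set A := (Box d H).filter (fun q : (Fin (d + 1) → ℤ) × (Fin (d + 1) → ℤ) => RR d q = 0)
      with hA
    set B := (Box d H).filter (fun q : (Fin (d + 1) → ℤ) × (Fin (d + 1) → ℤ) =>
      ∃ p : ℕ, p.Prime ∧ (∀ i, (p : ℤ) ∣ q.1 i) ∧ ∀ i, (p : ℤ) ∣ q.2 i) with hB
    have hcov : Box d H ⊆ S ∪ (A ∪ B) := by
      intro q hq
      rw [Finset.mem_union, Finset.mem_union]
      by_cases h1 : RR d q = 0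
      · exact Or.inr (Or.inl (Finset.mem_filter.2 ⟨hq, h1⟩))
      · by_cases h2 : ∃ p : ℕ, p.Prime ∧ (∀ i, (p : ℤ) ∣ q.1 i) ∧ ∀ i, (p : ℤ) ∣ q.2 i
        · exact Or.inr (Or.inr (Finset.mem_filter.2 ⟨hq, h2⟩))
        · refine Or.inl (Finset.mem_filter.2 ⟨hq, h1, fun p hp h3 => h2 ⟨p, hp, h3⟩⟩)
    have h1 : ((Box d H).card : ℝ) ≤ S.card + (A.card + B.card) := by
      have := (Finset.card_le_card hcov).trans ((Finset.card_union_le _ _).trans
        (Nat.add_le_add_left (Finset.card_union_le A B) _))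
      exact_mod_cast this
    rw [card_Box] at h1
    push_cast at h1
    have h2 : (A.card : ℝ) ≤ 1 / 4 * (2 * H + 1) ^ (2 * d + 2) := by
      refine (card_RR_zero d H).trans ?_
      rw [pow_succ ((2 : ℝ) * H + 1) (2 * d + 1)]
      push_cast
      have h3 : (0 : ℝ) ≤ (2 * H + 1) ^ (2 * d + 1) := by positivity
      nlinarith
    have h3 := card_nonprim d hd H hH
    have h4 : (0 : ℝ) ≤ (2 * H + 1) ^ (2 * d + 2) := by positivity
    have h5 : ((16 * d : ℝ) ^ (2 * d + 2))⁻¹ * (2 * H + 1) ^ (2 * d + 2) ≤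
        1 / 2 * (2 * H + 1) ^ (2 * d + 2) := mul_le_mul_of_nonneg_right hc2 h4
    have h6 : (B.card : ℝ) ≤ 1 / 4 * (2 * H + 1) ^ (2 * d + 2) := h3
    linarith
  · -- small `H`
    rw [not_le] at hbig
    have h1 : ((16 * d : ℝ) ^ (2 * d + 2))⁻¹ * (2 * H + 1) ^ (2 * d + 2) ≤ 1 := by
      rw [inv_mul_le_iff₀ (by positivity), mul_one]
      exact pow_le_pow_left₀ (by positivity) hbig.le _
    refine h1.trans ?_
    rw [Nat.one_le_cast, Nat.one_le_iff_ne_zero, Finset.card_ne_zero]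
    refine ⟨(Pi.single 0 1, Pi.single (Fin.last d) 1), ?_⟩
    have e1 : pol d (Pi.single 0 1) = 1 := by
      ext n
      by_cases hn : n ≤ d
      · have h2 := pol_coeff d (Pi.single 0 1) ⟨n, Nat.lt_succ_of_le hn⟩
        simp only at h2
        rw [h2, coeff_one]
        by_cases h0 : n = 0
        · subst h0
          simp
        · rw [Pi.single_eq_of_ne, if_neg h0]
          intro h
          exact h0 (by simpa using congrArg Fin.val h)
      · rw [pol_coeff_eq_zero d _ n (by omega), coeff_one, if_neg (by omega)]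
    have e2 : pol d (Pi.single (Fin.last d) 1) = X ^ d := by
      ext n
      by_cases hn : n ≤ d
      · have h2 := pol_coeff d (Pi.single (Fin.last d) 1) ⟨n, Nat.lt_succ_of_le hn⟩
        simp only at h2
        rw [h2, coeff_X_pow]
        by_cases h0 : n = d
        · have e : (⟨n, Nat.lt_succ_of_le hn⟩ : Fin (d + 1)) = Fin.last d := Fin.ext h0
          rw [e, Pi.single_eq_same, if_pos h0]
        · rw [Pi.single_eq_of_ne, if_neg h0]
          intro h
          exact h0 (congrArg Fin.val h)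
      · rw [pol_coeff_eq_zero d _ n (by omega), coeff_X_pow, if_neg (by omega)]
    rw [Finset.mem_filter]
    refine ⟨?_, ?_, ?_⟩
    · have hs : ∀ (j i : Fin (d + 1)), |(Pi.single j 1 : Fin (d + 1) → ℤ) i| ≤ H := by
        intro j i
        have : (1 : ℤ) ≤ H := by exact_mod_cast hH
        by_cases h : i = j
        · rw [h, Pi.single_eq_same, abs_one]
          exact this
        · rw [Pi.single_eq_of_ne h, abs_zero]
          linarith
      rw [Box, Finset.mem_product, mem_Vec, mem_Vec]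
      exact ⟨hs _, hs _⟩
    · change resultant (pol d (Pi.single 0 1)) (pol d (Pi.single (Fin.last d) 1)) d d ≠ 0
      rw [e1, e2, resultant_one_left, coeff_X_pow_self, one_pow, mul_one]
      exact pow_ne_zero _ (by norm_num)
    · intro p hp h
      have h2 := h.1 0
      change (p : ℤ) ∣ (Pi.single 0 1 : Fin (d + 1) → ℤ) 0 at h2
      rw [Pi.single_eq_same] at h2
      have h3 := Int.le_of_dvd one_pos h2
      have h4 := hp.two_le
      omega

end Pool.Agent.AVR
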