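import Mathlib
import Pool.Agent.AVR.Glue

set_option autoImplicit false

/-!
# One place that sees a proportion of the resultant
-/

namespace Pool.Agent.AVR

open Polynomial
open Pool.Agent.RI (resSet)

namespace PtC

theorem norm_int {E : Type} [NormedField E] [IsUltrametricDist E] (n : ℤ) : ‖(n : E)‖ ≤ 1 :=
  IsUltrametricDist.norm_intCast_le_one E n

theorem norm_coprime {E : Type} [NormedField E] [IsUltrametricDist E] (p : ℕ) (hp : p.Prime)
    (h : ‖(p : E)‖ = (p : ℝ)⁻¹) (n : ℤ) (hn : ¬ (p : ℤ) ∣ n) : ‖(n : E)‖ = 1 := by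
  refine le_antisymm (norm_int n) ?_
  have h1 : IsCoprime (p : ℤ) n :=
    (Prime.coprime_iff_not_dvd (Nat.prime_iff_prime_int.1 hp)).2 hn
  obtain ⟨u, v, huv⟩ := h1
  have h2 : (u : E) * (p : E) + (v : E) * (n : E) = 1 := by
    exact_mod_cast congrArg (Int.cast : ℤ → E) huv
  by_contra hlt
  rw [not_le] at hlt
  have h3 : ‖(u : E) * (p : E)‖ < 1 := by
    rw [norm_mul, h]
    have h4 : (p : ℝ)⁻¹ < 1 := inv_lt_one_of_one_lt₀ (by exact_mod_cast hp.one_lt)
    have h5 := norm_int (E := E) u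
    have h6 : 0 ≤ (p : ℝ)⁻¹ := by positivity
    nlinarith [norm_nonneg (u : E)]
  have h4 : ‖(v : E) * (n : E)‖ < 1 := by
    rw [norm_mul]
    have h5 := norm_int (E := E) v
    nlinarith [norm_nonneg (v : E), norm_nonneg (n : E)]
  have h5 := IsUltrametricDist.norm_add_le_max ((u : E) * (p : E)) ((v : E) * (n : E))
  rw [h2, norm_one] at h5
  exact absurd h5 (not_le.2 (max_lt h3 h4))

theorem norm_dvd {E : Type} [NormedField E] [IsUltrametricDist E] (p : ℕ)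
    (h : ‖(p : E)‖ = (p : ℝ)⁻¹) (n : ℤ) (hn : (p : ℤ) ∣ n) : ‖(n : E)‖ ≤ (p : ℝ)⁻¹ := by
  obtain ⟨c, rfl⟩ := hn
  rw [Int.cast_mul, norm_mul]
  have h3 : ‖((p : ℤ) : E)‖ = (p : ℝ)⁻¹ := by
    rw [Int.cast_natCast]
    exact h
  rw [h3]
  have h4 := norm_int (E := E) c
  have h5 : 0 ≤ (p : ℝ)⁻¹ := by positivity
  nlinarith

theorem one_add_max (a b x : ℝ) (ha : 0 < a) (hb : 0 ≤ b) (hx : 0 ≤ x) :
    x ≤ (1 + b) / a * (1 + max 0 (a * x - b)) := by
  rw [div_mul_eq_mul_div, le_div_iff₀ ha]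
  rcases le_total (a * x) b with h | h
  · have h1 : (1 + b) * 1 ≤ (1 + b) * (1 + max 0 (a * x - b)) :=
      mul_le_mul_of_nonneg_left (by linarith [le_max_left 0 (a * x - b)]) (by linarith)
    nlinarith
  · have h1 : (1 + b) * (1 + (a * x - b)) ≤ (1 + b) * (1 + max 0 (a * x - b)) :=
      mul_le_mul_of_nonneg_left (by linarith [le_max_right 0 (a * x - b)]) (by linarith)
    nlinarith

theorem log_mul_le (Q k : ℕ) :
    Real.log ((Q * k : ℕ) + 1) ≤ Q * Real.log (k + 1) := by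
  have h1 := one_add_mul_le_pow (show (-2 : ℝ) ≤ k by
    have : (0 : ℝ) ≤ k := Nat.cast_nonneg _
    linarith) Q
  rw [← Real.log_pow]
  refine Real.log_le_log (by positivity) ?_
  push_cast
  rw [add_comm (k : ℝ) 1]
  linarith

end PtC

open PtC

/-- One large prime `p` with `Λ_p ≥ a log p - b`. -/
theorem pt_core (N d : ℕ) (hd : 2 ≤ d) (A a b : ℝ) (hA : 0 ≤ A) (ha : 0 < a) (hb : 0 ≤ b) :
    ∃ C : ℝ, 0 ≤ C ∧ ∀ F G : ℤ[X], F.natDegree ≤ d → G.natDegree ≤ d →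
    resultant F G d d ≠ 0 → ∀ H k : ℕ, 1 ≤ H → 1 ≤ k →
    Real.log |((resultant F G d d : ℤ) : ℝ)| ≤ A * (1 + Real.log H) →
    ∀ p : ℕ, p.Prime → H < p ^ k → LamP d F G p (max 0 (a * Real.log p - b)) →
    (Pts N d F G).Finite ∧ ((Pts N d F G).ncard : ℝ) ≤ C * (k * Real.log (k + 1)) := by
  obtain ⟨C, hC, hglue⟩ := glue N d hd
  obtain ⟨Q, hQ⟩ := exists_nat_ge (A * (1 / Real.log 2 + 1) * ((1 + b) / a))
  refine ⟨C * ((Q + 1 : ℕ) : ℝ) ^ 2, by positivity, ?_⟩
  intro F G hF hG hR H k hH hk hlogR p hp hHp hlam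
  have hk1 : (1 : ℝ) ≤ k := by exact_mod_cast hk
  have hlog2 : 0 < Real.log 2 := Real.log_pos (by norm_num)
  have hp2 : Real.log 2 ≤ Real.log p :=
    Real.log_le_log (by norm_num) (by exact_mod_cast hp.two_le)
  have hlp : 0 < Real.log p := by linarith
  set l : ℝ := max 0 (a * Real.log p - b) with hl
  have h1 : Real.log H ≤ k * Real.log p := by
    rw [← Real.log_pow]
    refine Real.log_le_log (by exact_mod_cast hH) ?_
    exact_mod_cast hHp.le
  have h2 : 1 + Real.log H ≤ (1 / Real.log 2 + 1) * (k * Real.log p) := by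
    have h3 : 1 ≤ 1 / Real.log 2 * (k * Real.log p) := by
      rw [one_div, inv_mul_eq_div, le_div_iff₀ hlog2]
      nlinarith
    linarith
  have h3 := one_add_max a b (Real.log p) ha hb hlp.le
  have h4 : Real.log |((resultant F G d d : ℤ) : ℝ)| ≤ (((Q + 1) * k : ℕ) : ℝ) * (1 + l) := by
    have h6 : A * (1 + Real.log H) ≤ A * ((1 / Real.log 2 + 1) * (k * Real.log p)) :=
      mul_le_mul_of_nonneg_left h2 hA
    have h7 : A * (1 / Real.log 2 + 1) * k * Real.log p ≤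
        A * (1 / Real.log 2 + 1) * k * ((1 + b) / a * (1 + l)) :=
      mul_le_mul_of_nonneg_left h3 (by positivity)
    have h8 : A * (1 / Real.log 2 + 1) * ((1 + b) / a) * (k * (1 + l)) ≤
        (Q + 1) * (k * (1 + l)) := by
      refine mul_le_mul_of_nonneg_right (by linarith) ?_
      have : 0 ≤ l := le_max_left _ _
      positivity
    push_cast
    nlinarith
  have h5 := hglue F G hF hG hR ((Q + 1) * k) (Nat.mul_pos (Nat.succ_pos _) hk)
    (Or.inl ⟨p, hp, l, hlam, h4⟩)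
  refine ⟨h5.1, h5.2.trans ?_⟩
  have h6 := log_mul_le (Q + 1) k
  have h8 : (((Q + 1) * k : ℕ) : ℝ) * Real.log ((((Q + 1) * k : ℕ) : ℝ) + 1) ≤
      (((Q + 1) * k : ℕ) : ℝ) * (((Q + 1 : ℕ) : ℝ) * Real.log (k + 1)) :=
    mul_le_mul_of_nonneg_left h6 (Nat.cast_nonneg _)
  have h9 := mul_le_mul_of_nonneg_left h8 hC
  refine h9.trans (le_of_eq ?_)
  push_cast
  ring

/-- The archimedean place with `Λ ≥ a log H - b`. -/
theorem pt_inf (N d : ℕ) (hd : 2 ≤ d) (A a b : ℝ) (hA : 0 ≤ A) (ha : 0 < a) (hb : 0 ≤ b) :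
    ∃ C : ℝ, 0 ≤ C ∧ ∀ F G : ℤ[X], F.natDegree ≤ d → G.natDegree ≤ d →
    resultant F G d d ≠ 0 → ∀ H : ℕ, 1 ≤ H →
    Real.log |((resultant F G d d : ℤ) : ℝ)| ≤ A * (1 + Real.log H) →
    LamI d F G (a * Real.log H - b) →
    (Pts N d F G).Finite ∧ ((Pts N d F G).ncard : ℝ) ≤ C := by
  obtain ⟨C, hC, hglue⟩ := glue N d hd
  obtain ⟨Q, hQ⟩ := exists_nat_ge (A * (1 + (2 + 2 * b) / a))
  refine ⟨C * (((Q + 1 : ℕ) : ℝ) * Real.log (((Q + 1 : ℕ) : ℝ) + 1)), ?_, ?_⟩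
  · refine mul_nonneg hC (mul_nonneg (Nat.cast_nonneg _) (Real.log_nonneg ?_))
    have : (0 : ℝ) ≤ ((Q + 1 : ℕ) : ℝ) := Nat.cast_nonneg _
    linarith
  intro F G hF hG hR H hH hlogR hlam
  have hlogH : 0 ≤ Real.log H := Real.log_natCast_nonneg _
  have h2 : (0 : ℝ) ≤ (2 + 2 * b) / a := by positivity
  rcases le_total (a * Real.log H) (2 * b) with hle | hle
  · -- small height
    have h3 : Real.log H ≤ (2 + 2 * b) / a := by
      rw [le_div_iff₀ ha]
      linarith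
    have h4 : Real.log |((resultant F G d d : ℤ) : ℝ)| ≤ ((Q + 1 : ℕ) : ℝ) := by
      have h5 : A * (1 + Real.log H) ≤ A * (1 + (2 + 2 * b) / a) :=
        mul_le_mul_of_nonneg_left (by linarith) hA
      push_cast
      linarith
    exact hglue F G hF hG hR (Q + 1) (Nat.succ_pos _) (Or.inr (Or.inr h4))
  · set l : ℝ := a * Real.log H - b with hl
    have hl0 : 0 ≤ l := by linarith
    have h3 : Real.log H ≤ (2 + 2 * b) / a * (1 + l) := by
      have h4 : Real.log H = (a * Real.log H) / a := by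
        field_simp
      rw [h4, div_mul_eq_mul_div, div_le_div_iff_of_pos_right ha]
      nlinarith
    have h4 : Real.log |((resultant F G d d : ℤ) : ℝ)| ≤ ((Q + 1 : ℕ) : ℝ) * (1 + l) := by
      have h5 : A * (1 + Real.log H) ≤ A * ((1 + (2 + 2 * b) / a) * (1 + l)) := by
        refine mul_le_mul_of_nonneg_left ?_ hA
        linarith
      have h6 : A * (1 + (2 + 2 * b) / a) * (1 + l) ≤ (Q + 1) * (1 + l) :=
        mul_le_mul_of_nonneg_right (by linarith) (by linarith)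
      push_cast
      nlinarith
    exact hglue F G hF hG hR (Q + 1) (Nat.succ_pos _) (Or.inr (Or.inl ⟨l, hlam, h4⟩))

end Pool.Agent.AVR
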