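import Mathlib
import Pool.Agent.AVR.Defs
import Pool.Agent.AVR.Lam
import Pool.Agent.AVR.PtC

set_option autoImplicit false

/-!
# One large prime factor of the resultant
-/

namespace Pool.Agent.AVR

open Polynomial
open Pool.Agent.RI (resSet)

namespace Pt

theorem DD_map {R S : Type} [CommRing R] [CommRing S] (φ : R →+* S) (d : ℕ) (F G : R[X]) :
    DD d (F.map φ) (G.map φ) = φ (DD d F G) := by
  have h1 : Fix (F.map φ) (G.map φ) = (Fix F G).map φ := by
    simp [Fix]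
  rw [DD, DD, h1, derivative_map, resultant_map_map]

/-- The size of the resultant. -/
theorem abs_res_le (d : ℕ) (F G : ℤ[X]) (H : ℕ) (hF : ∀ i, |F.coeff i| ≤ H)
    (hG : ∀ i, |G.coeff i| ≤ H) :
    |((resultant F G d d : ℤ) : ℝ)| ≤ (d + d).factorial * (H : ℝ) ^ (d + d) := by
  have h := Matrix.det_le (A := sylvester F G d d) (abv := AbsoluteValue.abs) (x := (H : ℤ))
    (fun i j => by
      unfold sylvester
      rw [Matrix.of_apply, AbsoluteValue.abs_apply]
      induction j using Fin.addCases with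
      | left j =>
        rw [Fin.addCases_left]
        split_ifs
        · exact hG _
        · simp
      | right j =>
        rw [Fin.addCases_right]
        split_ifs
        · exact hF _
        · simp)
  rw [Fintype.card_fin, AbsoluteValue.abs_apply, nsmul_eq_mul] at h
  have h2 : |resultant F G d d| ≤ ((d + d).factorial : ℤ) * (H : ℤ) ^ (d + d) := h
  exact_mod_cast h2

end Pt

open Pt PtC

/-- The size of the resultant. -/
theorem log_res_le (d : ℕ) : ∃ C : ℝ, 0 ≤ C ∧ ∀ F G : ℤ[X], resultant F G d d ≠ 0 →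
    ∀ H : ℕ, 1 ≤ H → (∀ i, |F.coeff i| ≤ H) → (∀ i, |G.coeff i| ≤ H) →
    Real.log |((resultant F G d d : ℤ) : ℝ)| ≤ C * (1 + Real.log H) := by
  refine ⟨Real.log (d + d).factorial + (d + d), add_nonneg (Real.log_natCast_nonneg _)
    (by positivity), fun F G hR H hH hF hG => ?_⟩
  have h1 := abs_res_le d F G H hF hG
  have h2 : (0 : ℝ) < |((resultant F G d d : ℤ) : ℝ)| := by
    rw [abs_pos]
    exact_mod_cast hR
  have hH0 : (0 : ℝ) < H := by exact_mod_cast hH
  have hf : (0 : ℝ) < (d + d).factorial := by exact_mod_cast Nat.factorial_pos _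
  have h3 := Real.log_le_log h2 h1
  rw [Real.log_mul hf.ne' (by positivity), Real.log_pow] at h3
  have h4 : 0 ≤ Real.log H := Real.log_natCast_nonneg _
  have h5 : 0 ≤ Real.log ((d + d).factorial : ℝ) := Real.log_natCast_nonneg _
  have h6 : 0 ≤ Real.log ((d + d).factorial : ℝ) * Real.log H := mul_nonneg h5 h4
  push_cast at h3 ⊢
  nlinarith

/-- The lower bound of the minimal resultant at a prime divisor of the resultant. -/
theorem lamP_of_dvd (d : ℕ) (hd : 2 ≤ d) : ∃ a b : ℝ, 0 < a ∧ 0 ≤ b ∧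
    ∀ F G : ℤ[X], F.natDegree ≤ d → G.natDegree ≤ d → resultant F G d d ≠ 0 →
    ∀ p : ℕ, p.Prime → (p : ℤ) ∣ resultant F G d d → ¬ (p : ℤ) ∣ G.coeff d →
    ¬ (p : ℤ) ∣ DD d F G → LamP d F G p (max 0 (a * Real.log p - b)) := by
  obtain ⟨C, hC, h⟩ := lam_low d hd
  have hd0 : (0 : ℝ) < d := by exact_mod_cast (by omega : 0 < d)
  refine ⟨1 / (2 * (d * (d + 1))), C / 2, by positivity, by positivity, ?_⟩
  intro F G hF hG hR p hp hpR hpG hpD E _ _ _ _ hpE r hr
  refine max_le (RI.resSet_nonneg d _ _ r hr) ?_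
  have hRE : resultant (F.map (Int.castRingHom E)) (G.map (Int.castRingHom E)) d d =
      ((resultant F G d d : ℤ) : E) := by
    rw [resultant_map_map]
    rfl
  have h1 := h (F.map (Int.castRingHom E)) (G.map (Int.castRingHom E))
    (natDegree_map_le.trans hF) (natDegree_map_le.trans hG)
    (fun i => by rw [coeff_map]; exact norm_int _) (fun i => by rw [coeff_map]; exact norm_int _)
    (by rw [coeff_map]; exact norm_coprime p hp hpE _ hpG)
    (by rw [DD_map]; exact norm_coprime p hp hpE _ hpD)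
    (by rw [hRE]; exact_mod_cast hR) r hr
  have h2 : ‖((resultant F G d d : ℤ) : E)‖ ≤ (p : ℝ)⁻¹ := norm_dvd p hpE _ hpR
  have hp0 : (0 : ℝ) < p := by exact_mod_cast hp.pos
  have h3 : 0 < ‖((resultant F G d d : ℤ) : E)‖ := by
    rw [norm_pos_iff]
    exact_mod_cast hR
  have h4 := Real.log_le_log h3 h2
  rw [Real.log_inv] at h4
  rw [hRE] at h1
  have h5 : Real.log p / (d * (d + 1)) ≤
      -Real.log ‖((resultant F G d d : ℤ) : E)‖ / (d * (d + 1)) := by
    apply div_le_div_of_nonneg_right _ (by positivity)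
    linarith
  have h6 : 1 / (2 * ((d : ℝ) * (d + 1))) * Real.log p = Real.log p / (d * (d + 1)) / 2 := by
    field_simp
  rw [h6]
  linarith

/-- One large prime factor of the resultant. -/
theorem pt (N d : ℕ) (hd : 2 ≤ d) : ∃ C : ℝ, 0 ≤ C ∧
    ∀ F G : ℤ[X], F.natDegree ≤ d → G.natDegree ≤ d → resultant F G d d ≠ 0 →
    ∀ H k : ℕ, 1 ≤ H → 1 ≤ k → (∀ i, |F.coeff i| ≤ H) → (∀ i, |G.coeff i| ≤ H) →
    ∀ p : ℕ, p.Prime → H < p ^ k → (p : ℤ) ∣ resultant F G d d → ¬ (p : ℤ) ∣ G.coeff d →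
    ¬ (p : ℤ) ∣ DD d F G →
    (Pts N d F G).Finite ∧ ((Pts N d F G).ncard : ℝ) ≤ C * (k * Real.log (k + 1)) := by
  obtain ⟨A, hA, hres⟩ := log_res_le d
  obtain ⟨a, b, ha, hb, hlam⟩ := lamP_of_dvd d hd
  obtain ⟨C, hC, h⟩ := pt_core N d hd A a b hA ha hb
  exact ⟨C, hC, fun F G hF hG hR H k hH hk hFH hGH p hp hHp hpR hpG hpD =>
    h F G hF hG hR H k hH hk (hres F G hR H hH hFH hGH) p hp hHp
      (hlam F G hF hG hR p hp hpR hpG hpD)⟩

/-- Every rational function. -/
theorem pt0 (N d : ℕ) (hd : 2 ≤ d) : ∃ C : ℝ, 0 ≤ C ∧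
    ∀ F G : ℤ[X], F.natDegree ≤ d → G.natDegree ≤ d → resultant F G d d ≠ 0 →
    ∀ H : ℕ, 1 ≤ H → (∀ i, |F.coeff i| ≤ H) → (∀ i, |G.coeff i| ≤ H) →
    (Pts N d F G).Finite ∧ ((Pts N d F G).ncard : ℝ) ≤ C * (1 + Real.log H) := by
  obtain ⟨C, hC, hglue⟩ := glue_all N d hd
  obtain ⟨A, hA, hres⟩ := log_res_le d
  refine ⟨C * (1 + A), by positivity, fun F G hF hG hR H hH hFH hGH => ?_⟩
  refine ⟨(hglue F G hF hG hR).1, (hglue F G hF hG hR).2.trans ?_⟩
  have h1 := hres F G hR H hH hFH hGH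
  have h2 : 0 ≤ Real.log H := Real.log_natCast_nonneg _
  rw [mul_assoc]
  refine mul_le_mul_of_nonneg_left ?_ hC
  nlinarith

end Pool.Agent.AVR
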