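import Mathlib
import Pool.Agent.AVR.Defs
import Pool.Agent.AVR.Line
import Pool.Agent.AVR.Mom

set_option autoImplicit false

/-!
# Smooth values of a polynomial in one variable
-/

namespace Pool.Agent.AVR

open Polynomial

/-- `Classes` from `exists_classes_gen`. -/
theorem classes_of (P : ℤ[X]) (D : ℕ) (hP : P.natDegree ≤ D) (p : ℕ) (hp : p.Prime) (f : ℕ)
    (hc : ¬ (p : ℤ) ^ (f + 1) ∣ P.coeff D) (e : ℕ) (he : 1 ≤ e) :
    Classes D (p ^ e) (fun t => (p : ℤ) ^ (D * (e - 1) + 1 + f) ∣ P.eval t) := by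
  obtain ⟨s, rfl⟩ : ∃ s, e = s + 1 := ⟨e - 1, by omega⟩
  obtain ⟨T, hT, h⟩ := exists_classes_gen P D hP p hp f hc s
  have : NeZero (p ^ (s + 1)) := ⟨pow_ne_zero _ hp.ne_zero⟩
  refine ⟨T.image fun c => (c.val : ℤ), Finset.card_image_le.trans hT, fun t ht => ?_⟩
  rw [Nat.add_sub_cancel] at ht
  refine ⟨_, Finset.mem_image_of_mem _ (h t ht), ?_⟩
  rw [← ZMod.intCast_zmod_eq_zero_iff_dvd, Int.cast_sub, Int.cast_natCast, ZMod.natCast_val,
    ZMod.cast_id, sub_self]

/-- The number of the integers in `[-H, H]` in few residue classes. -/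
theorem card_of_classes (D m H : ℕ) (hm : 1 ≤ m) (P : ℤ → Prop) (h : Classes D m P) (U : Finset ℤ)
    (hU : U ⊆ Finset.Icc (-(H : ℤ)) H) (hP : ∀ t ∈ U, P t) :
    (U.card : ℝ) ≤ D * ((2 * H + 1) / m + 1) := by
  classical
  obtain ⟨S, hS, h⟩ := h
  have hm0 : (0 : ℝ) < m := by exact_mod_cast hm
  have h1 : U ⊆ S.biUnion fun s => (Finset.Ioc (-(H : ℤ) - 1) H).filter
      (fun t => t ≡ s [ZMOD (m : ℤ)]) := by
    intro t ht
    obtain ⟨s, hs, hd⟩ := h t (hP t ht)
    rw [Finset.mem_biUnion]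
    refine ⟨s, hs, ?_⟩
    have h2 := Finset.mem_Icc.1 (hU ht)
    rw [Finset.mem_filter, Finset.mem_Ioc]
    refine ⟨⟨by omega, h2.2⟩, ?_⟩
    exact (Int.modEq_iff_dvd.2 hd).symm
  have h2 : ∀ s : ℤ, (((Finset.Ioc (-(H : ℤ) - 1) H).filter
      (fun t => t ≡ s [ZMOD (m : ℤ)])).card : ℝ) ≤ (2 * H + 1) / m + 1 := by
    intro s
    have h3 := Int.Ioc_filter_modEq_card (-(H : ℤ) - 1) H (r := (m : ℤ)) (by exact_mod_cast hm) s
    have h4 : ((((Finset.Ioc (-(H : ℤ) - 1) H).filter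
      (fun t => t ≡ s [ZMOD (m : ℤ)])).card : ℤ) : ℚ) ≤ (2 * H + 1) / m + 1 := by
      rw [h3]
      push_cast
      refine max_le ?_ (by positivity)
      have h5 := Int.floor_le (((H : ℚ) - s) / m)
      have h6 := Int.sub_one_lt_floor ((-(H : ℚ) - 1 - s) / m)
      have h7 : ((H : ℚ) - s) / m - (-(H : ℚ) - 1 - s) / m = (2 * H + 1) / m := by
        rw [← sub_div]
        congr 1
        ring
      linarith
    have h8 : ((((Finset.Ioc (-(H : ℤ) - 1) H).filter
      (fun t => t ≡ s [ZMOD (m : ℤ)])).card : ℚ) : ℝ) ≤ (((2 * H + 1) / m + 1 : ℚ) : ℝ) := by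
      exact_mod_cast h4
    push_cast at h8
    exact h8
  have h3 : (U.card : ℝ) ≤ ∑ s ∈ S, ((2 * (H : ℝ) + 1) / m + 1) := by
    have h4 : U.card ≤ ∑ s ∈ S, ((Finset.Ioc (-(H : ℤ) - 1) H).filter
      (fun t => t ≡ s [ZMOD (m : ℤ)])).card :=
      (Finset.card_le_card h1).trans Finset.card_biUnion_le
    have h5 : (U.card : ℝ) ≤ ((∑ s ∈ S, ((Finset.Ioc (-(H : ℤ) - 1) H).filter
      (fun t => t ≡ s [ZMOD (m : ℤ)])).card : ℕ) : ℝ) := Nat.cast_le.2 h4
    rw [Nat.cast_sum] at h5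
    exact h5.trans (Finset.sum_le_sum fun s _ => h2 s)
  rw [Finset.sum_const, nsmul_eq_mul] at h3
  refine h3.trans (mul_le_mul_of_nonneg_right (by exact_mod_cast hS) (by positivity))

namespace SmoothAux

/-- The condition at `(p, e)`. -/
def TT (P : ℤ[X]) (D p e : ℕ) (t : ℤ) : Prop :=
  (p : ℤ) ^ (D * (e - 1) + 1 + (P.coeff D).natAbs.factorization p) ∣ P.eval t

theorem not_dvd_coeff (c : ℤ) (hc : c ≠ 0) (p : ℕ) (hp : p.Prime) :
    ¬ (p : ℤ) ^ (c.natAbs.factorization p + 1) ∣ c := by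
  intro h
  have h1 : p ^ (c.natAbs.factorization p + 1) ∣ c.natAbs := by
    have := Int.natAbs_dvd_natAbs.2 h
    rwa [Int.natAbs_pow, Int.natAbs_natCast] at this
  exact Nat.pow_succ_factorization_not_dvd (Int.natAbs_ne_zero.2 hc) hp h1

open Classical in
/-- The valuation is controlled by the classes. -/
theorem val_le (P : ℤ[X]) (D : ℕ) (hD : 1 ≤ D) (y : ℕ) (hy : 2 ≤ y) (t : ℤ) (ht : P.eval t ≠ 0)
    (p : ℕ) (hp : p.Prime) (hpy : p ≤ y) (hE : ¬ TT P D p (Nat.log p (y ^ 2) + 1) t) :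
    (P.eval t).natAbs.factorization p ≤ (P.coeff D).natAbs.factorization p +
      D * ((PE y).filter (fun q => q.1 = p ∧ TT P D q.1 q.2 t)).card := by
  obtain ⟨f, hf⟩ : ∃ f, f = (P.coeff D).natAbs.factorization p := ⟨_, rfl⟩
  obtain ⟨v, hv⟩ : ∃ v, v = (P.eval t).natAbs.factorization p := ⟨_, rfl⟩
  rw [← hf, ← hv]
  rcases Nat.lt_or_ge f v with hlt | hge
  · have hdvd : ∀ n, n ≤ v → (p : ℤ) ^ n ∣ P.eval t := by
      intro n hn
      rw [hv] at hn
      have h1 := (hp.pow_dvd_iff_le_factorization (Int.natAbs_ne_zero.2 ht)).2 hn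
      have h2 : ((p ^ n : ℕ) : ℤ) ∣ P.eval t := Int.natCast_dvd.2 h1
      exact_mod_cast h2
    obtain ⟨n, hn⟩ : ∃ n, n = (v - f - 1) / D + 1 := ⟨_, rfl⟩
    have hDn : D * (n - 1) ≤ v - f - 1 := by
      rw [hn, Nat.add_sub_cancel]
      exact Nat.mul_div_le _ _
    have hnD : v - f ≤ D * n := by
      rw [hn]
      have := Nat.lt_mul_div_succ (v - f - 1) (show 0 < D by omega)
      omega
    have hcard : n ≤ ((PE y).filter (fun q => q.1 = p ∧ TT P D q.1 q.2 t)).card := by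
      have h1 : (Finset.Icc 1 n).image (fun e => (p, e)) ⊆
          (PE y).filter (fun q => q.1 = p ∧ TT P D q.1 q.2 t) := by
        intro q hq
        obtain ⟨e, he, rfl⟩ := Finset.mem_image.1 hq
        rw [Finset.mem_Icc] at he
        have h2 : D * (e - 1) ≤ D * (n - 1) := Nat.mul_le_mul_left _ (by omega)
        have h3 : D * (e - 1) + 1 + f ≤ v := by omega
        have h4 : e ≤ Nat.log p (y ^ 2) := by
          by_contra hcon
          rw [not_le] at hcon
          apply hE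
          unfold TT
          rw [← hf, Nat.add_sub_cancel]
          apply hdvd
          have h5 : D * Nat.log p (y ^ 2) ≤ D * (e - 1) := Nat.mul_le_mul_left _ (by omega)
          omega
        rw [Finset.mem_filter, mem_PE]
        refine ⟨⟨hpy, hp, he.1, ?_⟩, rfl, ?_⟩
        · exact Nat.pow_le_of_le_log (by positivity) h4
        · unfold TT
          rw [← hf]
          exact hdvd _ h3
      have h2 := Finset.card_le_card h1
      rw [Finset.card_image_of_injective _ (fun a b h => (Prod.mk.inj h).2), Nat.card_Icc] at h2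
      omega
    have := Nat.mul_le_mul_left D hcard
    omega
  · omega

/-- The logarithm of a smooth value. -/
theorem log_le (P : ℤ[X]) (D : ℕ) (hD : 1 ≤ D) (hc : P.coeff D ≠ 0) (y : ℕ) (hy : 2 ≤ y) (t : ℤ)
    (ht : P.eval t ≠ 0) (hs : ∀ p : ℕ, p.Prime → (p : ℤ) ∣ P.eval t → p ≤ y)
    (hE : ∀ p : ℕ, p.Prime → p ≤ y → ¬ TT P D p (Nat.log p (y ^ 2) + 1) t) :
    Real.log |((P.eval t : ℤ) : ℝ)| ≤
      Real.log |((P.coeff D : ℤ) : ℝ)| + D * Zs y (TT P D) t := by
  classical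
  obtain ⟨n, hn⟩ : ∃ n, n = (P.eval t).natAbs := ⟨_, rfl⟩
  have hn0 : n ≠ 0 := by rw [hn]; exact Int.natAbs_ne_zero.2 ht
  have hnr : |((P.eval t : ℤ) : ℝ)| = (n : ℝ) := by
    rw [hn, Nat.cast_natAbs, Int.cast_abs]
  obtain ⟨c, hcc⟩ : ∃ c, c = (P.coeff D).natAbs := ⟨_, rfl⟩
  have hc0 : c ≠ 0 := by rw [hcc]; exact Int.natAbs_ne_zero.2 hc
  have hcr : |((P.coeff D : ℤ) : ℝ)| = (c : ℝ) := by
    rw [hcc, Nat.cast_natAbs, Int.cast_abs]
  rw [hnr, hcr, Real.log_nat_eq_sum_factorization n, Real.log_nat_eq_sum_factorization c]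
  have hprime : ∀ p ∈ n.primeFactors, p.Prime ∧ p ≤ y := by
    intro p hp
    have h1 := Nat.prime_of_mem_primeFactors hp
    refine ⟨h1, hs p h1 ?_⟩
    have h2 := Nat.dvd_of_mem_primeFactors hp
    rw [hn] at h2
    exact Int.natCast_dvd.2 h2
  have e1 : (n.factorization.sum fun p t => (t : ℝ) * Real.log p) =
      ∑ p ∈ n.primeFactors, (n.factorization p : ℝ) * Real.log p := rfl
  have e2 : (c.factorization.sum fun p t => (t : ℝ) * Real.log p) =
      ∑ p ∈ c.primeFactors, (c.factorization p : ℝ) * Real.log p := rfl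
  rw [e1, e2]
  have h1 : ∑ p ∈ n.primeFactors, (c.factorization p : ℝ) * Real.log p ≤
      ∑ p ∈ c.primeFactors, (c.factorization p : ℝ) * Real.log p := by
    have h2 : ∑ p ∈ n.primeFactors, (c.factorization p : ℝ) * Real.log p =
        ∑ p ∈ n.primeFactors ∩ c.primeFactors, (c.factorization p : ℝ) * Real.log p := by
      symm
      refine Finset.sum_subset Finset.inter_subset_left fun p hp hp2 => ?_
      have h3 : p ∉ c.primeFactors := fun h => hp2 (Finset.mem_inter.2 ⟨hp, h⟩)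
      rw [← Nat.support_factorization, Finsupp.notMem_support_iff] at h3
      rw [h3, Nat.cast_zero, zero_mul]
    rw [h2]
    exact Finset.sum_le_sum_of_subset_of_nonneg Finset.inter_subset_right
      fun p _ _ => mul_nonneg (Nat.cast_nonneg _) (Real.log_natCast_nonneg p)
  have h2 : ∑ p ∈ n.primeFactors, (((PE y).filter
      (fun q => q.1 = p ∧ TT P D q.1 q.2 t)).card : ℝ) * Real.log p ≤ Zs y (TT P D) t := by
    unfold Zs
    rw [← Finset.sum_filter]
    have h3 : ∀ p : ℕ, (((PE y).filter (fun q => q.1 = p ∧ TT P D q.1 q.2 t)).card : ℝ) *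
        Real.log p = ∑ q ∈ ((PE y).filter (fun q => TT P D q.1 q.2 t)).filter
          (fun q => q.1 = p), Real.log q.1 := by
      intro p
      have h4 : ((PE y).filter (fun q => TT P D q.1 q.2 t)).filter (fun q => q.1 = p) =
          (PE y).filter (fun q => q.1 = p ∧ TT P D q.1 q.2 t) := by
        ext q
        simp only [Finset.mem_filter]
        tauto
      rw [h4]
      have h5 : ∀ q ∈ (PE y).filter (fun q => q.1 = p ∧ TT P D q.1 q.2 t),
          Real.log q.1 = Real.log p := by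
        intro q hq
        rw [(Finset.mem_filter.1 hq).2.1]
      rw [Finset.sum_congr rfl h5, Finset.sum_const, nsmul_eq_mul]
    rw [Finset.sum_congr rfl fun p _ => h3 p]
    rw [← Finset.sum_biUnion]
    · refine Finset.sum_le_sum_of_subset_of_nonneg ?_ fun q _ _ => Real.log_natCast_nonneg _
      intro q hq
      obtain ⟨p, -, hq⟩ := Finset.mem_biUnion.1 hq
      exact (Finset.mem_filter.1 hq).1
    · intro p _ p' _ hne
      rw [Function.onFun, Finset.disjoint_left]
      intro q h6 h7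
      exact hne ((Finset.mem_filter.1 h6).2.symm.trans (Finset.mem_filter.1 h7).2)
  calc ∑ p ∈ n.primeFactors, (n.factorization p : ℝ) * Real.log p
      ≤ ∑ p ∈ n.primeFactors, ((c.factorization p : ℝ) * Real.log p + D *
        ((((PE y).filter (fun q => q.1 = p ∧ TT P D q.1 q.2 t)).card : ℝ) * Real.log p)) := by
        refine Finset.sum_le_sum fun p hp => ?_
        obtain ⟨hp1, hp2⟩ := hprime p hp
        have h3 := val_le P D hD y hy t ht p hp1 hp2 (hE p hp1 hp2)
        rw [← hn, ← hcc] at h3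
        have h4 : (n.factorization p : ℝ) ≤ c.factorization p + D *
            (((PE y).filter (fun q => q.1 = p ∧ TT P D q.1 q.2 t)).card : ℝ) := by
          exact_mod_cast h3
        have h5 := mul_le_mul_of_nonneg_right h4 (Real.log_natCast_nonneg p)
        refine h5.trans (le_of_eq ?_)
        ring
    _ = ∑ p ∈ n.primeFactors, (c.factorization p : ℝ) * Real.log p + D *
        ∑ p ∈ n.primeFactors, (((PE y).filter
          (fun q => q.1 = p ∧ TT P D q.1 q.2 t)).card : ℝ) * Real.log p := by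
        rw [Finset.sum_add_distrib, Finset.mul_sum]
    _ ≤ _ := add_le_add h1 (mul_le_mul_of_nonneg_left h2 (Nat.cast_nonneg _))

end SmoothAux

open SmoothAux

/-- Smooth values of a polynomial whose leading coefficient is bounded. -/
theorem smooth_line (D A : ℕ) (hD : 1 ≤ D) : ∃ C c : ℝ, 0 < C ∧ 0 < c ∧
    ∀ H y k : ℕ, 2 ≤ y → 1 ≤ k → y ^ k ≤ H → ∀ P : ℤ[X], P.natDegree ≤ D → P.coeff D ≠ 0 →
    |P.coeff D| ≤ A → ∀ U : Finset ℤ, U ⊆ Finset.Icc (-(H : ℤ)) H →
    (∀ t ∈ U, P.eval t ≠ 0 ∧ ∀ p : ℕ, p.Prime → (p : ℤ) ∣ P.eval t → p ≤ y) →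
    (U.card : ℝ) ≤ C * (Real.exp (-(c * k)) + 1 / y) * (2 * H + 1) := by
  classical
  obtain ⟨C, c, hC, hc, hmom⟩ := mom D (1 / (4 * D)) (by
    have : (0 : ℝ) < D := by exact_mod_cast hD
    positivity)
  have hD0 : (1 : ℝ) ≤ D := by exact_mod_cast hD
  obtain ⟨k₀, hk₀⟩ : ∃ k₀ : ℕ, 4 * (A : ℝ) ≤ k₀ * Real.log 2 ∧ 2 ≤ k₀ := by
    obtain ⟨n, hn⟩ := exists_nat_ge (4 * (A : ℝ) / Real.log 2)
    have hl : 0 < Real.log 2 := Real.log_pos (by norm_num)
    refine ⟨n + 2, ?_, by omega⟩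
    rw [div_le_iff₀ hl] at hn
    push_cast
    nlinarith
  refine ⟨C + Real.exp (c * k₀) + 2 * D * (D + 1) + 2 * D, c, by positivity, hc, ?_⟩
  intro H y k hy hk hyk P hP hc0 hcA U hU hUs
  have hyr : (2 : ℝ) ≤ y := by exact_mod_cast hy
  have hy0 : (0 : ℝ) < y := by linarith
  have hH0 : (0 : ℝ) ≤ H := Nat.cast_nonneg H
  have hUc : (U.card : ℝ) ≤ 2 * H + 1 := by
    have h1 := Finset.card_le_card hU
    rw [Int.card_Icc] at h1
    have h2 : U.card ≤ 2 * H + 1 := by omega
    exact_mod_cast h2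
  rcases Nat.lt_or_ge k k₀ with hkk | hkk
  · have h1 : (1 : ℝ) ≤ Real.exp (c * k₀) * Real.exp (-(c * k)) := by
      rw [← Real.exp_add]
      refine Real.one_le_exp ?_
      have : (k : ℝ) ≤ k₀ := by exact_mod_cast hkk.le
      nlinarith
    have h2 : Real.exp (c * k₀) * Real.exp (-(c * k)) ≤
        (C + Real.exp (c * k₀) + 2 * D * (D + 1) + 2 * D) * (Real.exp (-(c * k)) + 1 / y) := by
      refine mul_le_mul ?_ ?_ (by positivity) (by positivity)
      · have : (0 : ℝ) ≤ 2 * D * (D + 1) + 2 * D := by positivity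
        linarith
      · have : (0 : ℝ) ≤ 1 / y := by positivity
        linarith
    calc (U.card : ℝ) ≤ 1 * (2 * H + 1) := by rw [one_mul]; exact hUc
      _ ≤ _ := mul_le_mul_of_nonneg_right (h1.trans h2) (by positivity)
  have hk2 : 2 ≤ k := hk₀.2.trans hkk
  have hy2H : y ^ 2 ≤ H := (Nat.pow_le_pow_right (by omega) hk2).trans hyk
  have hy2Hr : (y : ℝ) ^ 2 ≤ H := by exact_mod_cast hy2H
  have hlogy : 0 < Real.log y := Real.log_pos (by linarith)
  -- the three parts
  set M : ℝ := Real.exp (k * Real.log y / 2) with hM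
  have hM2 : M ^ 2 ≤ H := by
    rw [hM, ← Real.exp_nat_mul]
    have : ((2 : ℕ) : ℝ) * (k * Real.log y / 2) = k * Real.log y := by push_cast; ring
    rw [this, ← Real.log_pow, Real.exp_log (by positivity)]
    exact_mod_cast hyk
  have hMs : M < Nat.sqrt H + 1 := by
    have h1 : (H : ℝ) < ((Nat.sqrt H : ℝ) + 1) ^ 2 := by
      have := Nat.lt_succ_sqrt' H
      exact_mod_cast this
    exact lt_of_pow_lt_pow_left₀ 2 (by positivity) (hM2.trans_lt h1)
  have hM0 : 0 < M := Real.exp_pos _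
  set U1 := U.filter fun t => |((P.eval t : ℤ) : ℝ)| ≤ M with hU1
  set U2 := U.filter fun t => ∃ p ∈ (Finset.range (y + 1)).filter Nat.Prime,
    TT P D p (Nat.log p (y ^ 2) + 1) t with hU2
  set U3 := U.filter fun t => 1 / (4 * D) * (k * Real.log y) ≤ Zs y (TT P D) t with hU3
  have hcover : U ⊆ U1 ∪ U2 ∪ U3 := by
    intro t ht
    rw [Finset.mem_union, Finset.mem_union]
    by_contra hcon
    push Not at hcon
    obtain ⟨⟨h1, h2⟩, h3⟩ := hcon
    rw [hU1, Finset.mem_filter, not_and, not_le] at h1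
    rw [hU2, Finset.mem_filter, not_and] at h2
    rw [hU3, Finset.mem_filter, not_and, not_le] at h3
    have h1' := h1 ht
    have h2' := h2 ht
    have h3' := h3 ht
    obtain ⟨ht0, hts⟩ := hUs t ht
    have h4 := log_le P D hD hc0 y hy t ht0 hts (fun p hp hpy hT => h2'
      ⟨p, Finset.mem_filter.2 ⟨Finset.mem_range.2 (by omega), hp⟩, hT⟩)
    have h5 : k * Real.log y / 2 ≤ Real.log |((P.eval t : ℤ) : ℝ)| := by
      have := Real.log_le_log hM0 h1'.le
      rwa [hM, Real.log_exp] at this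
    have h6 : Real.log |((P.coeff D : ℤ) : ℝ)| ≤ k * Real.log y / 4 := by
      have hA1 : |((P.coeff D : ℤ) : ℝ)| ≤ A := by
        rw [← Int.cast_abs]
        exact_mod_cast hcA
      have hA2 : (0 : ℝ) < |((P.coeff D : ℤ) : ℝ)| := by
        rw [abs_pos]
        exact_mod_cast hc0
      have hA3 : Real.log |((P.coeff D : ℤ) : ℝ)| ≤ A :=
        ((Real.log_le_sub_one_of_pos hA2).trans (by linarith)).trans hA1
      have hA4 : (k₀ : ℝ) * Real.log 2 ≤ k * Real.log y := by
        refine mul_le_mul (by exact_mod_cast hkk) (Real.log_le_log (by norm_num) hyr)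
          (Real.log_nonneg (by norm_num)) (Nat.cast_nonneg _)
      linarith [hk₀.1]
    have h7 : D * Zs y (TT P D) t < k * Real.log y / 4 := by
      have := mul_lt_mul_of_pos_left h3' (by linarith : (0 : ℝ) < D)
      refine this.trans_le (le_of_eq ?_)
      field_simp
    linarith
  have hc1 : (U1.card : ℝ) ≤ 2 * D * (D + 1) * (1 / y) * (2 * H + 1) := by
    have h1 : U1.card ≤ D * ((D + 1) * (Nat.sqrt H + 1)) := by
      refine card_small P D hP hc0 _ M ?_ U
      have h2 : ((D : ℝ) + 1) * M < (((D + 1) * (Nat.sqrt H + 1) : ℕ) : ℝ) := by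
        push_cast
        exact mul_lt_mul_of_pos_left hMs (by positivity)
      refine h2.trans_le ?_
      have h3 : (1 : ℝ) ≤ (((D + 1) * (Nat.sqrt H + 1) : ℕ) : ℝ) := by
        exact_mod_cast Nat.one_le_iff_ne_zero.2 (by positivity)
      exact le_self_pow₀ h3 (by omega)
    have h2 : (U1.card : ℝ) ≤ D * ((D + 1) * ((Nat.sqrt H : ℝ) + 1)) := by exact_mod_cast h1
    have h3 : ((Nat.sqrt H : ℝ) + 1) * y ≤ 2 * (2 * H + 1) := by
      have h4 : (Nat.sqrt H : ℝ) * y ≤ H := by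
        have h5 : y ≤ Nat.sqrt H := Nat.le_sqrt'.2 hy2H
        have h6 : Nat.sqrt H * y ≤ Nat.sqrt H * Nat.sqrt H := Nat.mul_le_mul_left _ h5
        have h7 := Nat.sqrt_le H
        exact_mod_cast h6.trans h7
      have h5 : (y : ℝ) ≤ H := by nlinarith
      linarith
    have h4 : ((Nat.sqrt H : ℝ) + 1) ≤ 2 * (1 / y) * (2 * H + 1) := by
      have h5 : 2 * (1 / (y : ℝ)) * (2 * H + 1) = 2 * (2 * H + 1) / y := by ring
      rw [h5, le_div_iff₀ hy0]
      exact h3
    calc (U1.card : ℝ) ≤ D * ((D + 1) * ((Nat.sqrt H : ℝ) + 1)) := h2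
      _ ≤ D * ((D + 1) * (2 * (1 / y) * (2 * H + 1))) := by
          exact mul_le_mul_of_nonneg_left (mul_le_mul_of_nonneg_left h4 (by positivity))
            (by positivity)
      _ = 2 * D * (D + 1) * (1 / y) * (2 * H + 1) := by ring
  have hc2 : (U2.card : ℝ) ≤ 2 * D * (1 / y) * (2 * H + 1) := by
    have h1 : U2 ⊆ ((Finset.range (y + 1)).filter Nat.Prime).biUnion fun p =>
        U.filter fun t => TT P D p (Nat.log p (y ^ 2) + 1) t := by
      intro t ht
      rw [hU2, Finset.mem_filter] at ht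
      obtain ⟨htU, p, hp, hT⟩ := ht
      exact Finset.mem_biUnion.2 ⟨p, hp, Finset.mem_filter.2 ⟨htU, hT⟩⟩
    have h2 : ∀ p ∈ (Finset.range (y + 1)).filter Nat.Prime,
        ((U.filter fun t => TT P D p (Nat.log p (y ^ 2) + 1) t).card : ℝ) ≤
          2 * D * (2 * H + 1) / y ^ 2 := by
      intro p hp
      have hpp := (Finset.mem_filter.1 hp).2
      have h3 := card_of_classes D (p ^ (Nat.log p (y ^ 2) + 1)) H
        (Nat.one_le_pow _ _ hpp.pos) _
        (classes_of P D hP p hpp _ (not_dvd_coeff _ hc0 p hpp) _ (by omega))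
        (U.filter fun t => TT P D p (Nat.log p (y ^ 2) + 1) t)
        ((Finset.filter_subset _ _).trans hU) (fun t ht => (Finset.mem_filter.1 ht).2)
      have h4 : (y : ℝ) ^ 2 ≤ ((p ^ (Nat.log p (y ^ 2) + 1) : ℕ) : ℝ) := by
        exact_mod_cast (Nat.lt_pow_succ_log_self hpp.one_lt (y ^ 2)).le
      have h5 : (2 * (H : ℝ) + 1) / ((p ^ (Nat.log p (y ^ 2) + 1) : ℕ) : ℝ) ≤
          (2 * H + 1) / y ^ 2 :=
        div_le_div_of_nonneg_left (by positivity) (by positivity) h4
      have h6 : (1 : ℝ) ≤ (2 * H + 1) / y ^ 2 := by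
        rw [one_le_div (by positivity)]
        linarith
      refine h3.trans ?_
      calc (D : ℝ) * ((2 * H + 1) / ((p ^ (Nat.log p (y ^ 2) + 1) : ℕ) : ℝ) + 1) ≤
          D * ((2 * H + 1) / y ^ 2 + (2 * H + 1) / y ^ 2) :=
            mul_le_mul_of_nonneg_left (add_le_add h5 h6) (by positivity)
        _ = 2 * D * (2 * H + 1) / y ^ 2 := by ring
    have h3 : (((Finset.range (y + 1)).filter Nat.Prime).card : ℝ) ≤ y := by
      have h4 : (Finset.range (y + 1)).filter Nat.Prime ⊆ Finset.Icc 1 y := by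
        intro p hp
        rw [Finset.mem_filter, Finset.mem_range] at hp
        rw [Finset.mem_Icc]
        exact ⟨hp.2.one_lt.le, by omega⟩
      have h5 := Finset.card_le_card h4
      rw [Nat.card_Icc, Nat.add_sub_cancel] at h5
      exact_mod_cast h5
    calc (U2.card : ℝ) ≤ ∑ p ∈ (Finset.range (y + 1)).filter Nat.Prime,
          ((U.filter fun t => TT P D p (Nat.log p (y ^ 2) + 1) t).card : ℝ) := by
          exact_mod_cast (Finset.card_le_card h1).trans Finset.card_biUnion_le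
      _ ≤ ∑ _p ∈ (Finset.range (y + 1)).filter Nat.Prime, 2 * D * (2 * (H : ℝ) + 1) / y ^ 2 :=
          Finset.sum_le_sum h2
      _ = ((Finset.range (y + 1)).filter Nat.Prime).card * (2 * D * (2 * H + 1) / y ^ 2) := by
          rw [Finset.sum_const, nsmul_eq_mul]
      _ ≤ y * (2 * D * (2 * H + 1) / y ^ 2) := mul_le_mul_of_nonneg_right h3 (by positivity)
      _ = 2 * D * (1 / y) * (2 * H + 1) := by
          field_simp
  have hc3 : (U3.card : ℝ) ≤ C * Real.exp (-(c * k)) * (2 * H + 1) := by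
    refine le_trans ?_ (hmom H y k hy hk hyk (TT P D) fun q hq => ?_)
    · have h1 : U3 ⊆ (Finset.Icc (-(H : ℤ)) H).filter
          (fun t => 1 / (4 * D) * (k * Real.log y) ≤ Zs y (TT P D) t) := by
        intro t ht
        rw [hU3, Finset.mem_filter] at ht
        exact Finset.mem_filter.2 ⟨hU ht.1, ht.2⟩
      exact_mod_cast Finset.card_le_card h1
    · obtain ⟨-, hp, he, -⟩ := mem_PE.1 hq
      exact classes_of P D hP q.1 hp _ (not_dvd_coeff _ hc0 q.1 hp) q.2 he
  have hsum : (U.card : ℝ) ≤ U1.card + U2.card + U3.card := by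
    have h1 := Finset.card_le_card hcover
    have h2 := Finset.card_union_le (U1 ∪ U2) U3
    have h3 := Finset.card_union_le U1 U2
    exact_mod_cast h1.trans (h2.trans (Nat.add_le_add_right h3 _))
  have hfin : 2 * (D : ℝ) * (D + 1) * (1 / y) * (2 * H + 1) + 2 * D * (1 / y) * (2 * H + 1) +
      C * Real.exp (-(c * k)) * (2 * H + 1) ≤
      (C + Real.exp (c * k₀) + 2 * D * (D + 1) + 2 * D) * (Real.exp (-(c * k)) + 1 / y) *
        (2 * H + 1) := by
    have a1 : (0 : ℝ) ≤ Real.exp (-(c * k)) * (2 * H + 1) := by positivity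
    have a2 : (0 : ℝ) ≤ 1 / y * (2 * H + 1) := by positivity
    have a3 : (0 : ℝ) ≤ Real.exp (c * k₀) := (Real.exp_pos _).le
    have a4 : (0 : ℝ) ≤ 2 * (D : ℝ) * (D + 1) + 2 * D := by positivity
    have a5 := mul_nonneg a3 a1
    have a6 := mul_nonneg a3 a2
    have a7 := mul_nonneg a4 a1
    have a8 := mul_nonneg hC.le a2
    nlinarith
  linarith

end Pool.Agent.AVR
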