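import Mathlib
import Pool.Agent.AVR.Defs
import Pool.Agent.AVR.SmoothL

set_option autoImplicit false

/-!
# The resultant is rarely smooth
-/

namespace Pool.Agent.AVR

open Polynomial

namespace SmoothB

theorem pol_zero (d : ℕ) (a : Fin (d + 1) → ℤ) (t : ℤ) :
    pol d (Function.update a 0 (a 0 - t)) + C t = pol d a := by
  ext n
  rw [coeff_add]
  rcases Nat.lt_or_ge d n with h | h
  · rw [pol_coeff_eq_zero _ _ _ h, pol_coeff_eq_zero _ _ _ h, coeff_C, if_neg (by omega), add_zero]
  · have h1 := pol_coeff d (Function.update a 0 (a 0 - t)) ⟨n, by omega⟩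
    have h2 := pol_coeff d a ⟨n, by omega⟩
    simp only at h1 h2
    rw [h1, h2, coeff_C]
    rcases Nat.eq_zero_or_pos n with rfl | hn
    · have : (⟨0, by omega⟩ : Fin (d + 1)) = 0 := rfl
      rw [this, Function.update_self, if_pos rfl]
      ring
    · rw [Function.update_of_ne (fun h => by
        have := congrArg Fin.val h
        simp only [Fin.val_zero] at this
        omega), if_neg (by omega), add_zero]

theorem pol_last (d : ℕ) (b : Fin (d + 1) → ℤ) :
    pol d (Function.update b (Fin.last d) 0) + C (b (Fin.last d)) * X ^ d = pol d b := by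
  ext n
  rw [coeff_add, coeff_C_mul, coeff_X_pow]
  rcases Nat.lt_or_ge d n with h | h
  · rw [pol_coeff_eq_zero _ _ _ h, pol_coeff_eq_zero _ _ _ h, if_neg (by omega), mul_zero, add_zero]
  · have h1 := pol_coeff d (Function.update b (Fin.last d) 0) ⟨n, by omega⟩
    have h2 := pol_coeff d b ⟨n, by omega⟩
    simp only at h1 h2
    rw [h1, h2]
    rcases eq_or_ne n d with rfl | hn
    · have : (⟨n, by omega⟩ : Fin (n + 1)) = Fin.last n := rfl
      rw [this, Function.update_self, if_pos rfl]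
      ring
    · rw [Function.update_of_ne (fun h => hn (by
        have := congrArg Fin.val h
        simpa using this)), if_neg hn, mul_zero, add_zero]

/-- The line through a pair. -/
noncomputable def gmap (d : ℕ) (q : (Fin (d + 1) → ℤ) × (Fin (d + 1) → ℤ)) :
    (Fin (d + 1) → ℤ) × (Fin (d + 1) → ℤ) :=
  (Function.update q.1 0 (q.1 0 - q.2 (Fin.last d)), Function.update q.2 (Fin.last d) 0)

/-- The lines. -/
noncomputable def lines (d H : ℕ) : Finset ((Fin (d + 1) → ℤ) × (Fin (d + 1) → ℤ)) :=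
  (Fintype.piFinset fun i : Fin (d + 1) =>
    if i = 0 then Finset.Icc (-(2 * H : ℤ)) (2 * H) else Finset.Icc (-(H : ℤ)) H) ×ˢ
  (Fintype.piFinset fun i : Fin (d + 1) =>
    if i = Fin.last d then {0} else Finset.Icc (-(H : ℤ)) H)

theorem card_lines (d H : ℕ) : (lines d H).card ≤ 2 * (2 * H + 1) ^ (2 * d + 1) := by
  unfold lines
  rw [Finset.card_product, Fintype.card_piFinset, Fintype.card_piFinset, Fin.prod_univ_succ,
    Fin.prod_univ_castSucc]
  have h1 : ∀ i : Fin d, (if i.succ = 0 then Finset.Icc (-(2 * H : ℤ)) (2 * H) else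
      Finset.Icc (-(H : ℤ)) H).card = 2 * H + 1 := by
    intro i
    rw [if_neg (Fin.succ_ne_zero i), Int.card_Icc]
    omega
  have h2 : ∀ i : Fin d, (if i.castSucc = Fin.last d then ({0} : Finset ℤ) else
      Finset.Icc (-(H : ℤ)) H).card = 2 * H + 1 := by
    intro i
    rw [if_neg (Fin.castSucc_lt_last i).ne, Int.card_Icc]
    omega
  rw [if_pos rfl, if_pos rfl, Finset.prod_congr rfl fun i _ => h1 i,
    Finset.prod_congr rfl fun i _ => h2 i, Int.card_Icc, Finset.card_singleton, mul_one,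
    Finset.prod_const, Finset.card_univ, Fintype.card_fin]
  have h3 : (2 * (H : ℤ) + 1 - -(2 * (H : ℤ))).toNat = 4 * H + 1 := by omega
  rw [h3]
  have h4 : 4 * H + 1 ≤ 2 * (2 * H + 1) := by omega
  calc (4 * H + 1) * (2 * H + 1) ^ d * (2 * H + 1) ^ d ≤
      (2 * (2 * H + 1)) * (2 * H + 1) ^ d * (2 * H + 1) ^ d :=
        Nat.mul_le_mul_right _ (Nat.mul_le_mul_right _ h4)
    _ = 2 * (2 * H + 1) ^ (2 * d + 1) := by
        rw [show 2 * d + 1 = 1 + d + d by ring, pow_add, pow_add, pow_one]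
        ring

theorem gmap_mem (d H : ℕ) (q : (Fin (d + 1) → ℤ) × (Fin (d + 1) → ℤ)) (hq : q ∈ Box d H) :
    gmap d q ∈ lines d H := by
  unfold Box at hq
  rw [Finset.mem_product, mem_Vec, mem_Vec] at hq
  unfold lines gmap
  rw [Finset.mem_product, Fintype.mem_piFinset, Fintype.mem_piFinset]
  refine ⟨fun i => ?_, fun i => ?_⟩
  · rcases eq_or_ne i 0 with rfl | hi
    · rw [if_pos rfl]
      simp only [Function.update_self]
      have h1 := abs_le.1 (hq.1 0)
      have h2 := abs_le.1 (hq.2 (Fin.last d))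
      rw [Finset.mem_Icc]
      constructor <;> linarith
    · rw [if_neg hi]
      simp only [Function.update_of_ne hi]
      rw [Finset.mem_Icc]
      exact abs_le.1 (hq.1 i)
  · rcases eq_or_ne i (Fin.last d) with rfl | hi
    · rw [if_pos rfl]
      simp only [Function.update_self, Finset.mem_singleton]
    · rw [if_neg hi]
      simp only [Function.update_of_ne hi]
      rw [Finset.mem_Icc]
      exact abs_le.1 (hq.2 i)

/-- A pair is determined by its line and one coefficient. -/
theorem gmap_inj (d : ℕ) (q q' : (Fin (d + 1) → ℤ) × (Fin (d + 1) → ℤ))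
    (h : gmap d q = gmap d q') (h' : q.2 (Fin.last d) = q'.2 (Fin.last d)) : q = q' := by
  unfold gmap at h
  rw [Prod.mk.injEq] at h
  refine Prod.ext ?_ ?_
  · funext i
    have h1 := congrFun h.1 i
    rcases eq_or_ne i 0 with rfl | hi
    · rw [Function.update_self, Function.update_self, h'] at h1
      linarith
    · rwa [Function.update_of_ne hi, Function.update_of_ne hi] at h1
  · funext i
    have h1 := congrFun h.2 i
    rcases eq_or_ne i (Fin.last d) with rfl | hi
    · exact h'
    · rwa [Function.update_of_ne hi, Function.update_of_ne hi] at h1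

/-- From lines to the box. -/
theorem box_le (d H : ℕ) (W : Finset ((Fin (d + 1) → ℤ) × (Fin (d + 1) → ℤ)))
    (hW : W ⊆ Box d H) (B : ℝ) (hB : ∀ P : ℤ[X], P.natDegree ≤ 2 * d →
      (P.coeff (2 * d) = 1 ∨ P.coeff (2 * d) = -1) → ∀ U : Finset ℤ,
      U ⊆ Finset.Icc (-(H : ℤ)) H → (∀ t ∈ U, ∃ q ∈ W, P.eval t = RR d q) →
      (U.card : ℝ) ≤ B) :
    (W.card : ℝ) ≤ 2 * (2 * H + 1) ^ (2 * d + 1) * B := by
  classical
  have hB0 : 0 ≤ B := by
    have h1 := hB (X ^ (2 * d)) (by simp) (by left; simp) ∅ (by simp) (by simp)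
    simpa using h1
  have h1 := Finset.card_eq_sum_card_fiberwise (f := gmap d) (s := W) (t := lines d H)
    (fun q hq => gmap_mem d H q (hW hq))
  have h2 : ∀ g ∈ lines d H, ((W.filter fun q => gmap d q = g).card : ℝ) ≤ B := by
    intro g _
    obtain ⟨P, hP1, hP2, hP3⟩ := exists_line d (pol d g.1) (pol d g.2)
    have h3 : ((W.filter fun q => gmap d q = g).image fun q => q.2 (Fin.last d)).card =
        (W.filter fun q => gmap d q = g).card := by
      refine Finset.card_image_of_injOn fun q hq q' hq' h => ?_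
      rw [Finset.mem_coe, Finset.mem_filter] at hq hq'
      exact gmap_inj d q q' (hq.2.trans hq'.2.symm) h
    rw [← h3]
    refine hB P hP1 hP2 _ (fun t ht => ?_) fun t ht => ?_
    · obtain ⟨q, hq, rfl⟩ := Finset.mem_image.1 ht
      have h4 := hW (Finset.mem_filter.1 hq).1
      unfold Box at h4
      rw [Finset.mem_product, mem_Vec, mem_Vec] at h4
      rw [Finset.mem_Icc]
      exact abs_le.1 (h4.2 _)
    · obtain ⟨q, hq, rfl⟩ := Finset.mem_image.1 ht
      obtain ⟨hq1, hq2⟩ := Finset.mem_filter.1 hq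
      refine ⟨q, hq1, ?_⟩
      rw [hP3, ← hq2]
      unfold RR gmap
      simp only
      rw [pol_zero, pol_last]
  rw [h1]
  push_cast
  refine (Finset.sum_le_sum h2).trans ?_
  rw [Finset.sum_const, nsmul_eq_mul]
  refine mul_le_mul_of_nonneg_right ?_ hB0
  exact_mod_cast card_lines d H

end SmoothB

open SmoothB

open Classical in
/-- The resultant is rarely smooth. -/
theorem smooth (d : ℕ) (hd : 1 ≤ d) : ∃ C c : ℝ, 0 < C ∧ 0 < c ∧
    ∀ H y k : ℕ, 2 ≤ y → 1 ≤ k → y ^ k ≤ H →
    (((Box d H).filter (fun q : (Fin (d + 1) → ℤ) × (Fin (d + 1) → ℤ) => RR d q ≠ 0 ∧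
      ∀ p : ℕ, p.Prime → (p : ℤ) ∣ RR d q → p ≤ y)).card : ℝ) ≤
      C * (Real.exp (-(c * k)) + 1 / y) * (2 * H + 1) ^ (2 * d + 2) := by
  obtain ⟨C, c, hC, hc, h⟩ := smooth_line (2 * d) 1 (by omega)
  refine ⟨2 * C, c, by positivity, hc, fun H y k hy hk hyk => ?_⟩
  refine (box_le d H _ (Finset.filter_subset _ _)
    (C * (Real.exp (-(c * k)) + 1 / y) * (2 * H + 1)) fun P hP1 hP2 U hU hUs => ?_).trans
    (le_of_eq ?_)
  · refine h H y k hy hk hyk P hP1 (by rcases hP2 with h | h <;> rw [h] <;> norm_num)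
      (by rcases hP2 with h | h <;> rw [h] <;> norm_num) U hU fun t ht => ?_
    obtain ⟨q, hq, he⟩ := hUs t ht
    rw [he]
    exact (Finset.mem_filter.1 hq).2
  · rw [show 2 * d + 2 = (2 * d + 1) + 1 by ring, pow_succ]
    ring

end Pool.Agent.AVR
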