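import Mathlib

set_option autoImplicit false

/-!
# From a tail estimate to the mean of `exp (n ^ (1 / 3))`
-/

namespace Pool.Agent.AVR

namespace SumExp

/-- `a x ^ 2 ≤ (c / 2) x ^ 3 + 4 a ^ 3 / c ^ 2`. -/
theorem young (a c x : ℝ) (ha : 0 ≤ a) (hc : 0 < c) (hx : 0 ≤ x) :
    a * x ^ 2 ≤ c / 2 * x ^ 3 + 4 * a ^ 3 / c ^ 2 := by
  have h0 : 0 ≤ 4 * a ^ 3 / c ^ 2 := by positivity
  rcases le_total (2 * a / c) x with h | h
  · have h1 : 2 * a ≤ c * x := by
      rw [div_le_iff₀ hc] at h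
      linarith
    have h2 : a * x ^ 2 ≤ c / 2 * x ^ 3 := by
      have : 0 ≤ x ^ 2 := by positivity
      nlinarith
    linarith
  · have h1 : a * x ^ 2 ≤ a * (2 * a / c) ^ 2 :=
      mul_le_mul_of_nonneg_left (pow_le_pow_left₀ hx h 2) ha
    have h2 : a * (2 * a / c) ^ 2 = 4 * a ^ 3 / c ^ 2 := by
      field_simp
      ring
    have h3 : 0 ≤ c / 2 * x ^ 3 := by positivity
    linarith

/-- The weights against the tail. -/
theorem weight (C c : ℝ) (hC : 0 < C) (hc : 0 < c) : ∃ M : ℝ, 0 < M ∧ ∀ k : ℕ,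
    Real.exp ((2 * C * ((k : ℝ) + 1) ^ 2) ^ ((1 : ℝ) / 3)) * Real.exp (-(c * k)) ≤
      M * Real.exp (-(c / 2)) ^ k := by
  set a : ℝ := (2 * C) ^ ((1 : ℝ) / 3) with ha
  have ha0 : 0 ≤ a := by positivity
  refine ⟨Real.exp (c / 2 + 4 * a ^ 3 / c ^ 2), Real.exp_pos _, fun k => ?_⟩
  set x : ℝ := ((k : ℝ) + 1) ^ ((1 : ℝ) / 3) with hx
  have hk : (0 : ℝ) ≤ (k : ℝ) + 1 := by positivity
  have hx0 : 0 ≤ x := by positivity
  have hx3 : x ^ 3 = (k : ℝ) + 1 := by
    rw [hx, ← Real.rpow_natCast, ← Real.rpow_mul hk]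
    norm_num
  have h1 : (2 * C * ((k : ℝ) + 1) ^ 2) ^ ((1 : ℝ) / 3) = a * x ^ 2 := by
    rw [Real.mul_rpow (by positivity) (by positivity), ← ha, hx, ← Real.rpow_natCast,
      ← Real.rpow_natCast, ← Real.rpow_mul hk, ← Real.rpow_mul hk]
    congr 2
    push_cast
    ring
  have h2 := young a c x ha0 hc hx0
  rw [hx3] at h2
  rw [h1, ← Real.exp_add, ← Real.exp_nat_mul, ← Real.exp_add]
  refine Real.exp_le_exp.2 ?_
  linarith

end SumExp

open SumExp

open Classical in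
/-- The abstract sum. -/
theorem sum_exp (C c : ℝ) (hC : 0 < C) (hc : 0 < c) : ∃ M : ℝ, ∀ {α : Type} (A : Finset α)
    (n : α → ℕ) (T L : ℝ), 0 ≤ L → (A.card : ℝ) ≤ T →
    (∀ s ∈ A, (n s : ℝ) ≤ C * (1 + L)) →
    (∀ k : ℕ, 1 ≤ k → (k : ℝ) ^ 2 ≤ L →
      ((A.filter fun s => C * (k * Real.log (k + 1)) < n s).card : ℝ) ≤
        C * Real.exp (-(c * k)) * T) →
    ∑ s ∈ A, Real.exp ((n s : ℝ) ^ ((1 : ℝ) / 3)) ≤ M * T := by
  obtain ⟨M, hM, hw⟩ := weight C c hC hc
  set ρ : ℝ := Real.exp (-(c / 2)) with hρ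
  have hρ0 : 0 < ρ := Real.exp_pos _
  have hρ1 : ρ < 1 := by
    rw [hρ, Real.exp_lt_one_iff]
    linarith
  refine ⟨(C + 1) * (M * (1 - ρ)⁻¹), ?_⟩
  intro α A n T L hL hA hall htail
  have hT : 0 ≤ T := le_trans (Nat.cast_nonneg _) hA
  -- the largest `k`
  set K : ℕ := Nat.floor (Real.sqrt L) with hK
  have hKle : ((K : ℕ) : ℝ) ^ 2 ≤ L := by
    have h1 : (K : ℝ) ≤ Real.sqrt L := Nat.floor_le (Real.sqrt_nonneg _)
    calc (K : ℝ) ^ 2 ≤ Real.sqrt L ^ 2 := pow_le_pow_left₀ (Nat.cast_nonneg _) h1 2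
      _ = L := Real.sq_sqrt hL
  have hKlt : L < ((K : ℝ) + 1) ^ 2 := by
    have h1 : Real.sqrt L < K + 1 := Nat.lt_floor_add_one _
    calc L = Real.sqrt L ^ 2 := (Real.sq_sqrt hL).symm
      _ < ((K : ℝ) + 1) ^ 2 := pow_lt_pow_left₀ h1 (Real.sqrt_nonneg _) (by norm_num)
  set W : ℕ → ℝ := fun k => Real.exp ((2 * C * ((k : ℝ) + 1) ^ 2) ^ ((1 : ℝ) / 3)) with hW
  have hW0 : ∀ k, 0 < W k := fun k => Real.exp_pos _
  -- the pointwise bound
  have hpt : ∀ s ∈ A, Real.exp ((n s : ℝ) ^ ((1 : ℝ) / 3)) ≤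
      ∑ k ∈ Finset.range (K + 1), if (k = 0 ∨ C * (k * Real.log (k + 1)) < n s) then W k else 0 := by
    intro s hs
    set Q : Finset ℕ := (Finset.range (K + 1)).filter
      (fun k : ℕ => k = 0 ∨ C * ((k : ℝ) * Real.log (k + 1)) < n s) with hQ
    have hQne : Q.Nonempty := ⟨0, by
      rw [hQ, Finset.mem_filter]
      exact ⟨Finset.mem_range.2 (Nat.succ_pos _), Or.inl rfl⟩⟩
    set j := Q.max' hQne with hj
    have hjQ : j ∈ Q := Q.max'_mem hQne
    rw [hQ, Finset.mem_filter, Finset.mem_range] at hjQ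
    have hn : (n s : ℝ) ≤ 2 * C * ((j : ℝ) + 1) ^ 2 := by
      rcases Nat.lt_or_ge j K with hjK | hjK
      · have h1 : j + 1 ∉ Q := by
          intro h2
          have h3 := Q.le_max' _ h2
          omega
        rw [hQ, Finset.mem_filter] at h1
        push Not at h1
        have h2 := (h1 (Finset.mem_range.2 (by omega))).2
        push_cast at h2
        have h3 : Real.log ((j : ℝ) + 1 + 1) ≤ (j : ℝ) + 1 := by
          have h4 := Real.log_le_sub_one_of_pos (show (0 : ℝ) < (j : ℝ) + 1 + 1 by positivity)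
          linarith
        have h4 : C * (((j : ℝ) + 1) * Real.log ((j : ℝ) + 1 + 1)) ≤
            C * (((j : ℝ) + 1) * ((j : ℝ) + 1)) := by
          refine mul_le_mul_of_nonneg_left (mul_le_mul_of_nonneg_left h3 (by positivity)) hC.le
        nlinarith [sq_nonneg ((j : ℝ) + 1)]
      · have hjK' : j = K := by omega
        rw [hjK']
        have h1 := hall s hs
        have h2 : (1 : ℝ) ≤ ((K : ℝ) + 1) ^ 2 := by
          have : (0 : ℝ) ≤ K := Nat.cast_nonneg _
          nlinarith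
        nlinarith
    have hle : Real.exp ((n s : ℝ) ^ ((1 : ℝ) / 3)) ≤ W j :=
      Real.exp_le_exp.2 (Real.rpow_le_rpow (Nat.cast_nonneg _) hn (by norm_num))
    refine hle.trans ?_
    have h1 := Finset.single_le_sum (f := fun k : ℕ =>
      if (k = 0 ∨ C * ((k : ℝ) * Real.log (k + 1)) < n s) then W k else 0)
      (s := Finset.range (K + 1)) (fun k _ => by
        split_ifs
        · exact (hW0 k).le
        · exact le_rfl) (Finset.mem_range.2 hjQ.1)
    rw [if_pos hjQ.2] at h1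
    exact h1
  -- the sum
  have hcount : ∀ k ∈ Finset.range (K + 1),
      ((A.filter fun s => k = 0 ∨ C * ((k : ℝ) * Real.log (k + 1)) < n s).card : ℝ) ≤
        (C + 1) * Real.exp (-(c * k)) * T := by
    intro k hk
    rcases Nat.eq_zero_or_pos k with rfl | hpos
    · have h1 : ((A.filter fun s => (0 : ℕ) = 0 ∨
          C * (((0 : ℕ) : ℝ) * Real.log (((0 : ℕ) : ℝ) + 1)) < n s).card : ℝ) ≤ A.card := by
        exact_mod_cast Finset.card_filter_le _ _
      refine h1.trans (hA.trans ?_)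
      rw [Nat.cast_zero, mul_zero, neg_zero, Real.exp_zero, mul_one]
      nlinarith
    · have h1 : (A.filter fun s => k = 0 ∨ C * ((k : ℝ) * Real.log (k + 1)) < n s) =
          A.filter fun s => C * ((k : ℝ) * Real.log (k + 1)) < n s := by
        refine Finset.filter_congr fun s _ => ?_
        constructor
        · rintro (h | h)
          · omega
          · exact h
        · exact Or.inr
      rw [h1]
      have hk2 : (k : ℝ) ^ 2 ≤ L := by
        have h2 : (k : ℝ) ≤ K := by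
          have := Finset.mem_range.1 hk
          exact_mod_cast (by omega : k ≤ K)
        exact (pow_le_pow_left₀ (Nat.cast_nonneg _) h2 2).trans hKle
      refine (htail k hpos hk2).trans ?_
      refine mul_le_mul_of_nonneg_right (mul_le_mul_of_nonneg_right (by linarith)
        (Real.exp_pos _).le) hT
  calc ∑ s ∈ A, Real.exp ((n s : ℝ) ^ ((1 : ℝ) / 3))
      ≤ ∑ s ∈ A, ∑ k ∈ Finset.range (K + 1),
        if (k = 0 ∨ C * (k * Real.log (k + 1)) < n s) then W k else 0 :=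
        Finset.sum_le_sum hpt
    _ = ∑ k ∈ Finset.range (K + 1),
        ((A.filter fun s => k = 0 ∨ C * ((k : ℝ) * Real.log (k + 1)) < n s).card : ℝ) * W k := by
        rw [Finset.sum_comm]
        refine Finset.sum_congr rfl fun k _ => ?_
        rw [← Finset.sum_filter, Finset.sum_const, nsmul_eq_mul]
    _ ≤ ∑ k ∈ Finset.range (K + 1), (C + 1) * Real.exp (-(c * k)) * T * W k :=
        Finset.sum_le_sum fun k hk => mul_le_mul_of_nonneg_right (hcount k hk) (hW0 k).le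
    _ ≤ ∑ k ∈ Finset.range (K + 1), (C + 1) * T * (M * ρ ^ k) := by
        refine Finset.sum_le_sum fun k _ => ?_
        have h1 := hw k
        have h2 : (0 : ℝ) ≤ (C + 1) * T := by positivity
        calc (C + 1) * Real.exp (-(c * k)) * T * W k =
            (C + 1) * T * (W k * Real.exp (-(c * k))) := by ring
          _ ≤ (C + 1) * T * (M * ρ ^ k) := mul_le_mul_of_nonneg_left h1 h2
    _ = (C + 1) * T * (M * ∑ k ∈ Finset.range (K + 1), ρ ^ k) := by
        rw [Finset.mul_sum, Finset.mul_sum]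
    _ ≤ (C + 1) * T * (M * (1 - ρ)⁻¹) := by
        have h1 : ∑ k ∈ Finset.range (K + 1), ρ ^ k ≤ (1 - ρ)⁻¹ := by
          have h2 := hasSum_geometric_of_lt_one hρ0.le hρ1
          exact sum_le_hasSum _ (fun k _ => pow_nonneg hρ0.le k) h2
        have h2 : (0 : ℝ) ≤ (C + 1) * T := by positivity
        exact mul_le_mul_of_nonneg_left (mul_le_mul_of_nonneg_left h1 hM.le) h2
    _ = (C + 1) * (M * (1 - ρ)⁻¹) * T := by ring

end Pool.Agent.AVR
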